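import Mathlib

set_option autoImplicit false

namespace Pool.Agent.Helper885.ExRef

/-- geometric realisation of a graph without triangles: barycentric coordinates whose support is a
vertex or an edge -/
def geo {V : Type} [Fintype V] (G : SimpleGraph V) : Set (V → ℝ) :=
  {x | (∀ v, 0 ≤ x v) ∧ ∑ v, x v = 1 ∧ ∀ u v, x u ≠ 0 → x v ≠ 0 → u = v ∨ G.Adj u v}

open Classical in
/-- push forward of barycentric coordinates along a map of the vertices -/
noncomputable def push {V W : Type} [Fintype V] (F : V → W) (x : V → ℝ) (w : W) : ℝ :=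
  ∑ v, if F v = w then x v else 0

/-- points of the `k`-fold subdivision of `G` -/
def Grid (k : ℕ) {V : Type} [Fintype V] (G : SimpleGraph V) : Type :=
  {γ : V → ℕ // ∑ v, γ v = k ∧ ∀ u v, γ u ≠ 0 → γ v ≠ 0 → u = v ∨ G.Adj u v}

/-- the `k`-fold subdivision of `G` -/
def gridGraph (k : ℕ) {V : Type} [Fintype V] (G : SimpleGraph V) : SimpleGraph (Grid k G) where
  Adj γ γ' := γ ≠ γ' ∧ (∀ v, γ.1 v ≤ γ'.1 v + 1 ∧ γ'.1 v ≤ γ.1 v + 1) ∧
    ∀ u v, (γ.1 u ≠ 0 ∨ γ'.1 u ≠ 0) → (γ.1 v ≠ 0 ∨ γ'.1 v ≠ 0) → u = v ∨ G.Adj u v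
  symm := ⟨fun _ _ h => ⟨h.1.symm, fun v => ⟨(h.2.1 v).2, (h.2.1 v).1⟩,
    fun u v hu hv => h.2.2 u v hu.symm hv.symm⟩⟩
  loopless := ⟨fun _ h => h.1 rfl⟩

/-- hat functions of the subdivision (sup norm of `V → ℝ`) -/
noncomputable def hat (k : ℕ) {V : Type} [Fintype V] (G : SimpleGraph V) (x : V → ℝ)
    (ζ : Grid k G) : ℝ :=
  max 0 (1 - ‖fun v => (k : ℝ) * x v - (ζ.1 v : ℝ)‖)

/-- a sign on the pairs with different values, odd and unchanged when the first point moves along an edge -/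
structure OddSign {V S : Type} (G : SimpleGraph V) (F : V → S) (s : V → V → Bool) : Prop where
  odd : ∀ a b, F a ≠ F b → s b a = !(s a b)
  move : ∀ a a' b, G.Adj a a' → F a ≠ F b → F a' ≠ F b → s a b = s a' b

section basic
variable {V S : Type} {G : SimpleGraph V} {F : V → S} {s : V → V → Bool}

lemma OddSign.move2 (h : OddSign G F s) (a b b' : V) (hb : G.Adj b b') (h1 : F a ≠ F b)
    (h2 : F a ≠ F b') : s a b = s a b' := by
  have e1 := h.odd b a h1.symm
  have e2 := h.odd b' a h2.symm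
  rw [e1, e2, h.move b b' a hb h1.symm h2.symm]

/-- one step of the pair -/
def Mv (G : SimpleGraph V) (K : Set (V × V)) (p q : V × V) : Prop :=
  p ∈ K ∧ q ∈ K ∧ ((G.Adj p.1 q.1 ∧ p.2 = q.2) ∨ (p.1 = q.1 ∧ G.Adj p.2 q.2))

lemma hub_false (hG : G.Connected) (hF : ∀ a b, G.Adj a b → F a ≠ F b) (h : OddSign G F s)
    (v : V) (a : Fin 3 → V) (ha : ∀ i, G.Adj v (a i)) (hinj : ∀ i j, i ≠ j → F (a i) ≠ F (a j)) :
    False := by
  set σ := s v (a 0) with hσ
  have two : ∀ c : S, ∃ i j : Fin 3, i ≠ j ∧ F (a i) ≠ c ∧ F (a j) ≠ c := by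
    intro c
    by_cases h0 : F (a 0) = c
    · refine ⟨1, 2, by decide, ?_, ?_⟩
      · rw [← h0]; exact hinj 1 0 (by decide)
      · rw [← h0]; exact hinj 2 0 (by decide)
    · by_cases h1 : F (a 1) = c
      · refine ⟨0, 2, by decide, h0, ?_⟩
        rw [← h1]; exact hinj 2 1 (by decide)
      · exact ⟨0, 1, by decide, h0, h1⟩
  have key : ∀ y, (F y ≠ F v → s v y = σ) ∧
      (F y = F v → ∃ i j : Fin 3, i ≠ j ∧ s (a i) y = σ ∧ s (a j) y = σ) := by
    intro y
    obtain ⟨w⟩ := hG.preconnected (a 0) y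
    have gen : ∀ (x z : V) (w : G.Walk x z), ((F x ≠ F v → s v x = σ) ∧
      (F x = F v → ∃ i j : Fin 3, i ≠ j ∧ s (a i) x = σ ∧ s (a j) x = σ)) →
      ((F z ≠ F v → s v z = σ) ∧
      (F z = F v → ∃ i j : Fin 3, i ≠ j ∧ s (a i) z = σ ∧ s (a j) z = σ)) := by
      intro x z w
      induction w with
      | nil => exact fun h => h
      | @cons x y' z hxy p ih =>
        intro hx
        apply ih
        have hne := hF _ _ hxy
        constructor
        · intro hy
          by_cases hxv : F x = F v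
          · obtain ⟨i, j, hij, hi, hj⟩ := hx.2 hxv
            have fin : ∀ i, F (a i) ≠ F y' → s (a i) x = σ → s v y' = σ := by
              intro i hi1 hi2
              have e1 : s (a i) x = s (a i) y' := by
                apply h.move2 _ _ _ hxy _ hi1
                rw [hxv]; exact (hF _ _ (ha i)).symm
              have e2 : s v y' = s (a i) y' := h.move v (a i) y' (ha i) hy.symm hi1
              rw [e2, ← e1, hi2]
            by_cases h1 : F (a i) = F y'
            · apply fin j _ hj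
              rw [← h1]; exact hinj j i hij.symm
            · exact fin i h1 hi
          · have e1 : s v x = s v y' := h.move2 v x y' hxy (fun e => hxv e.symm) hy.symm
            rw [← e1]; exact hx.1 hxv
        · intro hy
          have hxv : F x ≠ F v := by rw [← hy]; exact hne
          obtain ⟨i, j, hij, hi, hj⟩ := two (F x)
          have fin : ∀ i, F (a i) ≠ F x → s (a i) y' = σ := by
            intro i hi1
            have e2 : s v x = s (a i) x := h.move v (a i) x (ha i) hxv.symm hi1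
            have e1 : s (a i) x = s (a i) y' := by
              apply h.move2 _ _ _ hxy hi1
              rw [hy]; exact (hF _ _ (ha i)).symm
            rw [← e1, ← e2]; exact hx.1 hxv
          exact ⟨i, j, hij, fin i hi, fin j hj⟩
    apply gen _ _ w
    constructor
    · intro _; rfl
    · intro h0
      exact absurd h0 (hF _ _ (ha 0)).symm
  obtain ⟨i, j, hij, hi, hj⟩ := (key v).2 rfl
  have h1 := (key (a i)).1 (hF _ _ (ha i)).symm
  have h2 := h.odd v (a i) (hF _ _ (ha i))
  rw [h1, hi] at h2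
  cases σ <;> simp at h2

end basic

section classes
variable {V S : Type} (G : SimpleGraph V) (F : V → S)

/-- two edges with the same image sharing a vertex -/
def rel (e e' : G.edgeSet) : Prop :=
  (∃ v, v ∈ e.1 ∧ v ∈ e'.1) ∧ Sym2.map F e.1 = Sym2.map F e'.1

/-- components of the preimages of edges -/
def Cls : Type := Quot (rel G F)

variable {G F}

def F1 : Cls G F → Sym2 S := Quot.lift (fun e => Sym2.map F e.1) (fun _ _ h => h.2)

def mem (v : V) (C : Cls G F) : Prop := ∃ e : G.edgeSet, Quot.mk _ e = C ∧ v ∈ e.1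

variable (G F) in
def G1 : SimpleGraph (Cls G F) where
  Adj C C' := C ≠ C' ∧ ∃ v, mem v C ∧ mem v C'
  symm := ⟨fun _ _ h => ⟨h.1.symm, h.2.imp fun _ h => ⟨h.2, h.1⟩⟩⟩
  loopless := ⟨fun _ h => h.1 rfl⟩

lemma F_mem_F1 {v : V} {C : Cls G F} (h : mem v C) : F v ∈ F1 C := by
  obtain ⟨e, rfl, hv⟩ := h
  exact Sym2.mem_map.2 ⟨v, hv, rfl⟩

lemma exists_mem_of_F1 {i : S} {C : Cls G F} (h : i ∈ F1 C) : ∃ v, mem v C ∧ F v = i := by
  obtain ⟨e, rfl⟩ := Quot.exists_rep C
  obtain ⟨v, hv, hvi⟩ := Sym2.mem_map.1 h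
  exact ⟨v, ⟨e, rfl, hv⟩, hvi⟩

lemma F1_eq_of_share {v : V} {C C' : Cls G F} (h : mem v C) (h' : mem v C')
    (e : F1 C = F1 C') : C = C' := by
  obtain ⟨e1, rfl, hv⟩ := h
  obtain ⟨e2, rfl, hv'⟩ := h'
  exact Quot.sound ⟨⟨v, hv, hv'⟩, e⟩

def cls (u v : V) (h : G.Adj u v) : Cls G F := Quot.mk _ ⟨s(u, v), h⟩

lemma mem_cls_left {u v : V} (h : G.Adj u v) : mem u (cls (F := F) u v h) :=
  ⟨⟨s(u, v), h⟩, rfl, Sym2.mem_mk_left u v⟩

lemma mem_cls_right {u v : V} (h : G.Adj u v) : mem v (cls (F := F) u v h) :=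
  ⟨⟨s(u, v), h⟩, rfl, Sym2.mem_mk_right u v⟩

lemma F1_cls {u v : V} (h : G.Adj u v) : F1 (cls (F := F) u v h) = s(F u, F v) := rfl

lemma exists_cls (C : Cls G F) : ∃ u v, ∃ h : G.Adj u v, C = cls u v h := by
  obtain ⟨⟨e, he⟩, rfl⟩ := Quot.exists_rep C
  induction e using Sym2.ind with
  | _ u v => exact ⟨u, v, he, rfl⟩

lemma mem_exists_cls {v : V} {C : Cls G F} (h : mem v C) :
    ∃ w, ∃ h : G.Adj v w, C = cls v w h := by
  obtain ⟨⟨e, he⟩, rfl, hv⟩ := h
  obtain ⟨w, rfl⟩ := Sym2.mem_iff_exists.1 hv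
  exact ⟨w, he, rfl⟩

lemma F1_ne_of_adj {C C' : Cls G F} (h : (G1 G F).Adj C C') : F1 C ≠ F1 C' := by
  intro e
  obtain ⟨hne, v, h1, h2⟩ := h
  exact hne (F1_eq_of_share h1 h2 e)

/-- at a vertex there are at most two classes when there is no hub -/
lemma two_classes
    (nohub : ∀ (v : V) (a : Fin 3 → V), (∀ i, G.Adj v (a i)) →
      (∀ i j, i ≠ j → F (a i) ≠ F (a j)) → False)
    {v : V} {C1 C2 C3 : Cls G F} (h1 : mem v C1) (h2 : mem v C2) (h3 : mem v C3)
    (h12 : C1 ≠ C2) : C3 = C1 ∨ C3 = C2 := by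
  by_contra hcon
  push Not at hcon
  obtain ⟨w1, a1, rfl⟩ := mem_exists_cls h1
  obtain ⟨w2, a2, rfl⟩ := mem_exists_cls h2
  obtain ⟨w3, a3, rfl⟩ := mem_exists_cls h3
  have key : ∀ {x y : V} (hx : G.Adj v x) (hy : G.Adj v y),
      cls (F := F) v x hx ≠ cls v y hy → F x ≠ F y := by
    intro x y hx hy hne e
    apply hne
    apply F1_eq_of_share (mem_cls_left hx) (mem_cls_left hy)
    rw [F1_cls, F1_cls, e]
  have e12 := key a1 a2 h12
  have e31 := key a3 a1 hcon.1
  have e32 := key a3 a2 hcon.2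
  refine nohub v ![w1, w2, w3] ?_ ?_
  · intro i
    fin_cases i
    · exact a1
    · exact a2
    · exact a3
  · intro i j hij
    fin_cases i <;> fin_cases j <;> first | exact absurd rfl hij | skip
    · exact e12
    · exact e31.symm
    · exact e12.symm
    · exact e32.symm
    · exact e31
    · exact e32

variable {s : V → V → Bool}

lemma const_left (h : OddSign G F s) {b : V} {C : Cls G F} (hb : F b ∉ F1 C) {u u' : V}
    (hu : mem u C) (hu' : mem u' C) : s u b = s u' b := by
  have edge : ∀ e : G.edgeSet, F b ∉ Sym2.map F e.1 → ∀ x ∈ e.1, ∀ y ∈ e.1, s x b = s y b := by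
    rintro ⟨e, he⟩ hbe x hx y hy
    induction e using Sym2.ind with
    | _ p q =>
      simp only [Sym2.map_mk, Prod.map_apply, Sym2.mem_iff, not_or] at hbe hx hy
      have hpq : s p b = s q b := h.move p q b he (fun e => hbe.1 e.symm) (fun e => hbe.2 e.symm)
      rcases hx with rfl | rfl <;> rcases hy with rfl | rfl
      · rfl
      · exact hpq
      · exact hpq.symm
      · rfl
  obtain ⟨e, rfl, hue⟩ := hu
  obtain ⟨e', he', hue'⟩ := hu'
  have hg : Relation.EqvGen (rel G F) e e' := (Quot.eqvGen_exact he').symm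
  have gen : ∀ e e' : G.edgeSet, Relation.EqvGen (rel G F) e e' →
      (Sym2.map F e.1 = Sym2.map F e'.1) ∧
      (F b ∉ Sym2.map F e.1 → ∀ x ∈ e.1, ∀ y ∈ e'.1, s x b = s y b) := by
    intro e e' hg
    induction hg with
    | rel e e' h =>
      refine ⟨h.2, fun hb x hx y hy => ?_⟩
      obtain ⟨v, hv, hv'⟩ := h.1
      rw [edge e hb x hx v hv, edge e' (by rw [← h.2]; exact hb) v hv' y hy]
    | refl e => exact ⟨rfl, fun hb x hx y hy => edge e hb x hx y hy⟩
    | symm e e' _ ih =>
      exact ⟨ih.1.symm, fun hb x hx y hy => (ih.2 (by rw [ih.1]; exact hb) y hy x hx).symm⟩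
    | trans e e' e'' _ _ ih1 ih2 =>
      refine ⟨ih1.1.trans ih2.1, fun hb x hx y hy => ?_⟩
      have : ∃ z, z ∈ e'.1 := by
        obtain ⟨e', he'⟩ := e'
        induction e' using Sym2.ind with
        | _ p q => exact ⟨p, Sym2.mem_mk_left p q⟩
      obtain ⟨z, hz⟩ := this
      rw [ih1.2 hb x hx z hz, ih2.2 (by rw [← ih1.1]; exact hb) z hz y hy]
  exact (gen e e' hg).2 hb u hue u' hue'

lemma const_right (h : OddSign G F s) {b : V} {C : Cls G F} (hb : F b ∉ F1 C) {u u' : V}
    (hu : mem u C) (hu' : mem u' C) : s b u = s b u' := by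
  have h1 : F u ≠ F b := fun e => hb (e ▸ F_mem_F1 hu)
  have h2 : F u' ≠ F b := fun e => hb (e ▸ F_mem_F1 hu')
  rw [h.odd u b h1, h.odd u' b h2, const_left h hb hu hu']

lemma const_both (hF : ∀ a b, G.Adj a b → F a ≠ F b) (h : OddSign G F s) {C C' : Cls G F}
    (hne : F1 C ≠ F1 C') {a b a2 b2 : V}
    (ha : mem a C) (hb : mem b C') (hab : F a ≠ F b) (ha2 : mem a2 C) (hb2 : mem b2 C')
    (hab2 : F a2 ≠ F b2) : s a b = s a2 b2 := by
  have ex : ∀ C C' : Cls G F, F1 C ≠ F1 C' → ∃ a0, mem a0 C ∧ F a0 ∉ F1 C' := by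
    intro C C' hne
    obtain ⟨u, v, huv, rfl⟩ := exists_cls C
    by_cases h1 : F u ∈ F1 C'
    · by_cases h2 : F v ∈ F1 C'
      · exact absurd ((Sym2.mem_and_mem_iff (hF u v huv)).1 ⟨h1, h2⟩).symm hne
      · exact ⟨v, mem_cls_right huv, h2⟩
    · exact ⟨u, mem_cls_left huv, h1⟩
  obtain ⟨a0, ha0, ha0'⟩ := ex C C' hne
  obtain ⟨b0, hb0, hb0'⟩ := ex C' C hne.symm
  have red : ∀ a b, mem a C → mem b C' → F a ≠ F b → s a b = s a0 b0 := by
    intro a b ha hb hab
    by_cases hbC : F b ∈ F1 C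
    · have e1 : F1 C = s(F a, F b) := (Sym2.mem_and_mem_iff hab).1 ⟨F_mem_F1 ha, hbC⟩
      have haC' : F a ∉ F1 C' := by
        intro h3
        exact hne (e1.trans ((Sym2.mem_and_mem_iff hab).1 ⟨h3, F_mem_F1 hb⟩).symm)
      rw [const_right h haC' hb hb0, const_left h hb0' ha ha0]
    · rw [const_left h hbC ha ha0, const_right h ha0' hb hb0]
  rw [red a b ha hb hab, red a2 b2 ha2 hb2 hab2]

lemma exists_far (hF : ∀ a b, G.Adj a b → F a ≠ F b) (C' : Cls G F) (a : V) :
    ∃ b, mem b C' ∧ F a ≠ F b := by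
  obtain ⟨u, v, huv, rfl⟩ := exists_cls C'
  by_cases h1 : F a = F u
  · exact ⟨v, mem_cls_right huv, by rw [h1]; exact hF u v huv⟩
  · exact ⟨u, mem_cls_left huv, h1⟩

open Classical in
noncomputable def s1 (s : V → V → Bool) (C C' : Cls G F) : Bool :=
  if h : ∃ p : V × V, mem p.1 C ∧ mem p.2 C' ∧ F p.1 ≠ F p.2 then s h.choose.1 h.choose.2 else false

lemma s1_eq (hF : ∀ a b, G.Adj a b → F a ≠ F b) (h : OddSign G F s) {C C' : Cls G F}
    (hne : F1 C ≠ F1 C') {a b : V} (ha : mem a C) (hb : mem b C') (hab : F a ≠ F b) :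
    s1 s C C' = s a b := by
  have hex : ∃ p : V × V, mem p.1 C ∧ mem p.2 C' ∧ F p.1 ≠ F p.2 := ⟨(a, b), ha, hb, hab⟩
  unfold s1
  rw [dif_pos hex]
  have h3 := hex.choose_spec
  exact const_both hF h hne h3.1 h3.2.1 h3.2.2 ha hb hab

lemma oddSign1 (hF : ∀ a b, G.Adj a b → F a ≠ F b) (h : OddSign G F s) :
    OddSign (G1 G F) F1 (s1 s) := by
  constructor
  · intro C C' hne
    obtain ⟨u, v, huv, hC⟩ := exists_cls C
    have ha : mem u C := by rw [hC]; exact mem_cls_left huv
    obtain ⟨b, hb, hab⟩ := exists_far hF C' u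
    rw [s1_eq hF h hne ha hb hab, s1_eq hF h hne.symm hb ha hab.symm]
    exact h.odd u b hab
  · intro C C' D hadj h1 h2
    obtain ⟨-, v, hv, hv'⟩ := hadj
    obtain ⟨b, hb, hab⟩ := exists_far hF D v
    rw [s1_eq hF h h1 hv hb hab, s1_eq hF h h2 hv' hb hab]

/-- the induced set of pairs of classes -/
def K1 (K : Set (V × V)) : Set (Cls G F × Cls G F) :=
  {p | F1 p.1 ≠ F1 p.2 ∧ ∃ z ∈ K, mem z.1 p.1 ∧ mem z.2 p.2}

lemma q_conn {K : Set (V × V)} (hfar : ∀ z ∈ K, F z.1 ≠ F z.2) {z : V × V} (hz : z ∈ K)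
    {p q : Cls G F × Cls G F} (hp : F1 p.1 ≠ F1 p.2) (hp1 : mem z.1 p.1) (hp2 : mem z.2 p.2)
    (hq : F1 q.1 ≠ F1 q.2) (hq1 : mem z.1 q.1) (hq2 : mem z.2 q.2) :
    Relation.ReflTransGen (Mv (G1 G F) (K1 K)) p q := by
  obtain ⟨C, D⟩ := p
  obtain ⟨C', D'⟩ := q
  simp only at hp hp1 hp2 hq hq1 hq2
  have inK : ∀ {A B : Cls G F}, F1 A ≠ F1 B → mem z.1 A → mem z.2 B → (A, B) ∈ K1 K :=
    fun h1 h2 h3 => ⟨h1, z, hz, h2, h3⟩
  have st1 : ∀ {A A' B : Cls G F}, F1 A ≠ F1 B → F1 A' ≠ F1 B → mem z.1 A → mem z.1 A' →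
      mem z.2 B → Relation.ReflTransGen (Mv (G1 G F) (K1 K)) (A, B) (A', B) := by
    intro A A' B h1 h2 h3 h4 h5
    by_cases hAA : A = A'
    · rw [hAA]
    · exact Relation.ReflTransGen.single ⟨inK h1 h3 h5, inK h2 h4 h5, Or.inl ⟨⟨hAA, z.1, h3, h4⟩, rfl⟩⟩
  have st2 : ∀ {A B B' : Cls G F}, F1 A ≠ F1 B → F1 A ≠ F1 B' → mem z.1 A → mem z.2 B →
      mem z.2 B' → Relation.ReflTransGen (Mv (G1 G F) (K1 K)) (A, B) (A, B') := by
    intro A B B' h1 h2 h3 h4 h5
    by_cases hBB : B = B'
    · rw [hBB]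
    · exact Relation.ReflTransGen.single ⟨inK h1 h3 h4, inK h2 h3 h5, Or.inr ⟨rfl, ⟨hBB, z.2, h4, h5⟩⟩⟩
  by_cases h1 : F1 C = F1 D'
  · by_cases h2 : F1 C' = F1 D
    · exfalso
      have hne := hfar z hz
      have e1 : F1 C = s(F z.1, F z.2) :=
        (Sym2.mem_and_mem_iff hne).1 ⟨F_mem_F1 hp1, h1 ▸ F_mem_F1 hq2⟩
      have e2 : F1 C' = s(F z.1, F z.2) :=
        (Sym2.mem_and_mem_iff hne).1 ⟨F_mem_F1 hq1, h2 ▸ F_mem_F1 hp2⟩
      have e3 : C = C' := F1_eq_of_share hp1 hq1 (e1.trans e2.symm)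
      rw [e3] at hp
      rw [e3] at h1
      exact hq h1
    · exact (st1 hp h2 hp1 hq1 hp2).trans (st2 h2 hq hq1 hp2 hq2)
  · exact (st2 hp h1 hp1 hp2 hq2).trans (st1 h1 hq hp1 hq1 hq2)

lemma q_step (hnb : ∀ v : V, ∃ w, G.Adj v w) {K : Set (V × V)} (hfar : ∀ z ∈ K, F z.1 ≠ F z.2)
    {z z' : V × V} (h : Mv G K z z') :
    ∃ p : Cls G F × Cls G F, F1 p.1 ≠ F1 p.2 ∧ mem z.1 p.1 ∧ mem z.2 p.2 ∧ mem z'.1 p.1 ∧
      mem z'.2 p.2 := by
  obtain ⟨hz, hz', h⟩ := h
  have f1 := hfar z hz
  have f2 := hfar z' hz'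
  rcases h with ⟨hadj, he⟩ | ⟨he, hadj⟩
  · obtain ⟨w, hw⟩ := hnb z.2
    refine ⟨(cls z.1 z'.1 hadj, cls z.2 w hw), ?_, mem_cls_left hadj, mem_cls_left hw,
      mem_cls_right hadj, ?_⟩
    · intro e
      have h3 : F z.2 ∈ F1 (cls (F := F) z.1 z'.1 hadj) := by
        rw [e]; exact F_mem_F1 (mem_cls_left hw)
      rw [F1_cls, Sym2.mem_iff] at h3
      rcases h3 with h3 | h3
      · exact f1 h3.symm
      · rw [he] at h3; exact f2 h3.symm
    · show mem z'.2 _
      rw [← he]; exact mem_cls_left hw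
  · obtain ⟨w, hw⟩ := hnb z.1
    refine ⟨(cls z.1 w hw, cls z.2 z'.2 hadj), ?_, mem_cls_left hw, mem_cls_left hadj,
      ?_, mem_cls_right hadj⟩
    · intro e
      have h3 : F z.1 ∈ F1 (cls (F := F) z.2 z'.2 hadj) := by
        rw [← e]; exact F_mem_F1 (mem_cls_left hw)
      rw [F1_cls, Sym2.mem_iff] at h3
      rcases h3 with h3 | h3
      · exact f1 h3
      · rw [he] at h3; exact f2 h3
    · show mem z'.1 _
      rw [← he]; exact mem_cls_left hw

lemma k1_conn (hnb : ∀ v : V, ∃ w, G.Adj v w) {K : Set (V × V)}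
    (hfar : ∀ z ∈ K, F z.1 ≠ F z.2)
    (hconn : ∀ z ∈ K, ∀ z' ∈ K, Relation.ReflTransGen (Mv G K) z z')
    (p q : Cls G F × Cls G F) (hp : p ∈ K1 K) (hq : q ∈ K1 K) :
    Relation.ReflTransGen (Mv (G1 G F) (K1 K)) p q := by
  obtain ⟨hp0, z, hz, hp1, hp2⟩ := hp
  obtain ⟨hq0, z', hz', hq1, hq2⟩ := hq
  have gen : ∀ z', Relation.ReflTransGen (Mv G K) z z' → z' ∈ K → ∀ q : Cls G F × Cls G F,
      F1 q.1 ≠ F1 q.2 → mem z'.1 q.1 → mem z'.2 q.2 →
      Relation.ReflTransGen (Mv (G1 G F) (K1 K)) p q := by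
    intro z' h
    induction h with
    | refl => intro h1 q h2 h3 h4; exact q_conn hfar hz hp0 hp1 hp2 h2 h3 h4
    | tail h1 h2 ih =>
      intro h3 q h4 h5 h6
      obtain ⟨r, r0, r1, r2, r3, r4⟩ := q_step hnb hfar h2
      exact (ih h2.1 r r0 r1 r2).trans (q_conn hfar h3 r0 r3 r4 h4 h5 h6)
  exact gen z' (hconn z hz z' hz') hz' q hq0 hq1 hq2

lemma rtg_exit {α : Type} {r : α → α → Prop} {P : α → Prop} {a b : α}
    (h : Relation.ReflTransGen r a b) (ha : P a) (hb : ¬ P b) : ∃ x y, r x y ∧ P x ∧ ¬ P y := by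
  induction h with
  | refl => exact absurd ha hb
  | @tail b c h1 h2 ih =>
    by_cases hb' : P b
    · exact ⟨b, c, h2, hb', hb⟩
    · exact ih hb'

/-- an edge both of whose ends are visited by the first point is crossed by it -/
lemma traverse (hac : G.IsAcyclic) {K : Set (V × V)}
    (hconn : ∀ z ∈ K, ∀ z' ∈ K, Relation.ReflTransGen (Mv G K) z z') {u u' : V}
    (huu : G.Adj u u') {y1 y2 : V} (h1 : (u, y1) ∈ K) (h2 : (u', y2) ∈ K) :
    ∃ y, (u, y) ∈ K ∧ (u', y) ∈ K := by
  have hb := SimpleGraph.isAcyclic_iff_forall_adj_isBridge.1 hac huu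
  rw [SimpleGraph.isBridge_iff] at hb
  have hnr := hb
  set H := G.deleteEdges {s(u, u')} with hH
  obtain ⟨x, y, ⟨hx, hy, hst⟩, hPx, hPy⟩ := rtg_exit (P := fun z : V × V => H.Reachable u z.1)
    (hconn _ h1 _ h2) (SimpleGraph.Reachable.refl u) hnr
  rcases hst with ⟨hadj, he⟩ | ⟨he, -⟩
  · have hedge : s(x.1, y.1) = s(u, u') := by
      by_contra hne
      apply hPy
      refine hPx.trans (SimpleGraph.Adj.reachable ?_)
      rw [hH, SimpleGraph.deleteEdges_adj]
      exact ⟨hadj, hne⟩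
    rcases Sym2.eq_iff.1 hedge with ⟨e1, e2⟩ | ⟨e1, e2⟩
    · refine ⟨x.2, ?_, ?_⟩
      · rw [← e1]; exact hx
      · rw [← e2, he]; exact hy
    · exfalso
      apply hnr
      rw [← e1]; exact hPx
  · exfalso
    apply hPy
    show H.Reachable u y.1
    rw [← he]; exact hPx

lemma k1_full (hnb : ∀ v : V, ∃ w, G.Adj v w) (hac : G.IsAcyclic) {K : Set (V × V)}
    (hfar : ∀ z ∈ K, F z.1 ≠ F z.2)
    (hconn : ∀ z ∈ K, ∀ z' ∈ K, Relation.ReflTransGen (Mv G K) z z')
    (hfull : ∀ v, ∃ y, (v, y) ∈ K) (C : Cls G F) : ∃ D, (C, D) ∈ K1 K := by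
  obtain ⟨u, v, huv, rfl⟩ := exists_cls C
  obtain ⟨y1, hy1⟩ := hfull u
  obtain ⟨y2, hy2⟩ := hfull v
  obtain ⟨y, h1, h2⟩ := traverse hac hconn huv hy1 hy2
  obtain ⟨w, hw⟩ := hnb y
  refine ⟨cls y w hw, ?_, (u, y), h1, mem_cls_left huv, mem_cls_left hw⟩
  intro e
  have h3 : F y ∈ F1 (cls (F := F) u v huv) := by
    rw [show F1 (cls (F := F) u v huv) = F1 (cls (F := F) y w hw) from e]
    exact F_mem_F1 (mem_cls_left hw)
  rw [F1_cls, Sym2.mem_iff] at h3
  rcases h3 with h3 | h3
  · exact hfar _ h1 h3.symm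
  · exact hfar _ h2 h3.symm

lemma g1_connected (hG : G.Connected) (hnb : ∀ v : V, ∃ w, G.Adj v w) : (G1 G F).Connected := by
  have share : ∀ {v : V} {C D : Cls G F}, mem v C → mem v D → (G1 G F).Reachable C D := by
    intro v C D h1 h2
    by_cases h : C = D
    · rw [h]
    · exact SimpleGraph.Adj.reachable ⟨h, v, h1, h2⟩
  have gen : ∀ (u v : V) (w : G.Walk u v) (C D : Cls G F), mem u C → mem v D →
      (G1 G F).Reachable C D := by
    intro u v w
    induction w with
    | nil => intro C D h1 h2; exact share h1 h2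
    | cons hadj p ih =>
      intro C D h1 h2
      exact (share h1 (mem_cls_left hadj)).trans (ih _ D (mem_cls_right hadj) h2)
  haveI : Nonempty (Cls G F) := by
    obtain ⟨v⟩ := hG.nonempty
    obtain ⟨w, hw⟩ := hnb v
    exact ⟨cls v w hw⟩
  refine ⟨fun C D => ?_⟩
  obtain ⟨u, v, huv, hC⟩ := exists_cls C
  obtain ⟨x, y, hxy, hD⟩ := exists_cls D
  obtain ⟨w⟩ := hG.preconnected u x
  exact gen u x w C D (by rw [hC]; exact mem_cls_left huv) (by rw [hD]; exact mem_cls_left hxy)

lemma card_lt (hT : G.IsTree) [Finite V] : Nat.card (Cls G F) < Nat.card V := by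
  classical
  haveI := Fintype.ofFinite V
  haveI : Fintype G.edgeSet := Fintype.ofFinite _
  have h1 := hT.card_edgeFinset
  have h2 : Nat.card (Cls G F) ≤ Nat.card G.edgeSet :=
    Nat.card_le_card_of_surjective (Quot.mk (rel G F)) Quot.exists_rep
  have h3 : Nat.card G.edgeSet = G.edgeFinset.card := by
    rw [Nat.card_eq_fintype_card, SimpleGraph.edgeFinset_card]
  rw [Nat.card_eq_fintype_card (α := V)]
  omega

/-- the vertices reached from `v` through an edge of the class `C`, avoiding `v` afterwards -/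
def sideV (v : V) (C : Cls G F) (w : V) : Prop :=
  ∃ a, ∃ h : G.Adj v a, cls v a h = C ∧ (G.deleteIncidenceSet v).Reachable a w

lemma nbr_eq (hac : G.IsAcyclic) {v a w : V} (h1 : G.Adj v a) (h2 : G.Adj v w)
    (h3 : (G.deleteIncidenceSet v).Reachable a w) : a = w := by
  by_contra hne
  have hb := SimpleGraph.isAcyclic_iff_forall_adj_isBridge.1 hac h1
  rw [SimpleGraph.isBridge_iff] at hb
  apply hb
  have hle : G.deleteIncidenceSet v ≤ G.deleteEdges {s(v, a)} := by
    intro x y hxy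
    rw [SimpleGraph.deleteIncidenceSet_adj] at hxy
    rw [SimpleGraph.deleteEdges_adj]
    refine ⟨hxy.1, ?_⟩
    intro h
    rcases Sym2.eq_iff.1 h with ⟨e1, e2⟩ | ⟨e1, e2⟩
    · exact hxy.2.1 e1
    · exact hxy.2.2 e2
  refine (SimpleGraph.Adj.reachable ?_ : (G.deleteEdges {s(v, a)}).Reachable v w).trans
    (h3.mono hle).symm
  rw [SimpleGraph.deleteEdges_adj]
  refine ⟨h2, ?_⟩
  intro h
  rcases Sym2.eq_iff.1 h with ⟨e1, e2⟩ | ⟨e1, e2⟩
  · exact hne e2.symm
  · exact h1.ne e1

lemma sideV_nbr (hac : G.IsAcyclic) {v w : V} (C : Cls G F) (h : G.Adj v w) :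
    sideV v C w ↔ cls v w h = C := by
  constructor
  · rintro ⟨a, ha, hC, hr⟩
    obtain rfl := nbr_eq hac ha h hr
    exact hC
  · intro hC
    exact ⟨w, h, hC, SimpleGraph.Reachable.refl w⟩

lemma sideV_adj {v : V} (C : Cls G F) {x y : V} (h : G.Adj x y) (hx : x ≠ v) (hy : y ≠ v) :
    sideV v C x ↔ sideV v C y := by
  have hadj : (G.deleteIncidenceSet v).Adj x y := by
    rw [SimpleGraph.deleteIncidenceSet_adj]; exact ⟨h, hx, hy⟩
  constructor
  · rintro ⟨a, ha, hC, hr⟩
    exact ⟨a, ha, hC, hr.trans hadj.reachable⟩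
  · rintro ⟨a, ha, hC, hr⟩
    exact ⟨a, ha, hC, hr.trans hadj.symm.reachable⟩

/-- the side of an edge -/
def sideE (v : V) (C : Cls G F) (e : G.edgeSet) : Prop :=
  (v ∈ e.1 → Quot.mk _ e = C) ∧ (v ∉ e.1 → ∀ x ∈ e.1, sideV v C x)

lemma sideE_iff (hac : G.IsAcyclic) {v : V} (C : Cls G F) {e : G.edgeSet} {w : V} (hw : w ∈ e.1)
    (hwv : w ≠ v) : sideE v C e ↔ sideV v C w := by
  obtain ⟨e, he⟩ := e
  obtain ⟨y, rfl⟩ := Sym2.mem_iff_exists.1 hw
  by_cases hy : y = v
  · subst hy
    constructor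
    · intro h
      rw [sideV_nbr hac C (show G.Adj y w from SimpleGraph.Adj.symm he)]
      have h1 := h.1 (Sym2.mem_mk_right w y)
      rw [← h1]
      unfold cls
      congr 2
      exact Sym2.eq_swap
    · intro h
      rw [sideV_nbr hac C (show G.Adj y w from SimpleGraph.Adj.symm he)] at h
      refine ⟨fun _ => ?_, fun h2 => absurd (Sym2.mem_mk_right w y) h2⟩
      rw [← h]
      unfold cls
      congr 2
      exact Sym2.eq_swap
  · have hadj : G.Adj w y := he
    constructor
    · intro h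
      have hv : v ∉ s(w, y) := by
        rw [Sym2.mem_iff]; push Not; exact ⟨fun e => hwv e.symm, fun e => hy e.symm⟩
      exact h.2 hv w (Sym2.mem_mk_left w y)
    · intro h
      have hv : v ∉ s(w, y) := by
        rw [Sym2.mem_iff]; push Not; exact ⟨fun e => hwv e.symm, fun e => hy e.symm⟩
      refine ⟨fun h2 => absurd h2 hv, fun _ x hx => ?_⟩
      rcases Sym2.mem_iff.1 hx with rfl | rfl
      · exact h
      · exact (sideV_adj C hadj hwv hy).1 h

lemma sideE_rel (hac : G.IsAcyclic) {v : V} (C : Cls G F) {e e' : G.edgeSet}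
    (h : rel G F e e') : sideE v C e ↔ sideE v C e' := by
  obtain ⟨w, hw, hw'⟩ := h.1
  by_cases hwv : w = v
  · subst hwv
    have : (Quot.mk (rel G F) e : Cls G F) = Quot.mk _ e' := Quot.sound h
    constructor
    · intro h1
      exact ⟨fun _ => by rw [← this]; exact h1.1 hw, fun h2 => absurd hw' h2⟩
    · intro h1
      exact ⟨fun _ => by rw [this]; exact h1.1 hw', fun h2 => absurd hw h2⟩
  · rw [sideE_iff hac C hw hwv, sideE_iff hac C hw' hwv]

lemma sideE_cls (hac : G.IsAcyclic) {v : V} (C : Cls G F) {e e' : G.edgeSet}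
    (h : (Quot.mk (rel G F) e : Cls G F) = Quot.mk _ e') : sideE v C e ↔ sideE v C e' := by
  have hg := Quot.eqvGen_exact h
  clear h
  induction hg with
  | rel e e' h => exact sideE_rel hac C h
  | refl e => exact Iff.rfl
  | symm e e' _ ih => exact ih.symm
  | trans e e' e'' _ _ ih1 ih2 => exact ih1.trans ih2

lemma g1_acyclic (hF : ∀ a b, G.Adj a b → F a ≠ F b)
    (nohub : ∀ (v : V) (a : Fin 3 → V), (∀ i, G.Adj v (a i)) →
      (∀ i j, i ≠ j → F (a i) ≠ F (a j)) → False)
    (hac : G.IsAcyclic) : (G1 G F).IsAcyclic := by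
  rw [SimpleGraph.isAcyclic_iff_forall_adj_isBridge]
  intro C C' hadj
  rw [SimpleGraph.isBridge_iff]
  intro hreach
  obtain ⟨hne, v, hv, hv'⟩ := hadj
  let P : Cls G F → Prop := fun D => ∃ e, Quot.mk _ e = D ∧ sideE v C e
  have hPC : P C := by
    obtain ⟨e, he, hve⟩ := hv
    exact ⟨e, he, fun _ => he, fun h => absurd hve h⟩
  have hPC' : ¬ P C' := by
    rintro ⟨e, he, hs⟩
    obtain ⟨e', he', hve'⟩ := hv'
    have h1 := (sideE_cls hac C (he.trans he'.symm)).1 hs
    exact hne (((h1.1 hve').symm.trans he'))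
  have hinv : ∀ D D' : Cls G F, (G1 G F).Adj D D' → s(D, D') ≠ s(C, C') → (P D → P D') := by
    rintro D D' ⟨hDD, w, ⟨e, he, hw⟩, ⟨e', he', hw'⟩⟩ hed ⟨e2, he2, hs⟩
    have hs' : sideE v C e := (sideE_cls hac C (he2.trans he.symm)).1 hs
    refine ⟨e', he', ?_⟩
    by_cases hwv : w = v
    · subst hwv
      exfalso
      have m1 : mem w D := ⟨e, he, hw⟩
      have m2 : mem w D' := ⟨e', he', hw'⟩
      rcases two_classes nohub hv hv' m1 hne with h1 | h1 <;>
        rcases two_classes nohub hv hv' m2 hne with h2 | h2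
      · exact hDD (h1.trans h2.symm)
      · exact hed (by rw [h1, h2])
      · exact hed (by rw [h1, h2]; exact Sym2.eq_swap)
      · exact hDD (h1.trans h2.symm)
    · rw [sideE_iff hac C hw' hwv]
      exact (sideE_iff hac C hw hwv).1 hs'
  obtain ⟨w⟩ := hreach
  have gen : ∀ (D D' : Cls G F) (w : ((G1 G F).deleteEdges {s(C, C')}).Walk D D'),
      P D → P D' := by
    intro D D' w
    induction w with
    | nil => exact fun h => h
    | cons hadj p ih =>
      intro h
      rw [SimpleGraph.deleteEdges_adj] at hadj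
      exact ih (hinv _ _ hadj.1 hadj.2 h)
  exact hPC' (gen C C' w hPC)

end classes

/-- the combinatorial core: no odd sign if the first point visits every vertex of the tree -/
theorem comb_core (n : ℕ) : ∀ (V S : Type) [Finite V] (G : SimpleGraph V) (F : V → S)
    (s : V → V → Bool) (K : Set (V × V)), Nat.card V ≤ n → G.IsTree →
    (∀ a b, G.Adj a b → F a ≠ F b) → OddSign G F s → (∀ z ∈ K, F z.1 ≠ F z.2) →
    (∀ z ∈ K, ∀ z' ∈ K, Relation.ReflTransGen (Mv G K) z z') →
    (∀ v, ∃ y, (v, y) ∈ K) → False := by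
  induction n with
  | zero =>
    intro V S _ G F s K hc hG
    haveI := hG.isConnected.nonempty
    have : 0 < Nat.card V := Nat.card_pos
    omega
  | succ n ih =>
    intro V S _ G F s K hc hG hF hs hfar hconn hfull
    have nohub : ∀ (v : V) (a : Fin 3 → V), (∀ i, G.Adj v (a i)) →
      (∀ i j, i ≠ j → F (a i) ≠ F (a j)) → False :=
      fun v a h1 h2 => hub_false hG.isConnected hF hs v a h1 h2
    have hnb : ∀ v : V, ∃ w, G.Adj v w := by
      intro v
      obtain ⟨y, hy⟩ := hfull v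
      have hvy : v ≠ y := fun e => hfar _ hy (by rw [e])
      obtain ⟨w⟩ := hG.isConnected.preconnected v y
      cases w with
      | nil => exact absurd rfl hvy
      | cons h p => exact ⟨_, h⟩
    haveI : Finite (Cls G F) := Finite.of_surjective (Quot.mk (rel G F)) Quot.exists_rep
    refine ih (Cls G F) (Sym2 S) (G1 G F) F1 (s1 s) (K1 K) ?_ ?_ ?_ (oddSign1 hF hs) ?_ ?_ ?_
    · have := card_lt (F := F) hG
      omega
    · exact ⟨g1_connected hG.isConnected hnb, g1_acyclic hF nohub hG.IsAcyclic⟩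
    · intro C C' h
      exact F1_ne_of_adj h
    · intro z hz
      exact hz.1
    · intro z hz z' hz'
      exact k1_conn hnb hfar hconn z z' hz hz'
    · exact k1_full hnb hG.IsAcyclic hfar hconn hfull

section contract
variable {V S : Type}

open Classical in
/-- move `v` to `u` -/
noncomputable def cpi (u v : V) (h : u ≠ v) (x : V) : {x : V // x ≠ v} :=
  if hx : x = v then ⟨u, h⟩ else ⟨x, hx⟩

lemma cpi_self (u v : V) (h : u ≠ v) : cpi u v h v = ⟨u, h⟩ := by simp [cpi]

lemma cpi_ne (u v : V) (h : u ≠ v) (x : V) (hx : x ≠ v) : cpi u v h x = ⟨x, hx⟩ := by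
  simp [cpi, hx]

lemma cpi_val (u v : V) (h : u ≠ v) (x : {x : V // x ≠ v}) : cpi u v h x.1 = x := by
  rw [cpi_ne u v h x.1 x.2]

/-- contraction of the edge `uv` -/
def cgraph (G : SimpleGraph V) (u v : V) (h : u ≠ v) : SimpleGraph {x : V // x ≠ v} where
  Adj a b := a ≠ b ∧ ∃ a' b', G.Adj a' b' ∧ cpi u v h a' = a ∧ cpi u v h b' = b
  symm := ⟨fun _ _ h => ⟨h.1.symm, by
    obtain ⟨a', b', h1, h2, h3⟩ := h.2
    exact ⟨b', a', h1.symm, h3, h2⟩⟩⟩
  loopless := ⟨fun _ h => h.1 rfl⟩

lemma cgraph_step (G : SimpleGraph V) (u v : V) (h : u ≠ v) {a b : V} (hab : G.Adj a b) :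
    cpi u v h a = cpi u v h b ∨ (cgraph G u v h).Adj (cpi u v h a) (cpi u v h b) := by
  by_cases he : cpi u v h a = cpi u v h b
  · exact Or.inl he
  · exact Or.inr ⟨he, a, b, hab, rfl, rfl⟩

lemma cgraph_tree [Finite V] (G : SimpleGraph V) (hG : G.IsTree) (u v : V) (huv : G.Adj u v) :
    (cgraph G u v huv.ne).IsTree := by
  classical
  have hconn : (cgraph G u v huv.ne).Connected := by
    have hreach : ∀ a b : V, (cgraph G u v huv.ne).Reachable (cpi u v huv.ne a)
        (cpi u v huv.ne b) := by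
      intro a b
      obtain ⟨w⟩ := hG.connected.preconnected a b
      induction w with
      | nil => exact SimpleGraph.Reachable.refl _
      | cons hab _ ih =>
        refine SimpleGraph.Reachable.trans ?_ ih
        rcases cgraph_step G u v huv.ne hab with h | h
        · rw [h]
        · exact h.reachable
    have : Nonempty {x : V // x ≠ v} := ⟨⟨u, huv.ne⟩⟩
    refine ⟨fun a b => ?_⟩
    have := hreach a.1 b.1
    rwa [cpi_val, cpi_val] at this
  rw [SimpleGraph.isTree_iff_connected_and_card]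
  refine ⟨hconn, ?_⟩
  have h1 := hconn.card_vert_le_card_edgeSet_add_one
  have h2 := (SimpleGraph.isTree_iff_connected_and_card.1 hG).2
  have h3 : Nat.card {x : V // x ≠ v} + 1 = Nat.card V := by
    have := Fintype.ofFinite V
    rw [Nat.card_eq_fintype_card, Nat.card_eq_fintype_card, Fintype.card_subtype_compl]
    simp only [Fintype.card_unique]
    have : 0 < Fintype.card V := Fintype.card_pos_iff.2 ⟨v⟩
    omega
  have h4 : Nat.card (cgraph G u v huv.ne).edgeSet + 1 ≤ Nat.card G.edgeSet := by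
    have hsurj : (cgraph G u v huv.ne).edgeSet ⊆
        (Sym2.map (cpi u v huv.ne)) '' (G.edgeSet \ {s(u, v)}) := by
      intro e he
      induction e using Sym2.ind with
      | _ a b =>
        rw [SimpleGraph.mem_edgeSet] at he
        obtain ⟨hne, a', b', hab, rfl, rfl⟩ := he
        refine ⟨s(a', b'), ⟨hab, ?_⟩, rfl⟩
        intro hs
        rw [Set.mem_singleton_iff, Sym2.eq_iff] at hs
        apply hne
        rcases hs with ⟨rfl, rfl⟩ | ⟨rfl, rfl⟩
        · rw [cpi_self, cpi_ne _ _ _ _ huv.ne]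
        · rw [cpi_self, cpi_ne _ _ _ _ huv.ne]
    have hfin : (G.edgeSet).Finite := Set.toFinite _
    have e1 : (cgraph G u v huv.ne).edgeSet.ncard ≤ (G.edgeSet \ {s(u, v)}).ncard :=
      (Set.ncard_le_ncard hsurj (Set.toFinite _)).trans (Set.ncard_image_le (Set.toFinite _))
    have e2 : (G.edgeSet \ {s(u, v)}).ncard + 1 = G.edgeSet.ncard :=
      Set.ncard_diff_singleton_add_one huv hfin
    rw [Set.ncard_def, Set.ncard_def] at *
    have e3 : Nat.card (cgraph G u v huv.ne).edgeSet = (cgraph G u v huv.ne).edgeSet.ncard := rfl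
    have e4 : Nat.card G.edgeSet = G.edgeSet.ncard := rfl
    rw [e3, e4, Set.ncard_def, Set.ncard_def]
    omega
  omega

end contract

/-- adjacent vertices may have equal labels -/
theorem weak_core (n : ℕ) : ∀ (V S : Type) [Finite V] (G : SimpleGraph V) (F : V → S)
    (s : V → V → Bool) (K : Set (V × V)), Nat.card V ≤ n → G.IsTree →
    OddSign G F s → (∀ z ∈ K, F z.1 ≠ F z.2) →
    (∀ z ∈ K, ∀ z' ∈ K, Relation.ReflTransGen (Mv G K) z z') →
    (∀ v, ∃ y, (v, y) ∈ K) → False := by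
  induction n with
  | zero =>
    intro V S _ G F s K hc hG _ _ _ _
    have : Nonempty V := hG.connected.nonempty
    have : 0 < Nat.card V := Nat.card_pos
    omega
  | succ n ih =>
    intro V S _ G F s K hc hG hs hfar hconn hfull
    by_cases hprop : ∀ a b, G.Adj a b → F a ≠ F b
    · exact comb_core (n + 1) V S G F s K hc hG hprop hs hfar hconn hfull
    push Not at hprop
    obtain ⟨u, v, huv, hF⟩ := hprop
    set π := cpi u v huv.ne with hπ
    have Fπ : ∀ x, F (π x).1 = F x := by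
      intro x
      by_cases hx : x = v
      · rw [hx, hπ, cpi_self]; exact hF
      · rw [hπ, cpi_ne _ _ _ _ hx]
    have sπ1 : ∀ x y, F x ≠ F y → s (π x).1 y = s x y := by
      intro x y hxy
      by_cases hx : x = v
      · rw [hx, hπ, cpi_self]
        rw [hx] at hxy
        exact hs.move u v y huv (by rw [hF]; exact hxy) hxy
      · rw [hπ, cpi_ne _ _ _ _ hx]
    refine ih {x : V // x ≠ v} S (cgraph G u v huv.ne) (fun x => F x.1) (fun a b => s a.1 b.1)
      {p | ∃ z ∈ K, (π z.1, π z.2) = p} ?_ (cgraph_tree G hG u v huv) ?_ ?_ ?_ ?_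
    · have : Nat.card {x : V // x ≠ v} + 1 = Nat.card V := by
        classical
        have := Fintype.ofFinite V
        rw [Nat.card_eq_fintype_card, Nat.card_eq_fintype_card, Fintype.card_subtype_compl]
        simp only [Fintype.card_unique]
        have : 0 < Fintype.card V := Fintype.card_pos_iff.2 ⟨v⟩
        omega
      omega
    · refine ⟨fun a b hab => hs.odd a.1 b.1 hab, ?_⟩
      intro a a' b haa hab ha'b
      obtain ⟨_, x, x', hxx, hx, hx'⟩ := haa
      have e1 : F x = F a.1 := by rw [← Fπ x]; exact congrArg (fun t => F t.1) hx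
      have e2 : F x' = F a'.1 := by rw [← Fπ x']; exact congrArg (fun t => F t.1) hx'
      have f1 := sπ1 x b.1 (by rw [e1]; exact hab)
      have f2 := sπ1 x' b.1 (by rw [e2]; exact ha'b)
      have f3 := hs.move x x' b.1 hxx (by rw [e1]; exact hab) (by rw [e2]; exact ha'b)
      have g1 : π x = a := hx
      have g2 : π x' = a' := hx'
      rw [g1] at f1
      rw [g2] at f2
      show s a.1 b.1 = s a'.1 b.1
      rw [f1, f2, f3]
    · rintro p ⟨z, hz, rfl⟩
      show F (π z.1).1 ≠ F (π z.2).1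
      rw [Fπ, Fπ]
      exact hfar z hz
    · rintro p ⟨z, hz, rfl⟩ p' ⟨z', hz', rfl⟩
      have h := hconn z hz z' hz'
      clear hz'
      induction h with
      | refl => exact Relation.ReflTransGen.refl
      | @tail b c _ hc ih' =>
        refine ih'.trans ?_
        obtain ⟨hb, hcK, hst⟩ := hc
        rcases hst with ⟨h1, h2⟩ | ⟨h1, h2⟩
        · rw [← h2]
          rcases cgraph_step G u v huv.ne h1 with h | h
          · rw [show π c.1 = π b.1 from h.symm]
          · exact Relation.ReflTransGen.single ⟨⟨b, hb, rfl⟩, ⟨c, hcK, by rw [← h2]⟩,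
              Or.inl ⟨h, rfl⟩⟩
        · rw [← h1]
          rcases cgraph_step G u v huv.ne h2 with h | h
          · rw [show π c.2 = π b.2 from h.symm]
          · exact Relation.ReflTransGen.single ⟨⟨b, hb, rfl⟩, ⟨c, hcK, by rw [← h1]⟩,
              Or.inr ⟨rfl, h⟩⟩
    · intro a
      obtain ⟨y, hy⟩ := hfull a.1
      exact ⟨π y, (a.1, y), hy, by rw [hπ]; simp only [cpi_val]⟩

/-- Y compact Hausdorff with a continuous involution such that no component contains a point and its
image: there is a clopen set which contains exactly one point of every pair. -/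
theorem odd_clopen {Y : Type} [TopologicalSpace Y] [CompactSpace Y] [T2Space Y] (τ : Y → Y)
    (hτ : Continuous τ) (h2 : ∀ y, τ (τ y) = y) (h : ∀ y, τ y ∉ connectedComponent y) :
    ∃ W : Set Y, IsClopen W ∧ ∀ y, (y ∈ W ↔ τ y ∉ W) := by
  classical
  have hU : ∀ y : Y, ∃ U : Set Y, IsClopen U ∧ y ∈ U ∧ τ y ∉ U := by
    intro y
    have hy := h y
    rw [connectedComponent_eq_iInter_isClopen, Set.mem_iInter] at hy
    push Not at hy
    obtain ⟨⟨U, hU1, hU2⟩, hU3⟩ := hy
    exact ⟨U, hU1, hU2, hU3⟩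
  choose U hUc hyU hτU using hU
  let O : Y → Set Y := fun y => U y \ (τ ⁻¹' (U y))
  have hOc : ∀ y, IsClopen (O y) := fun y => (hUc y).diff ((hUc y).preimage hτ)
  have hyO : ∀ y, y ∈ O y := fun y => ⟨hyU y, hτU y⟩
  have hOd : ∀ y z, z ∈ O y → τ z ∉ O y := fun y z hz hτz => hz.2 hτz.1
  obtain ⟨t, _, ht⟩ := isCompact_univ.elim_nhds_subcover O
    (fun y _ => (hOc y).isOpen.mem_nhds (hyO y))
  have key : ∀ s : Finset Y, ∃ W : Set Y, IsClopen W ∧ (∀ y ∈ W, τ y ∉ W) ∧
      ∀ x ∈ s, ∀ y ∈ O x, y ∈ W ∨ τ y ∈ W := by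
    intro s
    induction s using Finset.induction_on with
    | empty =>
      exact ⟨∅, isClopen_empty, fun y hy => absurd hy (Set.notMem_empty y),
        fun x hx => absurd hx (Finset.notMem_empty x)⟩
    | insert a s _ ih =>
      obtain ⟨W, hWc, hW1, hW2⟩ := ih
      refine ⟨W ∪ (O a \ (W ∪ τ ⁻¹' W)),
        hWc.union ((hOc a).diff (hWc.union (hWc.preimage hτ))), ?_, ?_⟩
      · rintro y (hy | hy) (hτy | hτy)
        · exact hW1 y hy hτy
        · apply hτy.2
          right
          show τ (τ y) ∈ W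
          rw [h2]
          exact hy
        · exact hy.2 (Or.inr hτy)
        · exact hOd a y hy.1 hτy.1
      · intro x hx y hy
        rw [Finset.mem_insert] at hx
        rcases hx with rfl | hx
        · by_cases h1 : y ∈ W
          · exact Or.inl (Or.inl h1)
          · by_cases h3 : τ y ∈ W
            · exact Or.inr (Or.inl h3)
            · left
              right
              exact ⟨hy, fun h4 => h4.elim h1 h3⟩
        · rcases hW2 x hx y hy with h1 | h1
          · exact Or.inl (Or.inl h1)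
          · exact Or.inr (Or.inl h1)
  obtain ⟨W, hWc, hW1, hW2⟩ := key t
  refine ⟨W, hWc, fun y => ⟨hW1 y, fun hy => ?_⟩⟩
  have hy2 := ht (Set.mem_univ y)
  rw [Set.mem_iUnion₂] at hy2
  obtain ⟨x, hx, hyx⟩ := hy2
  exact (hW2 x hx y hyx).resolve_right hy

theorem edge_inv {X V : Type} [TopologicalSpace X] [Fintype V] [DecidableEq V]
    (T : SimpleGraph V) (hT : T.IsAcyclic) (g : X → V → ℝ) (hg : Continuous g)
    (hgeo : ∀ x, g x ∈ geo T) (A : Set X) (hA : IsPreconnected A) (a a' : V) (haa : T.Adj a a')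
    (xa xa' : X) (h1 : xa ∈ A) (h2 : xa' ∈ A) (e1 : g xa = Pi.single a 1)
    (e2 : g xa' = Pi.single a' 1) (P N : Set X) (hP : IsClosed P) (hN : IsClosed N)
    (hcov : ∀ x, (∀ v, g x v ≠ 0 → v = a ∨ v = a') → x ∈ P ∨ x ∈ N)
    (hdis : ∀ x, x ∈ P → x ∉ N) (hPa : ∀ x, g x = Pi.single a 1 → x ∈ P)
    (hNa : ∀ x, g x = Pi.single a' 1 → x ∈ N) : False := by
  classical
  obtain ⟨G', hG'⟩ : ∃ G' : SimpleGraph V, G' = T.deleteEdges {s(a, a')} := ⟨_, rfl⟩
  have hbr : ¬ G'.Reachable a a' := by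
    have := SimpleGraph.isAcyclic_iff_forall_adj_isBridge.mp hT haa
    rw [SimpleGraph.isBridge_iff] at this
    rw [hG']; exact this
  have hG'adj : ∀ p q, T.Adj p q → s(p, q) ≠ s(a, a') → G'.Adj p q := by
    intro p q hpq hne
    rw [hG', SimpleGraph.deleteEdges_adj]
    exact ⟨hpq, by simpa using hne⟩
  have hne : a ≠ a' := haa.ne
  have haS : ¬ G'.Reachable a' a := fun h => hbr h.symm
  have F2 : ∀ p q, T.Adj p q → G'.Reachable a' p → ¬ G'.Reachable a' q → p = a' ∧ q = a := by
    intro p q hpq hp hq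
    by_cases hs : s(p, q) = s(a, a')
    · rw [Sym2.eq_iff] at hs
      rcases hs with ⟨h3, h4⟩ | ⟨h3, h4⟩
      · exact absurd (h3 ▸ hp) haS
      · exact ⟨h3, h4⟩
    · exact absurd (hp.trans (hG'adj p q hpq hs).reachable) hq
  have F3 : ∀ w, w ≠ a → w ≠ a' → T.Adj w a → T.Adj w a' → False := by
    intro w hwa hwa' h3 h4
    apply hbr
    have h5 : G'.Adj w a := hG'adj w a h3 (by
      intro h; rw [Sym2.eq_iff] at h
      rcases h with ⟨h6, _⟩ | ⟨h6, _⟩
      · exact hwa h6
      · exact hwa' h6)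
    have h6 : G'.Adj w a' := hG'adj w a' h4 (by
      intro h; rw [Sym2.eq_iff] at h
      rcases h with ⟨h6, _⟩ | ⟨h6, _⟩
      · exact hwa h6
      · exact hwa' h6)
    exact h5.symm.reachable.trans h6.reachable
  obtain ⟨lam, hlam⟩ : ∃ lam : (V → ℝ) → ℝ, lam = fun y => ∑ v, if G'.Reachable a' v then y v else 0 :=
    ⟨_, rfl⟩
  have hlc : Continuous (fun x => lam (g x)) := by
    rw [hlam]
    apply continuous_finset_sum
    intro v _
    by_cases hv : G'.Reachable a' v
    · simp only [if_pos hv]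
      exact (continuous_apply v).comp hg
    · simp only [if_neg hv]
      exact continuous_const
  obtain ⟨C, hC⟩ : ∃ C : Set X, C = {x | ∀ v, g x v ≠ 0 → v = a ∨ v = a'} := ⟨_, rfl⟩
  have hCmem : ∀ x, x ∈ C ↔ ∀ v, g x v ≠ 0 → v = a ∨ v = a' := by intro x; rw [hC]; exact Iff.rfl
  have hCc : IsClosed C := by
    have h3 : C = ⋂ v, {x | g x v ≠ 0 → v = a ∨ v = a'} := by
      ext x; rw [hCmem, Set.mem_iInter]; exact Iff.rfl
    rw [h3]
    apply isClosed_iInter
    intro v
    by_cases hv : v = a ∨ v = a'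
    · have : {x | g x v ≠ 0 → v = a ∨ v = a'} = Set.univ := by
        ext x; simp [hv]
      rw [this]; exact isClosed_univ
    · have : {x | g x v ≠ 0 → v = a ∨ v = a'} = {x | g x v = 0} := by
        ext x
        simp only [Set.mem_setOf_eq]
        constructor
        · intro h; by_contra hx; exact hv (h hx)
        · intro h h4; exact absurd h h4
      rw [this]
      exact isClosed_eq ((continuous_apply v).comp hg) continuous_const
  have hCl : ∀ x ∈ C, lam (g x) = g x a' ∧ g x a + g x a' = 1 := by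
    intro x hx
    rw [hCmem] at hx
    have hz : ∀ v, v ≠ a ∧ v ≠ a' → g x v = 0 := by
      intro v hv
      by_contra hcon
      rcases hx v hcon with h | h
      · exact hv.1 h
      · exact hv.2 h
    constructor
    · rw [hlam]
      simp only
      rw [Fintype.sum_eq_add a a' hne]
      · rw [if_neg haS, if_pos (SimpleGraph.Reachable.refl a'), zero_add]
      · intro v hv
        rw [hz v hv, ite_self]
    · rw [← Fintype.sum_eq_add a a' hne hz]
      exact (hgeo x).2.1
  have hnC : ∀ x, x ∉ C → lam (g x) = 0 ∨ lam (g x) = 1 := by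
    intro x hx
    rw [hCmem] at hx
    push Not at hx
    obtain ⟨w, hw0, hwa, hwa'⟩ := hx
    obtain ⟨hpos, hsum, hcl⟩ := hgeo x
    by_cases hall : ∀ v, g x v ≠ 0 → G'.Reachable a' v
    · right
      rw [← hsum, hlam]
      apply Finset.sum_congr rfl
      intro v _
      by_cases hv : G'.Reachable a' v
      · rw [if_pos hv]
      · rw [if_neg hv]
        by_contra hcon
        exact hv (hall v (Ne.symm hcon))
    · push Not at hall
      obtain ⟨q, hq0, hq⟩ := hall
      left
      rw [hlam]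
      apply Finset.sum_eq_zero
      intro p _
      by_cases hp : G'.Reachable a' p
      · rw [if_pos hp]
        by_contra hp0
        have hpq : p ≠ q := by rintro rfl; exact hq hp
        have hadj : T.Adj p q := (hcl p q hp0 hq0).resolve_left hpq
        obtain ⟨rfl, rfl⟩ := F2 p q hadj hp hq
        exact F3 w hwa hwa' ((hcl w q hw0 hq0).resolve_left hwa) ((hcl w p hw0 hp0).resolve_left hwa')
      · rw [if_neg hp]
  have hP' : IsClosed ({x | lam (g x) = 0} ∪ (C ∩ P)) :=
    (isClosed_eq hlc continuous_const).union (hCc.inter hP)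
  have hN' : IsClosed ({x | lam (g x) = 1} ∪ (C ∩ N)) :=
    (isClosed_eq hlc continuous_const).union (hCc.inter hN)
  have hsingle : ∀ b, lam (Pi.single b 1) = if G'.Reachable a' b then 1 else 0 := by
    intro b
    rw [hlam]
    simp only
    rw [Finset.sum_eq_single b]
    · rw [Pi.single_eq_same]
    · intro v _ hv
      rw [Pi.single_eq_of_ne hv, ite_self]
    · intro h; exact absurd (Finset.mem_univ _) h
  obtain ⟨x, -, hx1, hx2⟩ := isPreconnected_closed_iff.mp hA _ _ hP' hN' (by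
    intro x _
    by_cases hx : x ∈ C
    · rcases hcov x ((hCmem x).mp hx) with h | h
      · left; right; exact ⟨hx, h⟩
      · right; right; exact ⟨hx, h⟩
    · rcases hnC x hx with h | h
      · left; left; exact h
      · right; left; exact h) ⟨xa, h1, Or.inl (by
        show lam (g xa) = 0
        rw [e1, hsingle, if_neg haS])⟩ ⟨xa', h2, Or.inl (by
        show lam (g xa') = 1
        rw [e2, hsingle, if_pos (SimpleGraph.Reachable.refl a')])⟩
  have hsup : ∀ x ∈ C, ∀ b c : V, g x b = 1 → g x c = 0 → (∀ v, v = a ∨ v = a' → v = b ∨ v = c) →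
      g x = Pi.single b 1 := by
    intro x hx b c hb hc hbc
    funext v
    by_cases hv : v = b
    · rw [hv, Pi.single_eq_same, hb]
    · rw [Pi.single_eq_of_ne hv]
      by_contra hv0
      rcases hbc v ((hCmem x).mp hx v hv0) with h | h
      · exact hv h
      · rw [h] at hv0; exact hv0 hc
  rcases hx1 with hx1 | hx1
  · have hx1' : lam (g x) = 0 := hx1
    rcases hx2 with hx2 | hx2
    · have hx2' : lam (g x) = 1 := hx2
      linarith
    · obtain ⟨h3, h4⟩ := hCl x hx2.1
      have h5 : g x a' = 0 := by linarith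
      have h6 : g x a = 1 := by linarith
      exact hdis x (hPa x (hsup x hx2.1 a a' h6 h5 (fun v hv => hv))) hx2.2
  · rcases hx2 with hx2 | hx2
    · have hx2' : lam (g x) = 1 := hx2
      obtain ⟨h3, h4⟩ := hCl x hx1.1
      have h5 : g x a' = 1 := by linarith
      have h6 : g x a = 0 := by linarith
      exact hdis x hx1.2 (hNa x (hsup x hx1.1 a' a h5 h6 (fun v hv => hv.symm)))
    · exact hdis x hx1.2 hx2.2

/-- from (D): an odd closed choice on a closed symmetric set missing the diagonal -/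
theorem odd_of_D {X : Type} [MetricSpace X] [CompactSpace X]
    (hD : ∀ (A B : X) (K : Set (X × X)), IsCompact K → IsConnected K → (A, B) ∈ K →
      (B, A) ∈ K → ∃ x : X, (x, x) ∈ K)
    (L : Set (X × X)) (hL : IsClosed L) (hsym : ∀ p ∈ L, p.swap ∈ L) (hdiag : ∀ x, (x, x) ∉ L) :
    ∃ Lp : Set (X × X), IsClosed Lp ∧ Lp ⊆ L ∧ ∀ p ∈ L, (p ∈ Lp ↔ p.swap ∉ Lp) := by
  have : CompactSpace L := isCompact_iff_compactSpace.mp hL.isCompact
  let τ : L → L := fun p => ⟨p.1.swap, hsym p.1 p.2⟩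
  have hτ : Continuous τ := by
    apply Continuous.subtype_mk
    exact continuous_swap.comp continuous_subtype_val
  have h2 : ∀ y, τ (τ y) = y := by
    intro y; apply Subtype.ext; simp [τ]
  have h : ∀ y, τ y ∉ connectedComponent y := by
    intro y hy
    have hK1 : IsCompact (Subtype.val '' (connectedComponent y) : Set (X × X)) :=
      (isClosed_connectedComponent.isCompact).image continuous_subtype_val
    have hK2 : IsConnected (Subtype.val '' (connectedComponent y) : Set (X × X)) :=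
      (isConnected_connectedComponent).image _ continuous_subtype_val.continuousOn
    obtain ⟨x, hx⟩ := hD y.1.1 y.1.2 _ hK1 hK2 ⟨y, mem_connectedComponent, rfl⟩ ⟨τ y, hy, rfl⟩
    obtain ⟨z, hz, hzx⟩ := hx
    exact hdiag x (hzx ▸ z.2)
  obtain ⟨W, hW, hWo⟩ := odd_clopen τ hτ h2 h
  refine ⟨Subtype.val '' W, ?_, ?_, ?_⟩
  · exact (hW.1.isCompact.image continuous_subtype_val).isClosed
  · rintro p ⟨z, hz, rfl⟩; exact z.2
  · intro p hp
    have key : ∀ y : L, (y.1 ∈ (Subtype.val '' W : Set (X × X)) ↔ y ∈ W) := by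
      intro y
      constructor
      · rintro ⟨z, hz, hzy⟩
        rwa [Subtype.ext hzy] at hz
      · exact fun h => ⟨y, h, rfl⟩
    have e1 := key ⟨p, hp⟩
    have e2 := key ⟨p.swap, hsym p hp⟩
    simp only at e1 e2
    rw [e1, e2]
    exact hWo ⟨p, hp⟩

lemma push_eq_zero {V W : Type} [Fintype V] (F : V → W) (x : V → ℝ) (hx : ∀ v, 0 ≤ x v) (w : W) :
    push F x w = 0 ↔ ∀ v, F v = w → x v = 0 := by
  classical
  unfold push
  rw [Finset.sum_eq_zero_iff_of_nonneg]
  · constructor
    · intro h v hv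
      have := h v (Finset.mem_univ v)
      simpa [hv] using this
    · intro h v _
      by_cases hv : F v = w
      · simp [hv, h v hv]
      · simp [hv]
  · intro v _
    split_ifs
    · exact hx v
    · exact le_refl _

lemma push_single {V W : Type} [Fintype V] [DecidableEq V] (F : V → W) (a : V) (w : W) :
    push F (Pi.single a 1) w = (open Classical in if F a = w then 1 else 0) := by
  classical
  unfold push
  rw [Finset.sum_eq_single a]
  · simp
  · intro b _ hb
    simp [hb]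
  · intro h; exact absurd (Finset.mem_univ a) h

lemma geo_single {V : Type} [Fintype V] [DecidableEq V] (G : SimpleGraph V) (x : V → ℝ)
    (hx : x ∈ geo G) (a : V) (h : ∀ v, x v ≠ 0 → v = a) : x = Pi.single a 1 := by
  have hs := hx.2.1
  rw [Finset.sum_eq_single a] at hs
  · ext v
    by_cases hv : v = a
    · subst hv; simp [hs]
    · have : x v = 0 := by by_contra h'; exact hv (h v h')
      simp [hv, this]
  · intro b _ hb
    by_contra h'; exact hb (h b h')
  · intro h; exact absurd (Finset.mem_univ a) h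

lemma geo_exists {V : Type} [Fintype V] (G : SimpleGraph V) (x : V → ℝ)
    (hx : x ∈ geo G) : ∃ v, x v ≠ 0 := by
  by_contra h
  push Not at h
  have hs := hx.2.1
  simp [h] at hs

lemma acyclic_tri {V : Type} {T : SimpleGraph V} (hT : T.IsAcyclic) (a b c : V)
    (h1 : T.Adj a b) (h2 : T.Adj b c) (h3 : T.Adj a c) : False := by
  classical
  have h := hT.cliqueFree (le_refl 3)
  exact h {a, b, c} (SimpleGraph.is3Clique_triple_iff.2 ⟨h1, h3, h2⟩)

theorem exact_span {X : Type} [MetricSpace X] [CompactSpace X]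
    (hD : ∀ (A B : X) (K : Set (X × X)), IsCompact K → IsConnected K → (A, B) ∈ K →
      (B, A) ∈ K → ∃ x : X, (x, x) ∈ K)
    (Z : Set (X × X)) (hZ : IsConnected Z)
    (hpr : Prod.snd '' Z ⊆ Prod.fst '' Z)
    {W : Type} [Fintype W] (q : X → W → ℝ) (hq : Continuous q)
    (hfar : ∀ z ∈ Z, ∀ w, q z.1 w = 0 ∨ q z.2 w = 0)
    (hfine : ∀ η : ℝ, 0 < η → ∃ (V : Type) (_ : Fintype V) (T : SimpleGraph V) (F : V → W)
      (g : X → V → ℝ), T.IsAcyclic ∧ Continuous g ∧
      (∀ x, g x ∈ geo T) ∧ (∀ x y, g x = g y → dist x y < η) ∧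
      ∀ x w, q x w = push F (g x) w) : False := by
  classical
  let L : Set (X × X) := {p | ∃ w, 1 ≤ |q p.1 w - q p.2 w|}
  have hLc : IsClosed L := by
    have e : L = ⋃ w, {p : X × X | 1 ≤ |q p.1 w - q p.2 w|} := by ext p; simp [L]
    rw [e]
    refine isClosed_iUnion_of_finite fun w => isClosed_le continuous_const ?_
    have h1 : Continuous fun p : X × X => q p.1 w :=
      (continuous_apply w).comp (hq.comp continuous_fst)
    have h2 : Continuous fun p : X × X => q p.2 w :=
      (continuous_apply w).comp (hq.comp continuous_snd)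
    exact (h1.sub h2).abs
  obtain ⟨Lp, hLp, hsub, hodd⟩ := odd_of_D hD L hLc
    (by rintro p ⟨w, hw⟩; exact ⟨w, by rw [abs_sub_comm]; exact hw⟩)
    (by rintro x ⟨w, hw⟩; simp at hw; linarith)
  -- separation
  have hdisj : Disjoint Lp (Prod.swap ⁻¹' Lp) := by
    rw [Set.disjoint_left]
    intro p hp hp'
    exact (hodd p (hsub hp)).1 hp hp'
  obtain ⟨η, hη, hsep⟩ := hdisj.exists_thickenings hLp.isCompact (hLp.preimage continuous_swap)
  have hsep' : ∀ p ∈ Lp, ∀ p' : X × X, p'.swap ∈ Lp → ¬ dist p' p < η := by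
    intro p hp p' hp' hd
    have h1 : p' ∈ Metric.thickening η Lp := Metric.mem_thickening_iff.2 ⟨p, hp, hd⟩
    have h2 : p' ∈ Metric.thickening η (Prod.swap ⁻¹' Lp) :=
      Metric.self_subset_thickening hη _ hp'
    exact Set.disjoint_left.1 hsep h1 h2
  obtain ⟨V, hV, T, F, g, hT, hg, hgeo, hgη, hqg⟩ := hfine η hη
  set A : Set X := Prod.fst '' Z with hAdef
  have hA : IsPreconnected A := (hZ.isPreconnected).image _ continuous_fst.continuousOn
  let V' : Set V := {v | ∃ x ∈ A, g x = Pi.single v 1}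
  have qpos : ∀ x v, g x v ≠ 0 → q x (F v) ≠ 0 := by
    intro x v hv h0
    rw [hqg, push_eq_zero _ _ (hgeo x).1] at h0
    exact hv (h0 v rfl)
  have far2 : ∀ z ∈ Z, ∀ a b, g z.1 a ≠ 0 → g z.2 b ≠ 0 → F a ≠ F b := by
    intro z hz a b ha hb hab
    rcases hfar z hz (F a) with h | h
    · exact qpos _ _ ha h
    · rw [hab] at h; exact qpos _ _ hb h
  have cont : ∀ v, Continuous fun x => g x v := fun v => (continuous_apply v).comp hg
  have opn : ∀ v, IsOpen {x : X | g x v ≠ 0} := fun v => isOpen_ne_fun (cont v) continuous_const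
  -- D2
  have D2 : ∀ x ∈ A, ∃ v ∈ V', g x v ≠ 0 := by
    intro x hx
    by_contra hcon
    push Not at hcon
    obtain ⟨u, hu⟩ := geo_exists T (g x) (hgeo x)
    have huV : u ∉ V' := fun h => hu (hcon u h)
    have : ∃ v, v ≠ u ∧ g x v ≠ 0 := by
      by_contra h
      push Not at h
      exact huV ⟨x, hx, geo_single T (g x) (hgeo x) u
        (fun v hv => by by_contra hne; exact hv (h v hne))⟩
    obtain ⟨v, hvu, hv⟩ := this
    have hvV : v ∉ V' := fun h => hv (hcon v h)
    have huv : T.Adj u v := ((hgeo x).2.2 u v hu hv).resolve_left hvu.symm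
    have key : ∀ y ∈ A, g y u ≠ 0 ∧ g y v ≠ 0 := by
      by_contra hex
      push Not at hex
      obtain ⟨y, hy, hyuv⟩ := hex
      have hO1 : IsOpen {y : X | g y u ≠ 0 ∧ g y v ≠ 0} := (opn u).inter (opn v)
      have hO2 : IsOpen {y : X | ∃ w, w ≠ u ∧ w ≠ v ∧ g y w ≠ 0} := by
        have e : {y : X | ∃ w, w ≠ u ∧ w ≠ v ∧ g y w ≠ 0} =
            ⋃ w : {w // w ≠ u ∧ w ≠ v}, {y : X | g y w.1 ≠ 0} := by
          ext y
          simp only [Set.mem_ofPred_eq, Set.mem_iUnion, Subtype.exists]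
          constructor
          · rintro ⟨w, h1, h2, h3⟩; exact ⟨w, ⟨h1, h2⟩, h3⟩
          · rintro ⟨w, ⟨h1, h2⟩, h3⟩; exact ⟨w, h1, h2, h3⟩
        rw [e]
        exact isOpen_iUnion fun w => opn w.1
      have cover : A ⊆ {y : X | g y u ≠ 0 ∧ g y v ≠ 0} ∪ {y : X | ∃ w, w ≠ u ∧ w ≠ v ∧ g y w ≠ 0} := by
        intro y hy
        by_cases h : ∃ w, w ≠ u ∧ w ≠ v ∧ g y w ≠ 0
        · exact Or.inr h
        · left
          push Not at h
          constructor
          · intro h0
            apply hvV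
            refine ⟨y, hy, geo_single T (g y) (hgeo y) v ?_⟩
            intro w hw
            by_contra hne
            by_cases hwu : w = u
            · rw [hwu] at hw; exact hw h0
            · exact hw (h w hwu hne)
          · intro h0
            apply huV
            refine ⟨y, hy, geo_single T (g y) (hgeo y) u ?_⟩
            intro w hw
            by_contra hne
            by_cases hwv : w = v
            · rw [hwv] at hw; exact hw h0
            · exact hw (h w hne hwv)
      have hyO2 : y ∈ {y : X | ∃ w, w ≠ u ∧ w ≠ v ∧ g y w ≠ 0} := by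
        rcases cover hy with h | h
        · exact absurd (hyuv h.1) h.2
        · exact h
      obtain ⟨t, htA, ht1, w, hwu, hwv, hw⟩ := hA _ _ hO1 hO2 cover ⟨x, hx, hu, hv⟩ ⟨y, hy, hyO2⟩
      have a1 : T.Adj u w := ((hgeo t).2.2 u w ht1.1 hw).resolve_left (Ne.symm hwu)
      have a2 : T.Adj v w := ((hgeo t).2.2 v w ht1.2 hw).resolve_left (Ne.symm hwv)
      exact acyclic_tri hT u v w huv a2 a1
    obtain ⟨z, hz, rfl⟩ := hx
    have hz2 : z.2 ∈ A := hpr ⟨z, hz, rfl⟩
    exact far2 z hz u u hu (key _ hz2).1 rfl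
  -- the relation
  let K : Set (V × V) := {p | p.1 ∈ V' ∧ p.2 ∈ V' ∧ ∃ z ∈ Z, g z.1 p.1 ≠ 0 ∧ g z.2 p.2 ≠ 0}
  have Kfar : ∀ p ∈ K, F p.1 ≠ F p.2 := by
    rintro p ⟨_, _, z, hz, h1, h2⟩
    exact far2 z hz _ _ h1 h2
  have Kcov : ∀ z ∈ Z, ∃ p ∈ K, g z.1 p.1 ≠ 0 ∧ g z.2 p.2 ≠ 0 := by
    intro z hz
    obtain ⟨a, ha, ha'⟩ := D2 z.1 ⟨z, hz, rfl⟩
    obtain ⟨b, hb, hb'⟩ := D2 z.2 (hpr ⟨z, hz, rfl⟩)
    exact ⟨(a, b), ⟨ha, hb, z, hz, ha', hb'⟩, ha', hb'⟩
  have Kopen : ∀ p : V × V, IsOpen {z : X × X | g z.1 p.1 ≠ 0 ∧ g z.2 p.2 ≠ 0} := by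
    intro p
    exact ((opn p.1).preimage continuous_fst).inter ((opn p.2).preimage continuous_snd)
  have Kconn : ∀ p ∈ K, ∀ p' ∈ K, Relation.ReflTransGen (Mv T K) p p' := by
    intro p hp p' hp'
    by_contra hno
    let K1 : Set (V × V) := {r | r ∈ K ∧ Relation.ReflTransGen (Mv T K) p r}
    let K2 : Set (V × V) := {r | r ∈ K ∧ ¬ Relation.ReflTransGen (Mv T K) p r}
    have hO : ∀ R : Set (V × V), IsOpen {z : X × X | ∃ r ∈ R, g z.1 r.1 ≠ 0 ∧ g z.2 r.2 ≠ 0} := by
      intro R
      have e : {z : X × X | ∃ r ∈ R, g z.1 r.1 ≠ 0 ∧ g z.2 r.2 ≠ 0} =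
          ⋃ r ∈ R, {z : X × X | g z.1 r.1 ≠ 0 ∧ g z.2 r.2 ≠ 0} := by
        ext z; simp only [Set.mem_iUnion, Set.mem_ofPred_eq, exists_prop]
      rw [e]
      exact isOpen_biUnion fun r _ => Kopen r
    have cover : Z ⊆ {z : X × X | ∃ r ∈ K1, g z.1 r.1 ≠ 0 ∧ g z.2 r.2 ≠ 0} ∪
        {z : X × X | ∃ r ∈ K2, g z.1 r.1 ≠ 0 ∧ g z.2 r.2 ≠ 0} := by
      intro z hz
      obtain ⟨r, hr, h⟩ := Kcov z hz
      by_cases hreach : Relation.ReflTransGen (Mv T K) p r
      · exact Or.inl ⟨r, ⟨hr, hreach⟩, h⟩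
      · exact Or.inr ⟨r, ⟨hr, hreach⟩, h⟩
    obtain ⟨z1, hz1, hp1⟩ := hp.2.2
    obtain ⟨z2, hz2, hp2⟩ := hp'.2.2
    obtain ⟨z, hz, ⟨r1, hr1, h11, h12⟩, ⟨r2, hr2, h21, h22⟩⟩ :=
      hZ.isPreconnected _ _ (hO K1) (hO K2) cover
        ⟨z1, hz1, p, ⟨hp, Relation.ReflTransGen.refl⟩, hp1⟩
        ⟨z2, hz2, p', ⟨hp', hno⟩, hp2⟩
    apply hr2.2
    have hmid : ((r2.1, r1.2) : V × V) ∈ K := ⟨hr2.1.1, hr1.1.2.1, z, hz, h21, h12⟩
    have st1 : Relation.ReflTransGen (Mv T K) r1 (r2.1, r1.2) := by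
      rcases (hgeo z.1).2.2 r1.1 r2.1 h11 h21 with h | h
      · rw [← h]
      · exact Relation.ReflTransGen.single ⟨hr1.1, hmid, Or.inl ⟨h, rfl⟩⟩
    have st2 : Relation.ReflTransGen (Mv T K) (r2.1, r1.2) r2 := by
      rcases (hgeo z.2).2.2 r1.2 r2.2 h12 h22 with h | h
      · rw [h]
      · exact Relation.ReflTransGen.single ⟨hmid, hr2.1, Or.inr ⟨rfl, h⟩⟩
    exact (hr1.2.trans st1).trans st2
  -- witnesses
  have wit : ∀ v : V', ∃ x ∈ A, g x = Pi.single v.1 1 := fun v => v.2
  choose xs hxA hxs using wit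
  have qs : ∀ x (a : V) (w : W), g x = Pi.single a 1 → q x w = if F a = w then 1 else 0 := by
    intro x a w h
    rw [hqg, h, push_single]
  have gle : ∀ x v, g x v ≤ 1 := by
    intro x v
    rw [← (hgeo x).2.1]
    exact Finset.single_le_sum (fun i _ => (hgeo x).1 i) (Finset.mem_univ v)
  -- the sign
  let s : V' → V' → Bool := fun a b => decide ((xs a, xs b) ∈ Lp)
  have inL : ∀ a b : V', F a.1 ≠ F b.1 → (xs a, xs b) ∈ L := by
    intro a b hab
    refine ⟨F a.1, ?_⟩
    have e1 := qs (xs a) a.1 (F a.1) (hxs a)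
    have e2 := qs (xs b) b.1 (F a.1) (hxs b)
    rw [if_pos rfl] at e1
    rw [if_neg (Ne.symm hab)] at e2
    simp [e1, e2]
  have main_move : ∀ a a' b : V', T.Adj a.1 a'.1 → F a.1 ≠ F b.1 → F a'.1 ≠ F b.1 →
      (xs a, xs b) ∈ Lp → (xs a', xs b) ∈ Lp := by
    intro a a' b haa hab ha'b hin
    by_contra hout
    have hb1 : ∀ x, (∀ v, g x v ≠ 0 → v = a.1 ∨ v = a'.1) → (x, xs b) ∈ L := by
      intro x hx
      refine ⟨F b.1, ?_⟩
      have e2 := qs (xs b) b.1 (F b.1) (hxs b)
      rw [if_pos rfl] at e2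
      have e1 : q x (F b.1) = 0 := by
        rw [hqg, push_eq_zero _ _ (hgeo x).1]
        intro v hv
        by_contra hne
        rcases hx v hne with h | h
        · rw [h] at hv; exact hab hv
        · rw [h] at hv; exact ha'b hv
      simp [e1, e2]
    have sing : ∀ (c : V') (x : X), g x = Pi.single c.1 1 → ∀ v, g x v ≠ 0 → v = c.1 := by
      intro c x hx v hv
      by_contra hne
      apply hv
      rw [hx]
      simp [hne]
    refine edge_inv T hT g hg hgeo A hA a.1 a'.1 haa (xs a) (xs a') (hxA a) (hxA a') (hxs a)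
      (hxs a') {x | (x, xs b) ∈ Lp} {x | (xs b, x) ∈ Lp}
      (hLp.preimage (by fun_prop)) (hLp.preimage (by fun_prop)) ?_ ?_ ?_ ?_
    · intro x hx
      by_cases h : (x, xs b) ∈ Lp
      · exact Or.inl h
      · right
        have := (hodd (x, xs b) (hb1 x hx))
        by_contra h'
        exact h (this.2 h')
    · intro x h1 h2
      exact (hodd (x, xs b) (hsub h1)).1 h1 h2
    · intro x hx
      by_contra h
      have hxL := hb1 x (fun v hv => Or.inl (sing a x hx v hv))
      have h' : ((x, xs b) : X × X).swap ∈ Lp := by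
        by_contra h''
        exact h ((hodd _ hxL).2 h'')
      apply hsep' (xs a, xs b) hin (x, xs b) h'
      rw [Prod.dist_eq]
      simp only [dist_self]
      have : dist x (xs a) < η := hgη _ _ (by rw [hx, hxs a])
      simp [this]
    · intro x hx
      by_contra h
      have hxL := hb1 x (fun v hv => Or.inr (sing a' x hx v hv))
      have h' : (x, xs b) ∈ Lp := (hodd _ hxL).2 h
      have h3 : ((xs a', xs b) : X × X).swap ∈ Lp := by
        by_contra h''
        exact hout ((hodd _ (inL a' b ha'b)).2 h'')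
      apply hsep' (x, xs b) h' (xs a', xs b) h3
      rw [Prod.dist_eq]
      simp only [dist_self]
      have : dist (xs a') x < η := hgη _ _ (by rw [hx, hxs a'])
      simp [this]
  -- the tree
  let T' : SimpleGraph V' := T.induce V'
  have hadj : ∀ a b : V', T'.Adj a b ↔ T.Adj a.1 b.1 := by
    intro a b; simp [T']
  let K' : Set (V' × V') := {p | (p.1.1, p.2.1) ∈ K}
  have Kconn' : ∀ z ∈ K', ∀ z' ∈ K', Relation.ReflTransGen (Mv T' K') z z' := by
    intro z hz z' hz'
    have gen : ∀ r : V × V, Relation.ReflTransGen (Mv T K) (z.1.1, z.2.1) r → ∀ (h1 : r.1 ∈ V')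
        (h2 : r.2 ∈ V'), Relation.ReflTransGen (Mv T' K') z (⟨r.1, h1⟩, ⟨r.2, h2⟩) := by
      intro r hr
      induction hr with
      | refl => intro h1 h2; exact Relation.ReflTransGen.refl
      | @tail b c hb hc ih =>
        intro h1 h2
        have ih' := ih hc.1.1 hc.1.2.1
        refine ih'.tail ?_
        refine ⟨hc.1, hc.2.1, ?_⟩
        rcases hc.2.2 with ⟨h, h'⟩ | ⟨h, h'⟩
        · exact Or.inl ⟨(hadj _ _).2 h, Subtype.ext h'⟩
        · exact Or.inr ⟨Subtype.ext h, (hadj _ _).2 h'⟩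
    exact gen _ (Kconn _ hz _ hz') z'.1.2 z'.2.2
  have full : ∀ v : V', ∃ y, (v, y) ∈ K' := by
    intro v
    obtain ⟨z, hz, hzx⟩ := hxA v
    obtain ⟨b, hb, hb'⟩ := D2 z.2 (hpr ⟨z, hz, rfl⟩)
    refine ⟨⟨b, hb⟩, v.2, hb, z, hz, ?_, hb'⟩
    rw [hzx, hxs v]
    simp
  have hne : Nonempty V' := by
    obtain ⟨z, hz⟩ := hZ.nonempty
    obtain ⟨a, ha, _⟩ := D2 z.1 ⟨z, hz, rfl⟩
    exact ⟨⟨a, ha⟩⟩
  have hreach : ∀ z z' : V' × V', Relation.ReflTransGen (Mv T' K') z z' →
      T'.Reachable z.1 z'.1 := by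
    intro z z' h
    induction h with
    | refl => exact SimpleGraph.Reachable.refl _
    | @tail b c _ hc ih =>
      rcases hc.2.2 with ⟨h, _⟩ | ⟨h, _⟩
      · exact ih.trans h.reachable
      · rw [← h]; exact ih
  have hT' : T'.IsTree := by
    refine ⟨⟨?_⟩, hT.induce _⟩
    intro a a'
    obtain ⟨b, hb⟩ := full a
    obtain ⟨b', hb'⟩ := full a'
    exact hreach (a, b) (a', b') (Kconn' _ hb _ hb')
  refine weak_core (Nat.card V') V' W T' (fun v => F v.1) s K' le_rfl hT' ?_ ?_ Kconn' full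
  · refine ⟨?_, ?_⟩
    · intro a b hab
      have h := hodd _ (inL a b hab)
      simp only [s, Prod.swap_prod_mk] at h ⊢
      by_cases h1 : (xs a, xs b) ∈ Lp
      · simp [h1, h.1 h1]
      · have h2 : (xs b, xs a) ∈ Lp := by
          by_contra h3; exact h1 (h.2 h3)
        simp [h1, h2]
    · intro a a' b haa hab ha'b
      have haa' := (hadj a a').1 haa
      simp only [s]
      by_cases h1 : (xs a, xs b) ∈ Lp
      · simp [h1, main_move a a' b haa' hab ha'b h1]
      · by_cases h2 : (xs a', xs b) ∈ Lp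
        · exact absurd (main_move a' a b haa'.symm ha'b hab h2) h1
        · simp [h1, h2]
  · intro z hz
    exact Kfar _ hz

theorem grid_acyclic_inv {X : Type} (H : SimpleGraph X) (Q : X → Prop)
    (h : ∀ a b, H.Adj a b → (Q a ↔ Q b)) {a b : X} (hr : H.Reachable a b) : Q a ↔ Q b := by
  obtain ⟨w⟩ := hr
  induction w with
  | nil => exact Iff.rfl
  | cons hab _ ih => exact (h _ _ hab).trans ih

theorem grid_acyclic_bridge {V : Type} (G : SimpleGraph V) (hG : G.IsAcyclic) {u v : V}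
    (h : G.Adj u v) : ¬ (G.deleteEdges {s(u, v)}).Reachable u v :=
  SimpleGraph.isBridge_iff.1 (SimpleGraph.isAcyclic_iff_forall_adj_isBridge.1 hG h)

theorem grid_acyclic_tri {V : Type} (G : SimpleGraph V) (hG : G.IsAcyclic) {u v w : V}
    (h : G.Adj u v) (h1 : G.Adj w u) (h2 : G.Adj w v) : False := by
  apply grid_acyclic_bridge G hG h
  have a1 : (G.deleteEdges {s(u, v)}).Adj u w := by
    rw [SimpleGraph.deleteEdges_adj]
    refine ⟨h1.symm, ?_⟩
    rw [Set.mem_singleton_iff, Sym2.eq_iff]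
    rintro (⟨-, h3⟩ | ⟨h3, -⟩)
    · exact h2.ne h3
    · exact h.ne h3
  have a2 : (G.deleteEdges {s(u, v)}).Adj w v := by
    rw [SimpleGraph.deleteEdges_adj]
    refine ⟨h2, ?_⟩
    rw [Set.mem_singleton_iff, Sym2.eq_iff]
    rintro (⟨h3, -⟩ | ⟨h3, -⟩)
    · exact h1.ne h3
    · exact h2.ne h3
  exact a1.reachable.trans a2.reachable

theorem grid_acyclic_struct (k : ℕ) {V : Type} [Fintype V] (G : SimpleGraph V) (hG : G.IsAcyclic)
    {γ γ' : Grid k G} (h : (gridGraph k G).Adj γ γ') :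
    ∃ u v, G.Adj u v ∧ γ'.1 u = γ.1 u + 1 ∧ γ.1 v = γ'.1 v + 1 ∧
      (∀ w, w ≠ u → w ≠ v → γ.1 w = 0 ∧ γ'.1 w = 0) ∧ γ.1 u + γ.1 v = k ∧
      γ'.1 u + γ'.1 v = k := by
  obtain ⟨hne, hd, hs⟩ := h
  have hsum : ∑ w, γ.1 w = ∑ w, γ'.1 w := by rw [γ.2.1, γ'.2.1]
  have hu : ∃ u, γ.1 u < γ'.1 u := by
    by_contra hcon
    push Not at hcon
    apply hne
    apply Subtype.ext
    funext w
    have := (Finset.sum_eq_sum_iff_of_le (fun i _ => hcon i)).1 hsum.symm w (Finset.mem_univ w)
    exact this.symm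
  have hv : ∃ v, γ'.1 v < γ.1 v := by
    by_contra hcon
    push Not at hcon
    apply hne
    apply Subtype.ext
    funext w
    exact (Finset.sum_eq_sum_iff_of_le (fun i _ => hcon i)).1 hsum w (Finset.mem_univ w)
  obtain ⟨u, hu⟩ := hu
  obtain ⟨v, hv⟩ := hv
  have huv : u ≠ v := by
    rintro rfl
    omega
  have hadj : G.Adj u v := by
    rcases hs u v (Or.inr (by omega)) (Or.inl (by omega)) with h | h
    · exact absurd h huv
    · exact h
  have hz : ∀ w, w ≠ u → w ≠ v → γ.1 w = 0 ∧ γ'.1 w = 0 := by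
    intro w hwu hwv
    by_contra hcon
    have hw : γ.1 w ≠ 0 ∨ γ'.1 w ≠ 0 := by
      by_contra h2
      push Not at h2
      exact hcon h2
    have h1 : G.Adj w u := by
      rcases hs w u hw (Or.inr (by omega)) with h | h
      · exact absurd h hwu
      · exact h
    have h2 : G.Adj w v := by
      rcases hs w v hw (Or.inl (by omega)) with h | h
      · exact absurd h hwv
      · exact h
    exact grid_acyclic_tri G hG hadj h1 h2
  refine ⟨u, v, hadj, ?_, ?_, hz, ?_, ?_⟩
  · have := (hd u).2; omega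
  · have := (hd v).1; omega
  · exact (Fintype.sum_eq_add u v huv (fun x hx => (hz x hx.1 hx.2).1)).symm.trans γ.2.1
  · exact (Fintype.sum_eq_add u v huv (fun x hx => (hz x hx.1 hx.2).2)).symm.trans γ'.2.1

open Classical in
/-- mass on one side -/
noncomputable def grid_acyclic_Lam {V : Type} [Fintype V] (S : Set V) (ζ : V → ℕ) : ℕ :=
  ∑ w, if w ∈ S then ζ w else 0

open Classical in
theorem grid_acyclic_lam {V : Type} [Fintype V] (S : Set V) (ζ : V → ℕ) (p q : V) (hpq : p ≠ q)
    (hz : ∀ w, w ≠ p → w ≠ q → ζ w = 0) :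
    grid_acyclic_Lam S ζ = (if p ∈ S then ζ p else 0) + (if q ∈ S then ζ q else 0) := by
  refine Fintype.sum_eq_add p q hpq (fun x hx => ?_)
  rw [hz x hx.1 hx.2]
  simp

theorem grid_acyclic (k : ℕ) {V : Type} [Fintype V] (G : SimpleGraph V) (hG : G.IsAcyclic) :
    (gridGraph k G).IsAcyclic := by
  classical
  rw [SimpleGraph.isAcyclic_iff_forall_adj_isBridge]
  intro γ γ' hadj
  rw [SimpleGraph.isBridge_iff]
  intro hreach
  obtain ⟨u, v, huv, hu, hv, hz, hk1, hk2⟩ := grid_acyclic_struct k G hG hadj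
  have hbr := grid_acyclic_bridge G hG huv
  set S : Set V := {w | (G.deleteEdges {s(u, v)}).Reachable u w} with hS
  have huS : u ∈ S := SimpleGraph.Reachable.refl u
  have hvS : v ∉ S := hbr
  have hside : ∀ p q, G.Adj p q → s(p, q) ≠ s(u, v) → (p ∈ S ↔ q ∈ S) := by
    intro p q hpq hne
    have had : (G.deleteEdges {s(u, v)}).Adj p q := by
      rw [SimpleGraph.deleteEdges_adj]
      exact ⟨hpq, hne⟩
    constructor
    · intro hp
      exact SimpleGraph.Reachable.trans hp had.reachable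
    · intro hq
      exact SimpleGraph.Reachable.trans hq had.symm.reachable
  let Lam : Grid k G → ℕ := fun ζ => grid_acyclic_Lam S ζ.1
  have key : ∀ ζ ζ' : Grid k G, (gridGraph k G).Adj ζ ζ' → γ'.1 u ≤ Lam ζ → Lam ζ' < γ'.1 u →
      ζ = γ' ∧ ζ' = γ := by
    intro ζ ζ' h hQ hQ'
    obtain ⟨p, q, hpq, hp, hq, hzz, hkk1, hkk2⟩ := grid_acyclic_struct k G hG h
    have l1 := grid_acyclic_lam S ζ.1 p q hpq.ne (fun w h1 h2 => (hzz w h1 h2).1)
    have l2 := grid_acyclic_lam S ζ'.1 p q hpq.ne (fun w h1 h2 => (hzz w h1 h2).2)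
    have e1 := l1
    have e2 := l2
    have g1 : Lam ζ = grid_acyclic_Lam S ζ.1 := rfl
    have g2 : Lam ζ' = grid_acyclic_Lam S ζ'.1 := rfl
    rw [← g1] at e1
    rw [← g2] at e2
    clear l1 l2 g1 g2
    have hsame : ¬ (p ∈ S ↔ q ∈ S) := by
      intro hiff
      by_cases hpS : p ∈ S
      · have hqS := hiff.1 hpS
        rw [if_pos hpS, if_pos hqS] at e1 e2
        omega
      · have hqS : q ∉ S := fun h => hpS (hiff.2 h)
        rw [if_neg hpS, if_neg hqS] at e1 e2
        omega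
    have hedge : s(p, q) = s(u, v) := by
      by_contra hne
      exact hsame (hside p q hpq hne)
    have fin : ζ.1 u = γ'.1 u → ζ.1 v = γ'.1 v → ζ'.1 u = γ.1 u → ζ'.1 v = γ.1 v →
        (∀ w, w ≠ u → w ≠ v → ζ.1 w = 0 ∧ ζ'.1 w = 0) → ζ = γ' ∧ ζ' = γ := by
      intro h1 h2 h3 h4 h5
      constructor
      · apply Subtype.ext
        funext w
        by_cases hwu : w = u
        · rw [hwu]; exact h1
        · by_cases hwv : w = v
          · rw [hwv]; exact h2
          · rw [(h5 w hwu hwv).1, (hz w hwu hwv).2]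
      · apply Subtype.ext
        funext w
        by_cases hwu : w = u
        · rw [hwu]; exact h3
        · by_cases hwv : w = v
          · rw [hwv]; exact h4
          · rw [(h5 w hwu hwv).2, (hz w hwu hwv).1]
    rcases Sym2.eq_iff.1 hedge with ⟨rfl, rfl⟩ | ⟨rfl, rfl⟩
    · rw [if_pos huS, if_neg hvS] at e1 e2
      omega
    · rw [if_neg hvS, if_pos huS] at e1 e2
      apply fin
      · omega
      · omega
      · omega
      · omega
      · intro w h1 h2; exact hzz w h2 h1
  have hinv := grid_acyclic_inv ((gridGraph k G).deleteEdges {s(γ, γ')})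
    (fun ζ => γ'.1 u ≤ Lam ζ) (by
      intro ζ ζ' had
      rw [SimpleGraph.deleteEdges_adj, Set.mem_singleton_iff, Sym2.eq_iff] at had
      obtain ⟨h1, h2⟩ := had
      constructor
      · intro hQ
        by_contra hQ'
        push Not at hQ'
        obtain ⟨e1, e2⟩ := key ζ ζ' h1 hQ hQ'
        exact h2 (Or.inr ⟨e1, e2⟩)
      · intro hQ
        by_contra hQ'
        push Not at hQ'
        obtain ⟨e1, e2⟩ := key ζ' ζ h1.symm hQ hQ'
        exact h2 (Or.inl ⟨e2, e1⟩)) hreach
  have l1 := grid_acyclic_lam S γ.1 u v huv.ne (fun w h1 h2 => (hz w h1 h2).1)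
  have l2 := grid_acyclic_lam S γ'.1 u v huv.ne (fun w h1 h2 => (hz w h1 h2).2)
  rw [if_pos huS, if_neg hvS] at l1 l2
  have e1 : Lam γ = γ.1 u + 0 := l1
  have e2 : Lam γ' = γ'.1 u + 0 := l2
  have h9 := hinv.2 (by show γ'.1 u ≤ Lam γ'; omega)
  have h10 : γ'.1 u ≤ Lam γ := h9
  omega

open Classical in
/-- lattice point supported on an edge -/
noncomputable def gpt {V : Type} (u v : V) (i j : ℕ) : V → ℕ :=
  fun w => if w = u then i else if w = v then j else 0

theorem gpt_u {V : Type} (u v : V) (i j : ℕ) : gpt u v i j u = i := by simp [gpt]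

theorem gpt_v {V : Type} (u v : V) (h : u ≠ v) (i j : ℕ) : gpt u v i j v = j := by
  simp [gpt, h.symm]

theorem gpt_w {V : Type} (u v w : V) (h1 : w ≠ u) (h2 : w ≠ v) (i j : ℕ) :
    gpt u v i j w = 0 := by
  simp [gpt, h1, h2]

theorem gpt_supp {V : Type} (u v : V) (i j : ℕ) (w : V) (h : gpt u v i j w ≠ 0) :
    w = u ∨ w = v := by
  by_contra hc
  push Not at hc
  exact h (gpt_w u v w hc.1 hc.2 i j)

theorem gpt_sum {V : Type} [Fintype V] (u v : V) (h : u ≠ v) (i j : ℕ) :
    ∑ w, gpt u v i j w = i + j := by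
  classical
  rw [Finset.sum_eq_add u v h]
  · rw [gpt_u, gpt_v u v h]
  · intro w _ hw
    exact gpt_w u v w hw.1 hw.2 i j
  · intro h0; exact absurd (Finset.mem_univ _) h0
  · intro h0; exact absurd (Finset.mem_univ _) h0

/-- the grid point -/
noncomputable def ggrid {V : Type} [Fintype V] (G : SimpleGraph V) (k : ℕ) (u v : V)
    (h : G.Adj u v) (i j : ℕ) (hij : i + j = k) : Grid k G :=
  ⟨gpt u v i j, by rw [gpt_sum u v h.ne, hij], by
    intro a b ha hb
    rcases gpt_supp u v i j a ha with rfl | rfl <;> rcases gpt_supp _ _ i j b hb with rfl | rfl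
    · exact Or.inl rfl
    · exact Or.inr h
    · exact Or.inr h.symm
    · exact Or.inl rfl⟩

theorem grid_round (k : ℕ) {V : Type} [Fintype V] (G : SimpleGraph V)
    (htri : ∀ a b c, G.Adj a b → G.Adj b c → G.Adj a c → False) (x : V → ℝ) (hx : x ∈ geo G) :
    ∃ (γ γ' : Grid k G) (t : ℝ), 0 ≤ t ∧ t ≤ 1 ∧ (γ = γ' ∨ (gridGraph k G).Adj γ γ') ∧
      ∀ v, (k : ℝ) * x v = (1 - t) * (γ.1 v : ℝ) + t * (γ'.1 v : ℝ) := by
  classical
  obtain ⟨hx0, hx1, hx2⟩ := hx
  have hu : ∃ u, x u ≠ 0 := by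
    by_contra hc
    push Not at hc
    simp [hc] at hx1
  obtain ⟨u, hu⟩ := hu
  by_cases hA : ∀ v, v ≠ u → x v = 0
  · have hxu : x u = 1 := by
      rw [← hx1]
      rw [Finset.sum_eq_single u]
      · intro b _ hb
        exact hA b hb
      · intro h0; exact absurd (Finset.mem_univ _) h0
    refine ⟨⟨fun w => if w = u then k else 0, by simp, ?_⟩, ⟨fun w => if w = u then k else 0, by simp, ?_⟩,
      0, le_refl _, zero_le_one, Or.inl rfl, ?_⟩
    · intro a b ha hb
      left
      by_contra hab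
      by_cases h1 : a = u
      · by_cases h2 : b = u
        · exact hab (h1.trans h2.symm)
        · simp [h2] at hb
      · simp [h1] at ha
    · intro a b ha hb
      left
      by_contra hab
      by_cases h1 : a = u
      · by_cases h2 : b = u
        · exact hab (h1.trans h2.symm)
        · simp [h2] at hb
      · simp [h1] at ha
    · intro v
      by_cases hv : v = u
      · simp [hv, hxu]
      · simp [hv, hA v hv]
  · push Not at hA
    obtain ⟨v, hvu, hv⟩ := hA
    have hadj : G.Adj u v := by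
      rcases hx2 u v hu hv with h | h
      · exact absurd h.symm hvu
      · exact h
    have hw : ∀ w, w ≠ u → w ≠ v → x w = 0 := by
      intro w h1 h2
      by_contra hw0
      have e1 : G.Adj u w := (hx2 u w hu hw0).resolve_left (fun h => h1 h.symm)
      have e2 : G.Adj v w := (hx2 v w hv hw0).resolve_left (fun h => h2 h.symm)
      exact htri u v w hadj e2 e1
    have hsum : x u + x v = 1 := by
      rw [← hx1, Finset.sum_eq_add u v hadj.ne]
      · intro w _ hw'
        exact hw w hw'.1 hw'.2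
      · intro h0; exact absurd (Finset.mem_univ _) h0
      · intro h0; exact absurd (Finset.mem_univ _) h0
    have hxu0 : 0 ≤ x u := hx0 u
    have hxu1 : x u ≤ 1 := by linarith [hx0 v]
    have hk0 : (0:ℝ) ≤ k := Nat.cast_nonneg k
    have hkx : 0 ≤ (k : ℝ) * x u := mul_nonneg hk0 hxu0
    have hkx1 : (k : ℝ) * x u ≤ k := by nlinarith
    obtain ⟨i, hi⟩ : ∃ i, i = ⌊(k : ℝ) * x u⌋₊ := ⟨_, rfl⟩
    have hile : (i : ℝ) ≤ (k : ℝ) * x u := by rw [hi]; exact Nat.floor_le hkx
    have hilt : (k : ℝ) * x u < i + 1 := by rw [hi]; exact Nat.lt_floor_add_one _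
    have hik : i ≤ k := by
      have : (i : ℝ) ≤ k := hile.trans hkx1
      exact_mod_cast this
    have hkv : (k : ℝ) * x v = k - k * x u := by
      have : x v = 1 - x u := by linarith
      rw [this]; ring
    by_cases ht : (k : ℝ) * x u = i
    · refine ⟨ggrid G k u v hadj i (k - i) (by omega), ggrid G k u v hadj i (k - i) (by omega),
        0, le_refl _, zero_le_one, Or.inl rfl, ?_⟩
      intro w
      simp only [ggrid]
      by_cases h1 : w = u
      · subst h1
        rw [gpt_u, ht]; ring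
      · by_cases h2 : w = v
        · subst h2
          rw [gpt_v u w hadj.ne, hkv, ht, Nat.cast_sub hik]; ring
        · rw [gpt_w u v w h1 h2, hw w h1 h2]; simp
    · have hlt : (i : ℝ) < (k : ℝ) * x u := lt_of_le_of_ne hile (Ne.symm ht)
      have hik1 : i + 1 ≤ k := by
        have : (i : ℝ) < k := hlt.trans_le hkx1
        have h2 : i < k := by exact_mod_cast this
        omega
      refine ⟨ggrid G k u v hadj i (k - i) (by omega),
        ggrid G k u v hadj (i + 1) (k - (i + 1)) (by omega),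
        (k : ℝ) * x u - i, by linarith, by linarith, Or.inr ⟨?_, ?_, ?_⟩, ?_⟩
      · intro heq
        have h3 := congrArg (fun γ : Grid k G => γ.1 u) heq
        simp only [ggrid, gpt_u] at h3
        omega
      · intro w
        simp only [ggrid]
        by_cases h1 : w = u
        · subst h1
          rw [gpt_u, gpt_u]; omega
        · by_cases h2 : w = v
          · subst h2
            rw [gpt_v u w hadj.ne, gpt_v u w hadj.ne]; omega
          · rw [gpt_w u v w h1 h2, gpt_w u v w h1 h2]; omega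
      · intro a b ha hb
        simp only [ggrid] at ha hb
        have ha' : a = u ∨ a = v := by
          rcases ha with ha | ha
          · exact gpt_supp u v _ _ a ha
          · exact gpt_supp u v _ _ a ha
        have hb' : b = u ∨ b = v := by
          rcases hb with hb | hb
          · exact gpt_supp u v _ _ b hb
          · exact gpt_supp u v _ _ b hb
        rcases ha' with rfl | rfl <;> rcases hb' with rfl | rfl
        · exact Or.inl rfl
        · exact Or.inr hadj
        · exact Or.inr hadj.symm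
        · exact Or.inl rfl
      · intro w
        simp only [ggrid]
        by_cases h1 : w = u
        · subst h1
          rw [gpt_u, gpt_u]; push_cast; ring
        · by_cases h2 : w = v
          · subst h2
            rw [gpt_v u w hadj.ne, gpt_v u w hadj.ne, hkv, Nat.cast_sub hik, Nat.cast_sub hik1]
            push_cast
            ring
          · rw [gpt_w u v w h1 h2, gpt_w u v w h1 h2, hw w h1 h2]; simp

theorem hat_zero_of (k : ℕ) {V : Type} [Fintype V] (G : SimpleGraph V) (x : V → ℝ)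
    (ζ : Grid k G) (w : V) (h : 1 ≤ |(k : ℝ) * x w - (ζ.1 w : ℝ)|) : hat k G x ζ = 0 := by
  have h1 := norm_le_pi_norm (fun v => (k : ℝ) * x v - (ζ.1 v : ℝ)) w
  rw [Real.norm_eq_abs] at h1
  unfold hat
  exact max_eq_left (by linarith)

theorem hat_eq_of (k : ℕ) {V : Type} [Fintype V] (G : SimpleGraph V) (x : V → ℝ)
    (ζ : Grid k G) (r : ℝ) (h0 : 0 ≤ r) (h1 : r ≤ 1)
    (hle : ∀ w, |(k : ℝ) * x w - (ζ.1 w : ℝ)| ≤ r)
    (w : V) (h : |(k : ℝ) * x w - (ζ.1 w : ℝ)| = r) : hat k G x ζ = 1 - r := by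
  have h2 := norm_le_pi_norm (fun v => (k : ℝ) * x v - (ζ.1 v : ℝ)) w
  rw [Real.norm_eq_abs, h] at h2
  have h3 : ‖fun v => (k : ℝ) * x v - (ζ.1 v : ℝ)‖ ≤ r := by
    rw [pi_norm_le_iff_of_nonneg h0]
    intro w'
    rw [Real.norm_eq_abs]
    exact hle w'
  have h4 : ‖fun v => (k : ℝ) * x v - (ζ.1 v : ℝ)‖ = r := le_antisymm h3 h2
  unfold hat
  rw [h4]
  exact max_eq_right (by linarith)

theorem one_le_abs_natdiff (a b : ℕ) (h : a ≠ b) : (1 : ℝ) ≤ |(a : ℝ) - (b : ℝ)| := by
  rcases Nat.lt_or_gt_of_ne h with h | h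
  · have : (a : ℝ) + 1 ≤ b := by exact_mod_cast h
    rw [abs_of_nonpos (by linarith)]
    linarith
  · have : (b : ℝ) + 1 ≤ a := by exact_mod_cast h
    rw [abs_of_nonneg (by linarith)]
    linarith

theorem exists_lt_of_sum_eq {V : Type} [Fintype V] (f g : V → ℕ) (h : ∑ v, f v = ∑ v, g v)
    (hne : f ≠ g) : ∃ u, f u < g u := by
  by_contra hcon
  push Not at hcon
  apply hne
  have := (Finset.sum_eq_sum_iff_of_le (s := Finset.univ) (f := g) (g := f)
    (fun i _ => hcon i)).mp h.symm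
  funext v
  exact (this v (Finset.mem_univ v)).symm

open Classical in
theorem hat_eq (k : ℕ) {V : Type} [Fintype V] (G : SimpleGraph V)
    (htri : ∀ a b c, G.Adj a b → G.Adj b c → G.Adj a c → False) (γ γ' : Grid k G) (t : ℝ)
    (h0 : 0 ≤ t) (h1 : t ≤ 1) (hγ : γ = γ' ∨ (gridGraph k G).Adj γ γ') (x : V → ℝ)
    (hx : ∀ v, (k : ℝ) * x v = (1 - t) * (γ.1 v : ℝ) + t * (γ'.1 v : ℝ)) (ζ : Grid k G) :
    hat k G x ζ = (if ζ = γ then 1 - t else 0) + (if ζ = γ' then t else 0) := by
  rcases hγ with hγ | hadj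
  · subst hγ
    have hx' : ∀ v, (k : ℝ) * x v = (γ.1 v : ℝ) := fun v => by rw [hx v]; ring
    by_cases hz : ζ = γ
    · subst hz
      simp only [if_true]
      have : hat k G x ζ = 1 := by
        have hf : (fun v => (k : ℝ) * x v - (ζ.1 v : ℝ)) = 0 := by
          funext v
          rw [hx' v]; simp
        unfold hat
        rw [hf]; simp
      rw [this]; ring
    · rw [if_neg hz, if_neg hz]
      have hne : ζ.1 ≠ γ.1 := fun h => hz (Subtype.ext h)
      obtain ⟨w, hw⟩ := Function.ne_iff.mp hne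
      rw [hat_zero_of k G x ζ w]
      · ring
      · rw [hx' w]
        exact one_le_abs_natdiff _ _ (Ne.symm hw)
  · obtain ⟨hne, hd, hcl⟩ := hadj
    have hne' : γ.1 ≠ γ'.1 := fun h => hne (Subtype.ext h)
    have hsum : ∑ v, γ.1 v = ∑ v, γ'.1 v := by rw [γ.2.1, γ'.2.1]
    obtain ⟨u, hu⟩ := exists_lt_of_sum_eq γ.1 γ'.1 hsum hne'
    obtain ⟨v, hv⟩ := exists_lt_of_sum_eq γ'.1 γ.1 hsum.symm (Ne.symm hne')
    have hu' : γ'.1 u = γ.1 u + 1 := by have := (hd u).2; omega
    have hv' : γ.1 v = γ'.1 v + 1 := by have := (hd v).1; omega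
    have huv : u ≠ v := by rintro rfl; omega
    have hzero : ∀ w, w ≠ u ∧ w ≠ v → γ.1 w = 0 ∧ γ'.1 w = 0 := by
      intro w hw
      by_contra hcon
      have hw' : γ.1 w ≠ 0 ∨ γ'.1 w ≠ 0 := by
        by_contra h
        push Not at h
        exact hcon h
      have a1 := (hcl u v (Or.inr (by omega)) (Or.inl (by omega))).resolve_left huv
      have a2 := (hcl v w (Or.inl (by omega)) hw').resolve_left (Ne.symm hw.2)
      have a3 := (hcl u w (Or.inr (by omega)) hw').resolve_left (Ne.symm hw.1)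
      exact htri u v w a1 a2 a3
    have hxu : (k : ℝ) * x u = (γ.1 u : ℝ) + t := by
      rw [hx u, hu']; push_cast; ring
    have hxv : (k : ℝ) * x v = (γ.1 v : ℝ) - t := by
      rw [hx v, hv']; push_cast; ring
    have hxw : ∀ w, w ≠ u ∧ w ≠ v → (k : ℝ) * x w = 0 := by
      intro w hw
      obtain ⟨h1, h2⟩ := hzero w hw
      rw [hx w, h1, h2]; simp
    have hγsum : γ.1 u + γ.1 v = k := by
      have h2 : ∑ v, γ.1 v = k := γ.2.1
      exact (Fintype.sum_eq_add u v huv (fun w hw => (hzero w hw).1)).symm.trans h2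
    by_cases hz : ζ = γ
    · subst hz
      rw [if_pos rfl, if_neg hne]
      rw [hat_eq_of k G x ζ t h0 h1 ?_ u ?_]
      · ring
      · intro w
        by_cases h1' : w = u
        · subst h1'
          rw [hxu]
          rw [add_sub_cancel_left, abs_of_nonneg h0]
        · by_cases h2' : w = v
          · subst h2'
            rw [hxv]
            rw [show (ζ.1 w : ℝ) - t - (ζ.1 w : ℝ) = -t by ring, abs_neg, abs_of_nonneg h0]
          · rw [hxw w ⟨h1', h2'⟩, (hzero w ⟨h1', h2'⟩).1]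
            simpa using h0
      · rw [hxu, add_sub_cancel_left, abs_of_nonneg h0]
    · by_cases hz' : ζ = γ'
      · subst hz'
        rw [if_neg hz, if_pos rfl]
        rw [hat_eq_of k G x ζ (1 - t) (by linarith) (by linarith) ?_ u ?_]
        · ring
        · intro w
          by_cases h1' : w = u
          · subst h1'
            rw [hxu, hu']
            push_cast
            rw [show (γ.1 w : ℝ) + t - ((γ.1 w : ℝ) + 1) = -(1 - t) by ring, abs_neg,
              abs_of_nonneg (by linarith)]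
          · by_cases h2' : w = v
            · subst h2'
              rw [hxv, hv']
              push_cast
              rw [show (ζ.1 w : ℝ) + 1 - t - (ζ.1 w : ℝ) = 1 - t by ring,
                abs_of_nonneg (by linarith)]
            · rw [hxw w ⟨h1', h2'⟩, (hzero w ⟨h1', h2'⟩).2]
              simpa using h1
        · rw [hxu, hu']
          push_cast
          rw [show (γ.1 u : ℝ) + t - ((γ.1 u : ℝ) + 1) = -(1 - t) by ring, abs_neg,
            abs_of_nonneg (by linarith)]
      · rw [if_neg hz, if_neg hz']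
        by_cases hw : ∃ w, (w ≠ u ∧ w ≠ v) ∧ ζ.1 w ≠ 0
        · obtain ⟨w, hw1, hw2⟩ := hw
          rw [hat_zero_of k G x ζ w]
          · ring
          · rw [hxw w hw1]
            have : (1 : ℝ) ≤ (ζ.1 w : ℝ) := by exact_mod_cast Nat.one_le_iff_ne_zero.mpr hw2
            rw [abs_of_nonpos (by linarith)]
            linarith
        · push Not at hw
          have hζsum : ζ.1 u + ζ.1 v = k := by
            have h2 : ∑ v, ζ.1 v = k := ζ.2.1
            exact (Fintype.sum_eq_add u v huv (fun w hw' => hw w hw')).symm.trans h2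
          have hn1 : ζ.1 u ≠ γ.1 u := by
            intro h
            apply hz
            apply Subtype.ext
            funext w
            by_cases h1' : w = u
            · rw [h1', h]
            · by_cases h2' : w = v
              · rw [h2']; omega
              · rw [hw w ⟨h1', h2'⟩, (hzero w ⟨h1', h2'⟩).1]
          have hn2 : ζ.1 u ≠ γ.1 u + 1 := by
            intro h
            apply hz'
            apply Subtype.ext
            funext w
            by_cases h1' : w = u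
            · rw [h1', h, hu']
            · by_cases h2' : w = v
              · rw [h2']; omega
              · rw [hw w ⟨h1', h2'⟩, (hzero w ⟨h1', h2'⟩).2]
          rw [hat_zero_of k G x ζ u]
          · ring
          · rw [hxu]
            rcases Nat.lt_or_ge (ζ.1 u) (γ.1 u) with h | h
            · have : (ζ.1 u : ℝ) + 1 ≤ γ.1 u := by exact_mod_cast h
              rw [abs_of_nonneg (by linarith)]
              linarith
            · have h' : γ.1 u + 2 ≤ ζ.1 u := by omega
              have : (γ.1 u : ℝ) + 2 ≤ ζ.1 u := by exact_mod_cast h'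
              rw [abs_of_nonpos (by linarith)]
              linarith

theorem grid_finite (k : ℕ) {V : Type} [Fintype V] (G : SimpleGraph V) : Finite (Grid k G) := by
  have hle : ∀ (γ : Grid k G) v, γ.1 v < k + 1 := by
    intro γ v
    have h := Finset.single_le_sum (f := γ.1) (fun i _ => Nat.zero_le _) (Finset.mem_univ v)
    rw [γ.2.1] at h
    omega
  refine Finite.of_injective (fun γ : Grid k G => fun v => (⟨γ.1 v, hle γ v⟩ : Fin (k + 1))) ?_
  intro γ γ' h
  apply Subtype.ext
  funext v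
  have := congrFun h v
  simpa using this

noncomputable instance gridFintype (k : ℕ) {V : Type} [Fintype V] (G : SimpleGraph V) :
    Fintype (Grid k G) := by
  have := grid_finite k G
  exact Fintype.ofFinite _

/-- push forward of grid points along a graph homomorphism -/
noncomputable def pushGrid (k : ℕ) {V W : Type} [Fintype V] [Fintype W] (G : SimpleGraph V)
    (H : SimpleGraph W) (F : V → W) (hF : ∀ u v, G.Adj u v → F u = F v ∨ H.Adj (F u) (F v)) (γ : Grid k G) :
    Grid k H :=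
  ⟨fun w => ∑ v, (open Classical in if F v = w then γ.1 v else 0), by
    classical
    constructor
    · rw [Finset.sum_comm]
      simp [γ.2.1]
    · intro u v hu hv
      obtain ⟨a, _, ha⟩ := Finset.exists_ne_zero_of_sum_ne_zero hu
      obtain ⟨b, _, hb⟩ := Finset.exists_ne_zero_of_sum_ne_zero hv
      have ha1 : F a = u := by by_contra h; simp [h] at ha
      have hb1 : F b = v := by by_contra h; simp [h] at hb
      have ha2 : γ.1 a ≠ 0 := by simpa [ha1] using ha
      have hb2 : γ.1 b ≠ 0 := by simpa [hb1] using hb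
      rcases γ.2.2 a b ha2 hb2 with h | h
      · left; rw [← ha1, ← hb1, h]
      · rw [← ha1, ← hb1]; exact hF _ _ h⟩

lemma pushGrid_apply (k : ℕ) {V W : Type} [Fintype V] [Fintype W] (G : SimpleGraph V)
    (H : SimpleGraph W) (F : V → W) (hF : ∀ u v, G.Adj u v → F u = F v ∨ H.Adj (F u) (F v)) (γ : Grid k G)
    (S : Set V) (hS : ∀ v, γ.1 v ≠ 0 → v ∈ S) (hinj : ∀ u ∈ S, ∀ v ∈ S, F u = F v → u = v)
    (v : V) (hv : v ∈ S) : (pushGrid k G H F hF γ).1 (F v) = γ.1 v := by
  classical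
  show ∑ u, _ = _
  rw [Finset.sum_eq_single v]
  · simp
  · intro b _ hb
    by_cases h : F b = F v
    · have : γ.1 b = 0 := by
        by_contra h'
        exact hb (hinj b (hS b h') v hv h)
      simp [this]
    · simp [h]
  · intro h; exact absurd (Finset.mem_univ v) h

lemma pushGrid_zero (k : ℕ) {V W : Type} [Fintype V] [Fintype W] (G : SimpleGraph V)
    (H : SimpleGraph W) (F : V → W) (hF : ∀ u v, G.Adj u v → F u = F v ∨ H.Adj (F u) (F v)) (γ : Grid k G)
    (S : Set V) (hS : ∀ v, γ.1 v ≠ 0 → v ∈ S) (w : W) (hw : ∀ v ∈ S, F v ≠ w) :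
    (pushGrid k G H F hF γ).1 w = 0 := by
  classical
  show ∑ u, _ = _
  apply Finset.sum_eq_zero
  intro b _
  by_cases h : F b = w
  · have : γ.1 b = 0 := by
      by_contra h'
      exact hw b (hS b h') h
    simp [this]
  · simp [h]

lemma pushGrid_adj (k : ℕ) {V W : Type} [Fintype V] [Fintype W] (G : SimpleGraph V)
    (htri : ∀ a b c, G.Adj a b → G.Adj b c → G.Adj a c → False)
    (H : SimpleGraph W) (F : V → W) (hF : ∀ u v, G.Adj u v → F u = F v ∨ H.Adj (F u) (F v))
    (γ γ' : Grid k G) (h : (gridGraph k G).Adj γ γ') :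
    pushGrid k G H F hF γ = pushGrid k G H F hF γ' ∨
      (gridGraph k H).Adj (pushGrid k G H F hF γ) (pushGrid k G H F hF γ') := by
  by_cases hinj : ∀ u ∈ {v | γ.1 v ≠ 0 ∨ γ'.1 v ≠ 0}, ∀ v ∈ {v | γ.1 v ≠ 0 ∨ γ'.1 v ≠ 0},
      F u = F v → u = v
  · by_cases hne : pushGrid k G H F hF γ = pushGrid k G H F hF γ'
    · exact Or.inl hne
    right
    refine ⟨hne, ?_, ?_⟩
    · intro w
      by_cases hw : ∃ v ∈ {v | γ.1 v ≠ 0 ∨ γ'.1 v ≠ 0}, F v = w
      · obtain ⟨v, hv, rfl⟩ := hw
        rw [pushGrid_apply k G H F hF γ _ (fun v h => Or.inl h) hinj v hv,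
          pushGrid_apply k G H F hF γ' _ (fun v h => Or.inr h) hinj v hv]
        exact h.2.1 v
      · push Not at hw
        rw [pushGrid_zero k G H F hF γ _ (fun v h => Or.inl h) w hw,
          pushGrid_zero k G H F hF γ' _ (fun v h => Or.inr h) w hw]
        omega
    · have hsup : ∀ w, ((pushGrid k G H F hF γ).1 w ≠ 0 ∨ (pushGrid k G H F hF γ').1 w ≠ 0) →
          ∃ v ∈ {v | γ.1 v ≠ 0 ∨ γ'.1 v ≠ 0}, F v = w := by
        intro w hw
        by_contra hc
        push Not at hc
        rw [pushGrid_zero k G H F hF γ _ (fun v h => Or.inl h) w hc,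
          pushGrid_zero k G H F hF γ' _ (fun v h => Or.inr h) w hc] at hw
        simp at hw
      intro w w' hw hw'
      obtain ⟨v, hv, rfl⟩ := hsup w hw
      obtain ⟨v', hv', rfl⟩ := hsup w' hw'
      rcases h.2.2 v v' hv hv' with h | h
      · exact Or.inl (by rw [h])
      · exact hF _ _ h
  · left
    push Not at hinj
    obtain ⟨u, hu, v, hv, huv, hne⟩ := hinj
    have hadj : G.Adj u v := (h.2.2 u v hu hv).resolve_left hne
    have hall : ∀ x ∈ {v | γ.1 v ≠ 0 ∨ γ'.1 v ≠ 0}, F x = F u := by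
      intro x hx
      rcases h.2.2 u x hu hx with h1 | h1
      · rw [h1]
      · rcases h.2.2 v x hv hx with h2 | h2
        · rw [← h2, huv]
        · exact (htri u v x hadj h2 h1).elim
    have hzero : ∀ w, w ≠ F u → ∀ x ∈ {v | γ.1 v ≠ 0 ∨ γ'.1 v ≠ 0}, F x ≠ w := by
      intro w hw x hx he
      exact hw (by rw [← he, hall x hx])
    have hk : ∀ δ : Grid k G, (∀ v, δ.1 v ≠ 0 → v ∈ {v | γ.1 v ≠ 0 ∨ γ'.1 v ≠ 0}) →
        (pushGrid k G H F hF δ).1 (F u) = k := by
      intro δ hδ
      have hs := (pushGrid k G H F hF δ).2.1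
      rw [Finset.sum_eq_single (F u)] at hs
      · exact hs
      · intro b _ hb
        exact pushGrid_zero k G H F hF δ _ hδ b (hzero b hb)
      · intro h'; exact absurd (Finset.mem_univ _) h'
    apply Subtype.ext
    funext w
    by_cases hw : w = F u
    · rw [hw, hk γ (fun v h => Or.inl h), hk γ' (fun v h => Or.inr h)]
    · rw [pushGrid_zero k G H F hF γ _ (fun v h => Or.inl h) w (hzero w hw),
        pushGrid_zero k G H F hF γ' _ (fun v h => Or.inr h) w (hzero w hw)]

lemma hat_nonneg (k : ℕ) {V : Type} [Fintype V] (G : SimpleGraph V) (x : V → ℝ) (ζ : Grid k G) :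
    0 ≤ hat k G x ζ := le_max_left _ _

lemma hat_continuous (k : ℕ) {V : Type} [Fintype V] (G : SimpleGraph V) :
    Continuous (hat k G) := by
  refine continuous_pi fun ζ => ?_
  unfold hat
  refine continuous_const.max (continuous_const.sub (Continuous.norm ?_))
  refine continuous_pi fun v => ?_
  exact (continuous_const.mul (continuous_apply v)).sub continuous_const

lemma hat_geo (k : ℕ) {V : Type} [Fintype V] (G : SimpleGraph V)
    (htri : ∀ a b c, G.Adj a b → G.Adj b c → G.Adj a c → False) (x : V → ℝ) (hx : x ∈ geo G) :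
    hat k G x ∈ geo (gridGraph k G) := by
  classical
  obtain ⟨γ, γ', t, h0, h1, hγ, hkx⟩ := grid_round k G htri x hx
  have he := hat_eq k G htri γ γ' t h0 h1 hγ x hkx
  refine ⟨hat_nonneg k G x, ?_, ?_⟩
  · simp only [he]
    rw [Finset.sum_add_distrib]
    simp
  · intro ζ ζ' hζ hζ'
    have hs : ∀ ξ, hat k G x ξ ≠ 0 → ξ = γ ∨ ξ = γ' := by
      intro ξ hξ
      by_contra hc
      push Not at hc
      rw [he] at hξ
      simp [hc.1, hc.2] at hξ
    rcases hs ζ hζ with rfl | rfl <;> rcases hs ζ' hζ' with rfl | rfl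
    · exact Or.inl rfl
    · exact hγ
    · rcases hγ with h | h
      · exact Or.inl h.symm
      · exact Or.inr h.symm
    · exact Or.inl rfl

lemma hat_recover (k : ℕ) {V : Type} [Fintype V] (G : SimpleGraph V)
    (htri : ∀ a b c, G.Adj a b → G.Adj b c → G.Adj a c → False) (x : V → ℝ) (hx : x ∈ geo G)
    (v : V) : (k : ℝ) * x v = ∑ ζ : Grid k G, hat k G x ζ * (ζ.1 v : ℝ) := by
  classical
  obtain ⟨γ, γ', t, h0, h1, hγ, hkx⟩ := grid_round k G htri x hx
  have he := hat_eq k G htri γ γ' t h0 h1 hγ x hkx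
  simp only [he, add_mul, Finset.sum_add_distrib, ite_mul, zero_mul]
  simp [hkx v]

lemma hat_inj (k : ℕ) (hk : 0 < k) {V : Type} [Fintype V] (G : SimpleGraph V)
    (htri : ∀ a b c, G.Adj a b → G.Adj b c → G.Adj a c → False) (x y : V → ℝ) (hx : x ∈ geo G)
    (hy : y ∈ geo G) (h : hat k G x = hat k G y) : x = y := by
  funext v
  have e1 := hat_recover k G htri x hx v
  have e2 := hat_recover k G htri y hy v
  rw [h] at e1
  have hk' : (k : ℝ) ≠ 0 := by positivity
  exact mul_left_cancel₀ hk' (e1.trans e2.symm)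

lemma hat_push (k : ℕ) {V W : Type} [Fintype V] [Fintype W] (G : SimpleGraph V)
    (H : SimpleGraph W) (htri : ∀ a b c, G.Adj a b → G.Adj b c → G.Adj a c → False)
    (htri' : ∀ a b c, H.Adj a b → H.Adj b c → H.Adj a c → False)
    (F : V → W) (hF : ∀ u v, G.Adj u v → F u = F v ∨ H.Adj (F u) (F v)) (x : V → ℝ) (hx : x ∈ geo G)
    (ζ : Grid k H) :
    hat k H (push F x) ζ = push (pushGrid k G H F hF) (hat k G x) ζ := by
  classical
  obtain ⟨γ, γ', t, h0, h1, hγ, hkx⟩ := grid_round k G htri x hx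
  have he := hat_eq k G htri γ γ' t h0 h1 hγ x hkx
  have hγ2 : pushGrid k G H F hF γ = pushGrid k G H F hF γ' ∨
      (gridGraph k H).Adj (pushGrid k G H F hF γ) (pushGrid k G H F hF γ') := by
    rcases hγ with h | h
    · exact Or.inl (by rw [h])
    · exact pushGrid_adj k G htri H F hF γ γ' h
  have hk2 : ∀ w, (k : ℝ) * push F x w = (1 - t) * ((pushGrid k G H F hF γ).1 w : ℝ) +
      t * ((pushGrid k G H F hF γ').1 w : ℝ) := by
    intro w
    have e : ∀ δ : Grid k G, ((pushGrid k G H F hF δ).1 w : ℝ) =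
        ∑ v, if F v = w then (δ.1 v : ℝ) else 0 := by
      intro δ
      show ((∑ v, _ : ℕ) : ℝ) = _
      push_cast
      rfl
    rw [e, e]
    unfold push
    rw [Finset.mul_sum, Finset.mul_sum, Finset.mul_sum, ← Finset.sum_add_distrib]
    apply Finset.sum_congr rfl
    intro v _
    split_ifs
    · exact hkx v
    · simp
  rw [hat_eq k H htri' _ _ t h0 h1 hγ2 (push F x) hk2 ζ]
  unfold push
  have e3 : ∀ δ : Grid k G, (if pushGrid k G H F hF δ = ζ then hat k G x δ else 0) =
      (if δ = γ then (if ζ = pushGrid k G H F hF γ then 1 - t else 0) else 0) +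
      (if δ = γ' then (if ζ = pushGrid k G H F hF γ' then t else 0) else 0) := by
    intro δ
    rw [he]
    by_cases h1 : δ = γ
    · subst h1
      by_cases h2 : δ = γ'
      · subst h2
        by_cases h3 : pushGrid k G H F hF δ = ζ
        · simp [h3]
        · have h3' : ζ ≠ pushGrid k G H F hF δ := fun h => h3 h.symm
          simp [h3, h3']
      · by_cases h3 : pushGrid k G H F hF δ = ζ
        · simp [h3, h2]
        · have h3' : ζ ≠ pushGrid k G H F hF δ := fun h => h3 h.symm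
          simp [h3, h3', h2]
    · by_cases h2 : δ = γ'
      · subst h2
        by_cases h3 : pushGrid k G H F hF δ = ζ
        · simp [h3, h1]
        · have h3' : ζ ≠ pushGrid k G H F hF δ := fun h => h3 h.symm
          simp [h3, h3', h1]
      · simp [h1, h2]
  simp only [e3]
  rw [Finset.sum_add_distrib]
  simp

lemma push_comp {U V W : Type} [Fintype U] [Fintype V] (A : V → W) (B : U → V) (x : U → ℝ) :
    push (fun u => A (B u)) x = push A (push B x) := by
  classical
  funext w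
  unfold push
  have : ∀ v, (if A v = w then ∑ u, (if B u = v then x u else 0) else 0) =
      ∑ u, (if B u = v then (if A v = w then x u else 0) else 0) := by
    intro v
    split_ifs with h
    · rfl
    · simp
  simp only [this]
  rw [Finset.sum_comm]
  simp

/-- `X` has exact tree refinements: for every `ε` there is a finite partition of unity `q` with
supports of diameter less than `ε` such that for every `η` there are a finite forest `T` and a map
`g` of `X` to the realisation of `T` with all fibres of diameter less than `η`, such that every `q w`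
is exactly the sum of the barycentric coordinates `g v` over the vertices `v` with label `w`. -/
def ExactTreeRefinable (X : Type) [MetricSpace X] : Prop :=
  ∀ ε : ℝ, 0 < ε → ∃ (W : Type) (_ : Fintype W) (q : X → W → ℝ),
    Continuous q ∧ (∀ x y w, q x w ≠ 0 → q y w ≠ 0 → dist x y < ε) ∧
    ∀ η : ℝ, 0 < η → ∃ (V : Type) (_ : Fintype V) (T : SimpleGraph V) (F : V → W)
      (g : X → V → ℝ), T.IsAcyclic ∧ Continuous g ∧ (∀ x, g x ∈ geo T) ∧
      (∀ x y, g x = g y → dist x y < η) ∧ ∀ x w, q x w = push F (g x) w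

theorem refinable_span {X : Type} [MetricSpace X] [CompactSpace X] (hX : ExactTreeRefinable X)
    (hD : ∀ (A B : X) (K : Set (X × X)), IsCompact K → IsConnected K → (A, B) ∈ K →
      (B, A) ∈ K → ∃ x : X, (x, x) ∈ K)
    (Z : Set (X × X)) (hZc : IsCompact Z) (hZ : IsConnected Z)
    (hpr : Prod.snd '' Z ⊆ Prod.fst '' Z) : ∃ x, (x, x) ∈ Z := by
  classical
  by_contra hno
  have hdiag : ∀ z ∈ Z, z.1 ≠ z.2 := by
    intro z hz h
    apply hno
    refine ⟨z.1, ?_⟩
    have : z = (z.1, z.1) := Prod.ext rfl h.symm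
    rw [← this]; exact hz
  have hcont : Continuous fun z : X × X => dist z.1 z.2 := continuous_fst.dist continuous_snd
  obtain ⟨z0, hz0, hmin⟩ := hZc.exists_isMinOn hZ.nonempty hcont.continuousOn
  have hpos : 0 < dist z0.1 z0.2 := dist_pos.2 (hdiag z0 hz0)
  obtain ⟨W, hW, q, hq, hsmall, hfine⟩ := hX _ hpos
  refine exact_span hD Z hZ hpr q hq ?_ hfine
  intro z hz w
  by_contra hc
  push Not at hc
  have h1 := hsmall z.1 z.2 w hc.1 hc.2
  have h2 : dist z0.1 z0.2 ≤ dist z.1 z.2 := hmin hz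
  linarith

section limit
variable {X : Type} [MetricSpace X] [CompactSpace X] (V : ℕ → Type) [∀ n, Fintype (V n)]
  (G : ∀ n, SimpleGraph (V n)) (F : ∀ n, V (n + 1) → V n) (p : ∀ n, X → V n → ℝ)

omit [MetricSpace X] [CompactSpace X] in
lemma level_mono (hpush : ∀ n x, push (F n) (p (n + 1) x) = p n x) (x y : X) (n j : ℕ)
    (h : p (n + j) x = p (n + j) y) : p n x = p n y := by
  induction j with
  | zero => exact h
  | succ j ih =>
    apply ih
    rw [← hpush (n + j) x, ← hpush (n + j) y]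
    have h' : p (n + j + 1) x = p (n + j + 1) y := h
    rw [h']

lemma level_compact (hp : ∀ n, Continuous (p n))
    (hpush : ∀ n x, push (F n) (p (n + 1) x) = p n x)
    (hsep : ∀ x y, (∀ n, p n x = p n y) → x = y) (η : ℝ) (hη : 0 < η) :
    ∃ n, ∀ x y, η ≤ dist x y → p n x ≠ p n y := by
  have hC : IsCompact {z : X × X | η ≤ dist z.1 z.2} :=
    (isClosed_le continuous_const (continuous_fst.dist continuous_snd)).isCompact
  let U : ℕ → Set (X × X) := fun n => {z | p n z.1 ≠ p n z.2}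
  have hU : ∀ n, IsOpen (U n) := fun n =>
    isOpen_ne_fun ((hp n).comp continuous_fst) ((hp n).comp continuous_snd)
  have hmono : Monotone U := by
    intro a b hab z hz h
    obtain ⟨j, rfl⟩ := Nat.exists_eq_add_of_le hab
    exact hz (level_mono V F p hpush z.1 z.2 a j h)
  obtain ⟨n, hn⟩ := hC.elim_directed_cover U hU (by
    intro z hz
    by_contra hc
    have hz' : η ≤ dist z.1 z.2 := hz
    have : z.1 = z.2 := by
      apply hsep
      intro n
      by_contra hne
      exact hc (Set.mem_iUnion.2 ⟨n, hne⟩)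
    rw [this, dist_self] at hz'
    linarith) hmono.directed_le
  exact ⟨n, fun x y h => hn (show (x, y) ∈ {z : X × X | η ≤ dist z.1 z.2} from h)⟩

omit [MetricSpace X] [CompactSpace X] in
lemma compose_maps
    (hF : ∀ n u v, (G (n + 1)).Adj u v → F n u = F n v ∨ (G n).Adj (F n u) (F n v))
    (hpush : ∀ n x, push (F n) (p (n + 1) x) = p n x) (m j : ℕ) :
    ∃ Φ : V (m + j) → V m, (∀ u v, (G (m + j)).Adj u v → Φ u = Φ v ∨ (G m).Adj (Φ u) (Φ v)) ∧
      ∀ x, push Φ (p (m + j) x) = p m x := by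
  classical
  induction j with
  | zero =>
    refine ⟨fun v => v, fun u v h => Or.inr h, ?_⟩
    intro x
    funext w
    unfold push
    simp
  | succ j ih =>
    obtain ⟨Φ, h1, h2⟩ := ih
    refine ⟨fun v => Φ (F (m + j) v), fun u v h => ?_, ?_⟩
    · rcases hF (m + j) u v h with h | h
      · exact Or.inl (congrArg Φ h)
      · exact h1 _ _ h
    · intro x
      have e := push_comp Φ (F (m + j)) (p (m + j + 1) x)
      rw [hpush (m + j) x, h2 x] at e
      exact e

/-- closed subspaces of limits of trees with simplicial bonding maps have exact refinements -/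
theorem limit_refinable (hG : ∀ n, (G n).IsAcyclic)
    (hF : ∀ n u v, (G (n + 1)).Adj u v → F n u = F n v ∨ (G n).Adj (F n u) (F n v))
    (hp : ∀ n, Continuous (p n)) (hgeo : ∀ n x, p n x ∈ geo (G n))
    (hpush : ∀ n x, push (F n) (p (n + 1) x) = p n x)
    (hsep : ∀ x y, (∀ n, p n x = p n y) → x = y) : ExactTreeRefinable X := by
  classical
  intro ε hε
  obtain ⟨m, hm⟩ := level_compact V F p hp hpush hsep ε hε
  have hcont : Continuous fun z : X × X => ‖p m z.1 - p m z.2‖ :=
    (((hp m).comp continuous_fst).sub ((hp m).comp continuous_snd)).norm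
  have hC : IsCompact {z : X × X | ε ≤ dist z.1 z.2} :=
    (isClosed_le continuous_const (continuous_fst.dist continuous_snd)).isCompact
  obtain ⟨δ, hδpos, hδ⟩ : ∃ δ : ℝ, 0 < δ ∧ ∀ x y, ε ≤ dist x y → δ ≤ ‖p m x - p m y‖ := by
    rcases Set.eq_empty_or_nonempty {z : X × X | ε ≤ dist z.1 z.2} with he | hne
    · refine ⟨1, one_pos, fun x y h => ?_⟩
      exfalso
      have : (x, y) ∈ {z : X × X | ε ≤ dist z.1 z.2} := h
      rw [he] at this
      exact this
    · obtain ⟨z0, hz0, hmin⟩ := hC.exists_isMinOn hne hcont.continuousOn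
      refine ⟨‖p m z0.1 - p m z0.2‖, norm_pos_iff.2 (sub_ne_zero.2 (hm _ _ hz0)), ?_⟩
      intro x y h
      exact hmin (show (x, y) ∈ {z : X × X | ε ≤ dist z.1 z.2} from h)
  obtain ⟨k, hk⟩ := exists_nat_gt (2 / δ)
  have hk0 : (0 : ℝ) < k := lt_trans (by positivity) hk
  have hk0' : 0 < k := by exact_mod_cast hk0
  have hkδ : 2 < k * δ := by
    rw [div_lt_iff₀ hδpos] at hk
    exact hk
  have tri : ∀ n a b c, (G n).Adj a b → (G n).Adj b c → (G n).Adj a c → False :=
    fun n a b c => acyclic_tri (hG n) a b c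
  refine ⟨Grid k (G m), inferInstance, fun x => hat k (G m) (p m x),
    (hat_continuous k (G m)).comp (hp m), ?_, ?_⟩
  · intro x y γ hx hy
    by_contra hc
    push Not at hc
    have hlt : ∀ x, hat k (G m) x γ ≠ 0 → ‖fun v => (k : ℝ) * x v - (γ.1 v : ℝ)‖ < 1 := by
      intro x hx
      by_contra h
      push Not at h
      apply hx
      unfold hat
      exact max_eq_left (by linarith)
    have h1 := hlt _ hx
    have h2 := hlt _ hy
    have h3 : (k : ℝ) * ‖p m x - p m y‖ < 2 := by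
      have e : (k : ℝ) • (p m x - p m y) = (fun v => (k : ℝ) * p m x v - (γ.1 v : ℝ)) -
          (fun v => (k : ℝ) * p m y v - (γ.1 v : ℝ)) := by
        funext v
        simp only [Pi.smul_apply, Pi.sub_apply, smul_eq_mul]
        ring
      have e2 : (k : ℝ) * ‖p m x - p m y‖ = ‖(k : ℝ) • (p m x - p m y)‖ := by
        rw [norm_smul, Real.norm_of_nonneg hk0.le]
      rw [e2, e]
      calc _ ≤ _ := norm_sub_le _ _
        _ < 2 := by linarith
    have h4 : δ ≤ ‖p m x - p m y‖ := hδ x y hc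
    have h5 : k * δ ≤ k * ‖p m x - p m y‖ := mul_le_mul_of_nonneg_left h4 hk0.le
    linarith
  · intro η hη
    obtain ⟨j, hj⟩ := level_compact V F p hp hpush hsep η hη
    obtain ⟨Φ, hΦ1, hΦ2⟩ := compose_maps V G F p hF hpush m j
    refine ⟨Grid k (G (m + j)), inferInstance, gridGraph k (G (m + j)),
      pushGrid k (G (m + j)) (G m) Φ hΦ1, fun x => hat k (G (m + j)) (p (m + j) x),
      grid_acyclic k _ (hG _), (hat_continuous k _).comp (hp _), ?_, ?_, ?_⟩
    · intro x
      exact hat_geo k _ (tri _) _ (hgeo _ x)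
    · intro x y hxy
      have h1 : p (m + j) x = p (m + j) y :=
        hat_inj k hk0' _ (tri _) _ _ (hgeo _ x) (hgeo _ y) hxy
      by_contra hd
      push Not at hd
      have h2 : p (j + m) x = p (j + m) y := by
        rw [Nat.add_comm j m]; exact h1
      exact hj x y hd (level_mono V F p hpush x y j m h2)
    · intro x w
      show hat k (G m) (p m x) w = _
      rw [← hΦ2 x]
      exact hat_push k (G (m + j)) (G m) (tri _) (tri _) Φ hΦ1 (p (m + j) x) (hgeo _ x) w

end limit

end Pool.Agent.Helper885.ExRef
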