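import Mathlib
import Pool.Agent.Helper885.ExactTree.Core

set_option autoImplicit false

namespace Pool.Agent.Helper885.ExRef

/-- `X` is the union of finitely many pairwise disjoint closed pieces `P i` of diameter less than `ε`
and of a closed set `M` every component of which has diameter less than `ε`, meets some piece, meets
no three of the pieces, and meets each piece in at most one point -/
structure NeckCut (X : Type) [MetricSpace X] (ε : ℝ) (n : ℕ) (P : Fin n → Set X) (M : Set X) :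
    Prop where
  closed : ∀ i, IsClosed (P i)
  disj : ∀ i j, i ≠ j → Disjoint (P i) (P j)
  closedM : IsClosed M
  cover : ∀ x, (∃ i, x ∈ P i) ∨ x ∈ M
  small : ∀ i, ∀ x ∈ P i, ∀ y ∈ P i, dist x y < ε
  thin : ∀ x ∈ M, ∀ y ∈ connectedComponentIn M x, dist x y < ε
  touch : ∀ x ∈ M, ∃ i, (connectedComponentIn M x ∩ P i).Nonempty
  once : ∀ x ∈ M, ∀ i, (connectedComponentIn M x ∩ P i).Subsingleton
  two : ∀ x ∈ M, ∀ i j u, i ≠ j → i ≠ u → j ≠ u → (connectedComponentIn M x ∩ P i).Nonempty →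
    (connectedComponentIn M x ∩ P j).Nonempty → connectedComponentIn M x ∩ P u = ∅

/-- points with their representatives in the piece `i` -/
def NGr {X : Type} [TopologicalSpace X] {n : ℕ} (P : Fin n → Set X) (M : Set X) (i : Fin n) :
    Set (X × X) :=
  {z | z.1 = z.2 ∧ z.1 ∈ P i} ∪ {z | z.1 ∈ M ∧ z.2 ∈ connectedComponentIn M z.1 ∧ z.2 ∈ P i}

/-- other pieces, and components of `M` which join two other pieces -/
def NNn {X : Type} [TopologicalSpace X] {n : ℕ} (P : Fin n → Set X) (M : Set X) (u : Fin n) :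
    Set X :=
  {y | ∃ i, i ≠ u ∧ y ∈ P i} ∪ {y | ∃ i j, i ≠ j ∧ i ≠ u ∧ j ≠ u ∧ y ∈ M ∧
    (connectedComponentIn M y ∩ P i).Nonempty ∧ (connectedComponentIn M y ∩ P j).Nonempty}

/-- the relation of lying in the same component of a compact set is closed -/
theorem same_closed {X : Type} [MetricSpace X] {M : Set X} (hM : IsCompact M) :
    IsClosed {z : X × X | z.1 ∈ M ∧ z.2 ∈ connectedComponentIn M z.1} := by
  haveI : CompactSpace M := isCompact_iff_compactSpace.1 hM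
  have hR : IsClosed {w : M × M | (w.1 : ConnectedComponents M) = (w.2 : ConnectedComponents M)} :=
    isClosed_eq (ConnectedComponents.continuous_coe.comp continuous_fst)
      (ConnectedComponents.continuous_coe.comp continuous_snd)
  have hc : Continuous (fun w : M × M => ((w.1 : X), (w.2 : X))) :=
    (continuous_subtype_val.comp continuous_fst).prodMk (continuous_subtype_val.comp continuous_snd)
  have himg := (hR.isCompact.image hc).isClosed
  have heq : {z : X × X | z.1 ∈ M ∧ z.2 ∈ connectedComponentIn M z.1} =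
      (fun w : M × M => ((w.1 : X), (w.2 : X))) ''
        {w : M × M | (w.1 : ConnectedComponents M) = (w.2 : ConnectedComponents M)} := by
    ext z
    constructor
    · rintro ⟨h1, h2⟩
      rw [connectedComponentIn_eq_image h1] at h2
      obtain ⟨y, hy, hyz⟩ := h2
      refine ⟨(⟨z.1, h1⟩, y), ?_, ?_⟩
      · exact (ConnectedComponents.coe_eq_coe'.2 hy).symm
      · exact Prod.ext rfl hyz
    · rintro ⟨w, hw, rfl⟩
      refine ⟨w.1.2, ?_⟩
      show (w.2 : X) ∈ connectedComponentIn M (w.1 : X)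
      rw [connectedComponentIn_eq_image w.1.2]
      exact ⟨w.2, ConnectedComponents.coe_eq_coe'.1 (Eq.symm hw), rfl⟩
  rw [heq]
  exact himg

theorem neck_sets {X : Type} [MetricSpace X] [CompactSpace X] {ε : ℝ} {n : ℕ}
    {P : Fin n → Set X} {M : Set X} (h : NeckCut X ε n P M) :
    (∀ i, IsClosed (NGr P M i)) ∧ (∀ u, IsClosed (NNn P M u)) ∧
      (∀ u, Disjoint (P u) (NNn P M u)) := by
  have hsame := same_closed (X := X) (M := M) h.closedM.isCompact
  have hS : ∀ i, IsClosed ({z : X × X | z.1 ∈ M ∧ z.2 ∈ connectedComponentIn M z.1} ∩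
      Prod.snd ⁻¹' (P i)) := fun i => hsame.inter ((h.closed i).preimage continuous_snd)
  have hT : ∀ i, IsClosed (Prod.fst '' ({z : X × X | z.1 ∈ M ∧ z.2 ∈ connectedComponentIn M z.1} ∩
      Prod.snd ⁻¹' (P i))) := fun i => ((hS i).isCompact.image continuous_fst).isClosed
  have hTm : ∀ i y, y ∈ (Prod.fst '' ({z : X × X | z.1 ∈ M ∧ z.2 ∈ connectedComponentIn M z.1} ∩
      Prod.snd ⁻¹' (P i))) ↔ y ∈ M ∧ (connectedComponentIn M y ∩ P i).Nonempty := by
    intro i y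
    constructor
    · rintro ⟨z, ⟨⟨hz1, hz2⟩, hz3⟩, rfl⟩
      exact ⟨hz1, z.2, hz2, hz3⟩
    · rintro ⟨hy, w, hw1, hw2⟩
      exact ⟨(y, w), ⟨⟨hy, hw1⟩, hw2⟩, rfl⟩
  refine ⟨fun i => ?_, fun u => ?_, fun u => ?_⟩
  · have e1 : IsClosed {z : X × X | z.1 = z.2 ∧ z.1 ∈ P i} :=
      (isClosed_eq continuous_fst continuous_snd).inter ((h.closed i).preimage continuous_fst)
    have e2 : {z : X × X | z.1 ∈ M ∧ z.2 ∈ connectedComponentIn M z.1 ∧ z.2 ∈ P i}
        = {z : X × X | z.1 ∈ M ∧ z.2 ∈ connectedComponentIn M z.1} ∩ Prod.snd ⁻¹' (P i) := by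
      ext z
      constructor
      · rintro ⟨a, b, c⟩
        exact ⟨⟨a, b⟩, c⟩
      · rintro ⟨⟨a, b⟩, c⟩
        exact ⟨a, b, c⟩
    unfold NGr
    rw [e2]
    exact e1.union (hS i)
  · have e1 : {y : X | ∃ i, i ≠ u ∧ y ∈ P i} = ⋃ i ∈ {i : Fin n | i ≠ u}, P i := by
      ext y
      simp
    have e2 : {y : X | ∃ i j, i ≠ j ∧ i ≠ u ∧ j ≠ u ∧ y ∈ M ∧
        (connectedComponentIn M y ∩ P i).Nonempty ∧ (connectedComponentIn M y ∩ P j).Nonempty}
        = ⋃ p ∈ {p : Fin n × Fin n | p.1 ≠ p.2 ∧ p.1 ≠ u ∧ p.2 ≠ u},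
          ((Prod.fst '' ({z : X × X | z.1 ∈ M ∧ z.2 ∈ connectedComponentIn M z.1} ∩
            Prod.snd ⁻¹' (P p.1))) ∩
          (Prod.fst '' ({z : X × X | z.1 ∈ M ∧ z.2 ∈ connectedComponentIn M z.1} ∩
            Prod.snd ⁻¹' (P p.2)))) := by
      ext y
      constructor
      · rintro ⟨i, j, h1, h2, h3, h4, h5, h6⟩
        refine Set.mem_biUnion (x := (i, j)) ⟨h1, h2, h3⟩ ?_
        exact ⟨(hTm i y).2 ⟨h4, h5⟩, (hTm j y).2 ⟨h4, h6⟩⟩
      · intro hy
        obtain ⟨p, hp, hy1, hy2⟩ := Set.mem_iUnion₂.1 hy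
        have h1 := (hTm p.1 y).1 hy1
        have h2 := (hTm p.2 y).1 hy2
        exact ⟨p.1, p.2, hp.1, hp.2.1, hp.2.2, h1.1, h1.2, h2.2⟩
    unfold NNn
    rw [e1, e2]
    refine IsClosed.union ?_ ?_
    · exact Set.Finite.isClosed_biUnion (Set.toFinite _) (fun i _ => h.closed i)
    · exact Set.Finite.isClosed_biUnion (Set.toFinite _) (fun p _ => (hT p.1).inter (hT p.2))
  · rw [Set.disjoint_left]
    intro x hx hx2
    rcases hx2 with ⟨i, hi, hxi⟩ | ⟨i, j, hij, hi, hj, hxM, h1, h2⟩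
    · exact Set.disjoint_left.1 (h.disj i u hi) hxi hx
    · have h3 := h.two x hxM i j u hij hi hj h1 h2
      have h4 : x ∈ connectedComponentIn M x ∩ P u := ⟨mem_connectedComponentIn hxM, hx⟩
      rw [h3] at h4
      exact h4

theorem neck_same {X : Type} [MetricSpace X] [CompactSpace X] {ε : ℝ} {n : ℕ}
    {P : Fin n → Set X} {M : Set X} (h : NeckCut X ε n P M) (Lp : Set (X × X))
    (hLp : IsClosed Lp)
    (hodd : ∀ u, ∀ x ∈ P u, ∀ y ∈ NNn P M u, ((x, y) ∈ Lp ↔ (y, x) ∉ Lp))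
    (i j u : Fin n) (hi : i ≠ u) (hj : j ≠ u) (x p p' y : X) (hp : (x, p) ∈ NGr P M i)
    (hp' : (x, p') ∈ NGr P M j) (hy : y ∈ P u) (h1 : (p, y) ∈ Lp) (h2 : (y, p') ∈ Lp) :
    False := by
  have hpi : p ∈ P i := by
    rcases hp with ⟨a, b⟩ | ⟨a, b, c⟩
    · have a' : x = p := a
      rw [← a']; exact b
    · exact c
  have hpj : p' ∈ P j := by
    rcases hp' with ⟨a, b⟩ | ⟨a, b, c⟩
    · have a' : x = p' := a
      rw [← a']; exact b
    · exact c
  by_cases hpp : p = p'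
  · subst hpp
    have hN : p ∈ NNn P M u := Or.inl ⟨i, hi, hpi⟩
    exact ((hodd u y hy p hN).mp h2) h1
  · have hxM : x ∈ M := by
      rcases hp with ⟨a, b⟩ | ⟨a, b, c⟩
      · rcases hp' with ⟨a', b'⟩ | ⟨a', b', c'⟩
        · have e1 : x = p := a
          have e2 : x = p' := a'
          exact absurd (e1.symm.trans e2) hpp
        · exact a'
      · exact a
    have hpK : p ∈ connectedComponentIn M x := by
      rcases hp with ⟨a, b⟩ | ⟨a, b, c⟩
      · have e1 : x = p := a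
        rw [← e1]; exact mem_connectedComponentIn hxM
      · exact b
    have hpK' : p' ∈ connectedComponentIn M x := by
      rcases hp' with ⟨a, b⟩ | ⟨a, b, c⟩
      · have e1 : x = p' := a
        rw [← e1]; exact mem_connectedComponentIn hxM
      · exact b
    have hij : i ≠ j := by
      rintro rfl
      exact hpp (h.once x hxM i ⟨hpK, hpi⟩ ⟨hpK', hpj⟩)
    have hall : ∀ q ∈ connectedComponentIn M x, ((y, q) ∈ Lp ↔ (q, y) ∉ Lp) := by
      intro q hq
      have hqM : q ∈ M := connectedComponentIn_subset M x hq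
      have he : connectedComponentIn M x = connectedComponentIn M q := connectedComponentIn_eq hq
      refine hodd u y hy q (Or.inr ⟨i, j, hij, hi, hj, hqM, ?_, ?_⟩)
      · rw [← he]; exact ⟨p, hpK, hpi⟩
      · rw [← he]; exact ⟨p', hpK', hpj⟩
    have hpre : IsPreconnected (connectedComponentIn M x) := isPreconnected_connectedComponentIn
    have hc1 : IsClosed {q : X | (q, y) ∈ Lp} :=
      hLp.preimage (f := fun q : X => (q, y)) (by fun_prop)
    have hc2 : IsClosed {q : X | (y, q) ∈ Lp} :=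
      hLp.preimage (f := fun q : X => (y, q)) (by fun_prop)
    obtain ⟨q, hqK, hq1, hq2⟩ := (isPreconnected_closed_iff.mp hpre) _ _ hc1 hc2
      (fun q hq => by
        by_cases hq1 : (q, y) ∈ Lp
        · exact Or.inl hq1
        · exact Or.inr ((hall q hq).mpr hq1))
      ⟨p, hpK, h1⟩ ⟨p', hpK', h2⟩
    exact ((hall q hqK).mp hq2) hq1

/-- `X` can be cut into small pieces at small necks -/
def SmallNecks (X : Type) [MetricSpace X] : Prop :=
  ∀ ε : ℝ, 0 < ε → ∃ (n : ℕ) (P : Fin n → Set X) (M : Set X), NeckCut X ε n P M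

theorem neck_key {X : Type} [MetricSpace X] [CompactSpace X] {ε : ℝ} {n : ℕ}
    {P : Fin n → Set X} {M : Set X} (h : NeckCut X ε n P M) (Lp : Set (X × X)) (hLp : IsClosed Lp)
    (hodd : ∀ u, ∀ x ∈ P u, ∀ y ∈ NNn P M u, ((x, y) ∈ Lp ↔ (y, x) ∉ Lp)) :
    ∃ η : ℝ, 0 < η ∧ ∀ i j u : Fin n, i ≠ u → j ≠ u → ∀ x p x' p' y : X, (x, p) ∈ NGr P M i →
      (x', p') ∈ NGr P M j → y ∈ P u → (p, y) ∈ Lp → (y, p') ∈ Lp → η ≤ dist x x' := by
  have key : ∀ i j u : Fin n, ∃ η : ℝ, 0 < η ∧ (i ≠ u → j ≠ u → ∀ x p x' p' y : X,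
      (x, p) ∈ NGr P M i →
      (x', p') ∈ NGr P M j → y ∈ P u → (p, y) ∈ Lp → (y, p') ∈ Lp → η ≤ dist x x') := by
    intro i j u
    by_cases hiu : i = u
    · exact ⟨1, one_pos, fun h1 => absurd hiu h1⟩
    by_cases hju : j = u
    · exact ⟨1, one_pos, fun _ h1 => absurd hju h1⟩
    let B : Set ((X × X) × (X × X) × X) :=
      {w | w.1 ∈ NGr P M i ∧ w.2.1 ∈ NGr P M j ∧ w.2.2 ∈ P u ∧ (w.1.2, w.2.2) ∈ Lp ∧
        (w.2.2, w.2.1.2) ∈ Lp}
    have hB : IsClosed B := by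
      have e1 : IsClosed {w : (X × X) × (X × X) × X | w.1 ∈ NGr P M i} :=
        ((neck_sets h).1 i).preimage (by fun_prop : Continuous fun w : (X × X) × (X × X) × X => w.1)
      have e2 : IsClosed {w : (X × X) × (X × X) × X | w.2.1 ∈ NGr P M j} :=
        ((neck_sets h).1 j).preimage
          (by fun_prop : Continuous fun w : (X × X) × (X × X) × X => w.2.1)
      have e3 : IsClosed {w : (X × X) × (X × X) × X | w.2.2 ∈ P u} :=
        (h.closed u).preimage (by fun_prop : Continuous fun w : (X × X) × (X × X) × X => w.2.2)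
      have e4 : IsClosed {w : (X × X) × (X × X) × X | (w.1.2, w.2.2) ∈ Lp} :=
        hLp.preimage (by fun_prop : Continuous fun w : (X × X) × (X × X) × X => (w.1.2, w.2.2))
      have e5 : IsClosed {w : (X × X) × (X × X) × X | (w.2.2, w.2.1.2) ∈ Lp} :=
        hLp.preimage (by fun_prop : Continuous fun w : (X × X) × (X × X) × X => (w.2.2, w.2.1.2))
      exact e1.inter (e2.inter (e3.inter (e4.inter e5)))
    by_cases hne : B.Nonempty
    · obtain ⟨w, hw, hmin⟩ := hB.isCompact.exists_isMinOn hne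
        (f := fun w : (X × X) × (X × X) × X => dist w.1.1 w.2.1.1)
        (by fun_prop : Continuous fun w : (X × X) × (X × X) × X =>
          dist w.1.1 w.2.1.1).continuousOn
      refine ⟨dist w.1.1 w.2.1.1, ?_, ?_⟩
      · rw [dist_pos]
        intro heq
        obtain ⟨h1, h2, h3, h4, h5⟩ := hw
        refine neck_same h Lp hLp hodd i j u hiu hju w.1.1 w.1.2 w.2.1.2 w.2.2 h1 ?_ h3 h4 h5
        rw [heq]
        exact h2
      · intro _ _ x p x' p' y h1 h2 h3 h4 h5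
        have := hmin (show ((x, p), (x', p'), y) ∈ B from ⟨h1, h2, h3, h4, h5⟩)
        exact this
    · refine ⟨1, one_pos, ?_⟩
      intro _ _ x p x' p' y h1 h2 h3 h4 h5
      exact absurd ⟨((x, p), (x', p'), y), ⟨h1, h2, h3, h4, h5⟩⟩ hne
  choose η hη1 hη2 using key
  by_cases hn : n = 0
  · subst hn
    exact ⟨1, one_pos, fun i => i.elim0⟩
  · haveI : Nonempty (Fin n) := ⟨⟨0, Nat.pos_of_ne_zero hn⟩⟩
    obtain ⟨m, hm⟩ := Finite.exists_min (fun t : Fin n × Fin n × Fin n => η t.1 t.2.1 t.2.2)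
    refine ⟨η m.1 m.2.1 m.2.2, hη1 _ _ _, ?_⟩
    intro i j u hiu hju x p x' p' y h1 h2 h3 h4 h5
    exact (hm (i, j, u)).trans (hη2 i j u hiu hju x p x' p' y h1 h2 h3 h4 h5)

/-- topological form of weak_core: fine open covers with forest nerve, an arbitrary labelling of the
points and an odd sign on the pairs with different labels which is invariant under small moves -/
theorem cover_span {X S : Type} [MetricSpace X] [CompactSpace X]
    (htree : ∀ ε : ℝ, 0 < ε → ∃ n : ℕ, ∃ U : Fin n → Set X,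
      (∀ i, IsOpen (U i)) ∧ (∀ i, (U i).Nonempty) ∧ (∀ i, ∀ x ∈ U i, ∀ y ∈ U i, dist x y < ε) ∧
      (⋃ i, U i) = Set.univ ∧
      (SimpleGraph.fromRel (fun i j : Fin n => (U i ∩ U j).Nonempty)).IsAcyclic)
    (Z : Set (X × X)) (hZ : IsConnected Z) (hpr : Prod.snd '' Z ⊆ Prod.fst '' Z)
    (lab : X → S) (s : X → X → Bool)
    (hodd : ∀ x y, lab x ≠ lab y → s y x = !(s x y))
    (hmove : ∃ η : ℝ, 0 < η ∧ ∀ x x' y, dist x x' < η → lab x ≠ lab y → lab x' ≠ lab y →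
      s x y = s x' y)
    (hfar : ∃ η : ℝ, 0 < η ∧ ∀ z ∈ Z, ∀ x y, dist x z.1 < η → dist y z.2 < η → lab x ≠ lab y) :
    False := by
  classical
  obtain ⟨η, hη, hmv⟩ := hmove
  obtain ⟨η', hη', hfr⟩ := hfar
  have hε : 0 < min η η' / 2 := by positivity
  obtain ⟨n, U, hUo, hUne, hUd, hUcov, hac⟩ := htree (min η η' / 2) hε
  have e1 : min η η' ≤ η := min_le_left _ _
  have e2 : min η η' ≤ η' := min_le_right _ _
  choose y hy using hUne
  set T0 : SimpleGraph (Fin n) :=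
    SimpleGraph.fromRel (fun i j : Fin n => (U i ∩ U j).Nonempty) with hT0
  set A : Set X := Prod.fst '' Z with hA
  let V' : Set (Fin n) := {i | ∃ x ∈ A, x ∈ U i}
  have near : ∀ i j : Fin n, (U i ∩ U j).Nonempty → dist (y i) (y j) < η := by
    rintro i j ⟨w, hw1, hw2⟩
    have h1 := hUd i (y i) (hy i) w hw1
    have h2 := hUd j w hw2 (y j) (hy j)
    have h3 := dist_triangle (y i) w (y j)
    linarith
  have cov : ∀ x : X, ∃ i, x ∈ U i := by
    intro x
    have : x ∈ ⋃ i, U i := by rw [hUcov]; trivial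
    exact Set.mem_iUnion.1 this
  have covA : ∀ x ∈ A, ∃ i : V', x ∈ U i.1 := by
    intro x hx
    obtain ⟨i, hi⟩ := cov x
    exact ⟨⟨i, x, hx, hi⟩, hi⟩
  let T : SimpleGraph V' := T0.induce V'
  have hadj : ∀ a b : V', T.Adj a b ↔ T0.Adj a.1 b.1 := by
    intro a b; simp [T]
  have adjne : ∀ i j : Fin n, T0.Adj i j → (U i ∩ U j).Nonempty := by
    intro i j h
    rw [hT0, SimpleGraph.fromRel_adj] at h
    rcases h.2 with h | h
    · exact h
    · rw [Set.inter_comm]; exact h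
  have meet : ∀ a b : V', ∀ x, x ∈ U a.1 → x ∈ U b.1 → a = b ∨ T.Adj a b := by
    intro a b x h1 h2
    by_cases hab : a = b
    · exact Or.inl hab
    · right
      rw [hadj, hT0, SimpleGraph.fromRel_adj]
      exact ⟨fun h => hab (Subtype.ext h), Or.inl ⟨x, h1, h2⟩⟩
  let K : Set (V' × V') := {p | ∃ z ∈ Z, z.1 ∈ U p.1.1 ∧ z.2 ∈ U p.2.1}
  let F : V' → S := fun i => lab (y i.1)
  let s' : V' → V' → Bool := fun i j => s (y i.1) (y j.1)
  have Kfar : ∀ p ∈ K, F p.1 ≠ F p.2 := by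
    rintro p ⟨z, hz, h1, h2⟩
    have d1 := hUd p.1.1 (y p.1.1) (hy _) z.1 h1
    have d2 := hUd p.2.1 (y p.2.1) (hy _) z.2 h2
    exact hfr z hz (y p.1.1) (y p.2.1) (by linarith) (by linarith)
  have Kcov : ∀ z ∈ Z, ∃ p ∈ K, z.1 ∈ U p.1.1 ∧ z.2 ∈ U p.2.1 := by
    intro z hz
    obtain ⟨a, ha⟩ := covA z.1 ⟨z, hz, rfl⟩
    obtain ⟨b, hb⟩ := covA z.2 (hpr ⟨z, hz, rfl⟩)
    exact ⟨(a, b), ⟨z, hz, ha, hb⟩, ha, hb⟩
  have Kopen : ∀ p : V' × V', IsOpen {z : X × X | z.1 ∈ U p.1.1 ∧ z.2 ∈ U p.2.1} := by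
    intro p
    exact ((hUo p.1.1).preimage continuous_fst).inter ((hUo p.2.1).preimage continuous_snd)
  have Kconn : ∀ p ∈ K, ∀ p' ∈ K, Relation.ReflTransGen (Mv T K) p p' := by
    intro p hp p' hp'
    by_contra hno
    let K1 : Set (V' × V') := {r | r ∈ K ∧ Relation.ReflTransGen (Mv T K) p r}
    let K2 : Set (V' × V') := {r | r ∈ K ∧ ¬ Relation.ReflTransGen (Mv T K) p r}
    have hO : ∀ R : Set (V' × V'),
        IsOpen {z : X × X | ∃ r ∈ R, z.1 ∈ U r.1.1 ∧ z.2 ∈ U r.2.1} := by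
      intro R
      have e : {z : X × X | ∃ r ∈ R, z.1 ∈ U r.1.1 ∧ z.2 ∈ U r.2.1} =
          ⋃ r ∈ R, {z : X × X | z.1 ∈ U r.1.1 ∧ z.2 ∈ U r.2.1} := by
        ext z; simp only [Set.mem_iUnion, Set.mem_ofPred_eq, exists_prop]
      rw [e]
      exact isOpen_biUnion fun r _ => Kopen r
    have cover : Z ⊆ {z : X × X | ∃ r ∈ K1, z.1 ∈ U r.1.1 ∧ z.2 ∈ U r.2.1} ∪
        {z : X × X | ∃ r ∈ K2, z.1 ∈ U r.1.1 ∧ z.2 ∈ U r.2.1} := by
      intro z hz
      obtain ⟨r, hr, h⟩ := Kcov z hz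
      by_cases hreach : Relation.ReflTransGen (Mv T K) p r
      · exact Or.inl ⟨r, ⟨hr, hreach⟩, h⟩
      · exact Or.inr ⟨r, ⟨hr, hreach⟩, h⟩
    obtain ⟨z1, hz1, hp1⟩ := id hp
    obtain ⟨z2, hz2, hp2⟩ := id hp'
    obtain ⟨z, hz, ⟨r1, hr1, h11, h12⟩, ⟨r2, hr2, h21, h22⟩⟩ :=
      hZ.isPreconnected _ _ (hO K1) (hO K2) cover
        ⟨z1, hz1, p, ⟨hp, Relation.ReflTransGen.refl⟩, hp1⟩
        ⟨z2, hz2, p', ⟨hp', hno⟩, hp2⟩
    apply hr2.2
    have hmid : ((r2.1, r1.2) : V' × V') ∈ K := ⟨z, hz, h21, h12⟩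
    have st1 : Relation.ReflTransGen (Mv T K) r1 (r2.1, r1.2) := by
      rcases meet r1.1 r2.1 z.1 h11 h21 with h | h
      · rw [← h]
      · exact Relation.ReflTransGen.single ⟨hr1.1, hmid, Or.inl ⟨h, rfl⟩⟩
    have st2 : Relation.ReflTransGen (Mv T K) (r2.1, r1.2) r2 := by
      rcases meet r1.2 r2.2 z.2 h12 h22 with h | h
      · rw [h]
      · exact Relation.ReflTransGen.single ⟨hmid, hr2.1, Or.inr ⟨rfl, h⟩⟩
    exact (hr1.2.trans st1).trans st2
  have full : ∀ v : V', ∃ w, (v, w) ∈ K := by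
    rintro ⟨i, x, ⟨z, hz, rfl⟩, hxi⟩
    obtain ⟨b, hb⟩ := covA z.2 (hpr ⟨z, hz, rfl⟩)
    exact ⟨b, z, hz, hxi, hb⟩
  have hreach : ∀ p q : V' × V', Relation.ReflTransGen (Mv T K) p q → T.Reachable p.1 q.1 := by
    intro p q h
    induction h with
    | refl => exact SimpleGraph.Reachable.refl _
    | @tail b c _ hc ih =>
      rcases hc.2.2 with ⟨h, _⟩ | ⟨h, _⟩
      · exact ih.trans h.reachable
      · rw [← h]; exact ih
  have hTtree : T.IsTree := by
    refine ⟨?_, ?_⟩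
    · have : Nonempty V' := by
        obtain ⟨z, hz⟩ := hZ.nonempty
        obtain ⟨a, _⟩ := covA z.1 ⟨z, hz, rfl⟩
        exact ⟨a⟩
      refine SimpleGraph.Connected.mk ?_
      intro a b
      obtain ⟨wa, hwa⟩ := full a
      obtain ⟨wb, hwb⟩ := full b
      exact hreach _ _ (Kconn _ hwa _ hwb)
    · exact hac.induce V'
  have hodd' : OddSign T F s' := by
    refine ⟨fun a b hab => hodd _ _ hab, fun a a' b haa hab ha'b => ?_⟩
    exact hmv _ _ _ (near _ _ (adjne _ _ ((hadj a a').1 haa))) hab ha'b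
  exact weak_core (Nat.card V') V' S T F s' K le_rfl hTtree hodd' Kfar Kconn full

theorem neckcut_span {X : Type} [MetricSpace X] [CompactSpace X]
    (htree : ∀ ε : ℝ, 0 < ε → ∃ n : ℕ, ∃ U : Fin n → Set X,
      (∀ i, IsOpen (U i)) ∧ (∀ i, (U i).Nonempty) ∧ (∀ i, ∀ x ∈ U i, ∀ y ∈ U i, dist x y < ε) ∧
      (⋃ i, U i) = Set.univ ∧
      (SimpleGraph.fromRel (fun i j : Fin n => (U i ∩ U j).Nonempty)).IsAcyclic)
    (hcut : SmallNecks X)
    (hD : ∀ (A B : X) (K : Set (X × X)), IsCompact K → IsConnected K → (A, B) ∈ K →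
      (B, A) ∈ K → ∃ x : X, (x, x) ∈ K)
    (Z : Set (X × X)) (hZc : IsCompact Z) (hZ : IsConnected Z)
    (hpr : Prod.snd '' Z ⊆ Prod.fst '' Z) : ∃ x, (x, x) ∈ Z := by
  classical
  by_contra hno
  have hdiag : ∀ z ∈ Z, z.1 ≠ z.2 := by
    intro z hz h
    apply hno
    refine ⟨z.1, ?_⟩
    have : z = (z.1, z.1) := Prod.ext rfl h.symm
    rw [← this]; exact hz
  have hcont : Continuous fun z : X × X => dist z.1 z.2 := continuous_fst.dist continuous_snd
  obtain ⟨z0, hz0, hmin⟩ := hZc.exists_isMinOn hZ.nonempty hcont.continuousOn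
  have hpos : 0 < dist z0.1 z0.2 := dist_pos.2 (hdiag z0 hz0)
  set δ := dist z0.1 z0.2 with hδ
  obtain ⟨n, P, M, h⟩ := hcut (δ / 4) (by positivity)
  obtain ⟨hG, hN, hPN⟩ := neck_sets h
  let L : Set (X × X) :=
    {z | ∃ u, (z.1 ∈ P u ∧ z.2 ∈ NNn P M u) ∨ (z.1 ∈ NNn P M u ∧ z.2 ∈ P u)}
  have hLc : IsClosed L := by
    have e : L = ⋃ u, ((P u ×ˢ NNn P M u) ∪ (NNn P M u ×ˢ P u)) := by
      ext z
      simp only [L, Set.mem_iUnion, Set.mem_union, Set.mem_prod, Set.mem_ofPred_eq]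
    rw [e]
    exact isClosed_iUnion_of_finite fun u =>
      ((h.closed u).prod (hN u)).union ((hN u).prod (h.closed u))
  obtain ⟨Lp, hLp, hsub, hodd⟩ := odd_of_D hD L hLc
    (by
      rintro z ⟨u, hu | hu⟩
      · exact ⟨u, Or.inr ⟨hu.2, hu.1⟩⟩
      · exact ⟨u, Or.inl ⟨hu.2, hu.1⟩⟩)
    (by
      rintro x ⟨u, hu | hu⟩
      · exact Set.disjoint_left.1 (hPN u) hu.1 hu.2
      · exact Set.disjoint_left.1 (hPN u) hu.2 hu.1)
  have hodd' : ∀ u, ∀ x ∈ P u, ∀ y ∈ NNn P M u, ((x, y) ∈ Lp ↔ (y, x) ∉ Lp) :=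
    fun u x hx y hy => hodd (x, y) ⟨u, Or.inl ⟨hx, hy⟩⟩
  obtain ⟨η, hη, hkey⟩ := neck_key h Lp hLp hodd'
  have hrep : ∀ x, ∃ (i : Fin n) (p : X), (x, p) ∈ NGr P M i ∧ p ∈ P i ∧ dist x p < δ / 4 := by
    intro x
    by_cases hx : ∃ i, x ∈ P i
    · obtain ⟨i, hi⟩ := hx
      exact ⟨i, x, Or.inl ⟨rfl, hi⟩, hi, by rw [dist_self]; positivity⟩
    · have hxM : x ∈ M := (h.cover x).resolve_left hx
      obtain ⟨i, p, hp, hpi⟩ := h.touch x hxM
      exact ⟨i, p, Or.inr ⟨hxM, hp, hpi⟩, hpi, h.thin x hxM p hp⟩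
  choose lab ρ hρ1 hρ2 hρ3 using hrep
  have inN : ∀ i u, i ≠ u → ∀ x ∈ P i, x ∈ NNn P M u := fun i u hiu x hx => Or.inl ⟨i, hiu, hx⟩
  let s : X → X → Bool := fun x y => decide ((ρ x, ρ y) ∈ Lp)
  refine cover_span htree Z hZ hpr lab s ?_ ⟨η, hη, ?_⟩ ⟨δ / 8, by positivity, ?_⟩
  · intro x y hxy
    have h1 := hodd' (lab x) (ρ x) (hρ2 x) (ρ y) (inN _ _ (Ne.symm hxy) _ (hρ2 y))
    simp only [s]
    by_cases h2 : (ρ x, ρ y) ∈ Lp
    · simp [h2, h1.1 h2]
    · have h3 : (ρ y, ρ x) ∈ Lp := by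
        by_contra h4
        exact h2 (h1.2 h4)
      simp [h2, h3]
  · intro x x' y hd hxy hx'y
    have claim : ∀ x x', dist x x' < η → lab x ≠ lab y → lab x' ≠ lab y →
        (ρ x, ρ y) ∈ Lp → (ρ x', ρ y) ∈ Lp := by
      intro x x' hd h1 h2 hin
      by_contra hout
      have hN' : ρ x' ∈ NNn P M (lab y) := inN (lab x') (lab y) h2 _ (hρ2 x')
      have h3 : (ρ y, ρ x') ∈ Lp := (hodd' (lab y) (ρ y) (hρ2 y) (ρ x') hN').2 hout
      have h4 := hkey (lab x) (lab x') (lab y) h1 h2 x (ρ x) x' (ρ x') (ρ y) (hρ1 x) (hρ1 x')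
        (hρ2 y) hin h3
      linarith
    simp only [s]
    by_cases h2 : (ρ x, ρ y) ∈ Lp
    · simp [h2, claim x x' hd hxy hx'y h2]
    · by_cases h3 : (ρ x', ρ y) ∈ Lp
      · exact absurd (claim x' x (by rw [dist_comm]; exact hd) hx'y hxy h3) h2
      · simp [h2, h3]
  · intro z hz x y hx hy hxy
    have h1 : δ ≤ dist z.1 z.2 := hmin hz
    have h2 := h.small (lab x) (ρ x) (hρ2 x) (ρ y) (by rw [hxy]; exact hρ2 y)
    have h3 := hρ3 x
    have h4 := hρ3 y
    have h5 : dist z.1 z.2 ≤ dist z.1 x + dist x (ρ x) + dist (ρ x) (ρ y) + dist (ρ y) y +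
        dist y z.2 := by
      have t1 := dist_triangle z.1 x z.2
      have t2 := dist_triangle x (ρ x) z.2
      have t3 := dist_triangle (ρ x) (ρ y) z.2
      have t4 := dist_triangle (ρ y) y z.2
      linarith
    rw [dist_comm] at hx
    rw [dist_comm (ρ y) y] at h5
    linarith

end Pool.Agent.Helper885.ExRef
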