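import Mathlib
import Pool.Agent.Helper885.ExactTree.Core
import Pool.Agent.Helper885.ExactTree.Necks

set_option autoImplicit false

namespace Pool.Agent.Helper885.ExRef

/-- `X` embeds in an inverse limit of finite trees with simplicial bonding maps -/
def SimplicialTreeLimit (X : Type) [MetricSpace X] : Prop :=
  ∃ (V : ℕ → Type) (_ : ∀ n, Fintype (V n)) (G : ∀ n, SimpleGraph (V n))
    (F : ∀ n, V (n + 1) → V n) (p : ∀ n, X → V n → ℝ),
    (∀ n, (G n).IsTree) ∧
    (∀ n u v, (G (n + 1)).Adj u v → F n u = F n v ∨ (G n).Adj (F n u) (F n v)) ∧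
    (∀ n, Continuous (p n)) ∧ (∀ n x, p n x ∈ geo (G n)) ∧
    (∀ n x, push (F n) (p (n + 1) x) = p n x) ∧ (∀ x y, (∀ n, p n x = p n y) → x = y)

theorem SimplicialTreeLimit.refinable {X : Type} [MetricSpace X] [CompactSpace X]
    (h : SimplicialTreeLimit X) : ExactTreeRefinable X := by
  obtain ⟨V, _, G, F, p, hG, hF, hp, hgeo, hpush, hsep⟩ := h
  exact limit_refinable V G F p (fun n => (hG n).isAcyclic) hF hp hgeo hpush hsep

/-- all classes at once -/
theorem classes_span {X : Type} [MetricSpace X] [CompactSpace X]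
    (htree : ∀ ε : ℝ, 0 < ε → ∃ n : ℕ, ∃ U : Fin n → Set X,
      (∀ i, IsOpen (U i)) ∧ (∀ i, (U i).Nonempty) ∧ (∀ i, ∀ x ∈ U i, ∀ y ∈ U i, dist x y < ε) ∧
      (⋃ i, U i) = Set.univ ∧
      (SimpleGraph.fromRel (fun i j : Fin n => (U i ∩ U j).Nonempty)).IsAcyclic)
    (hX : SimplicialTreeLimit X ∨ ExactTreeRefinable X ∨ SmallNecks X)
    (hD : ∀ (A B : X) (K : Set (X × X)), IsCompact K → IsConnected K → (A, B) ∈ K →
      (B, A) ∈ K → ∃ x : X, (x, x) ∈ K)
    (Z : Set (X × X)) (hZc : IsCompact Z) (hZ : IsConnected Z)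
    (hpr : Prod.snd '' Z ⊆ Prod.fst '' Z) : ∃ x, (x, x) ∈ Z := by
  rcases hX with h | h | h
  · exact refinable_span h.refinable hD Z hZc hZ hpr
  · exact refinable_span h hD Z hZc hZ hpr
  · exact neckcut_span htree h hD Z hZc hZ hpr

end Pool.Agent.Helper885.ExRef
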