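import Mathlib
import Pool.Agent.Helper648.PC.Main
import Pool.Agent.Helper885.ExactTree.Core

set_option autoImplicit false

open Set Topology

namespace Pool.Agent.Helper885.ExRef

/-- fine covers with acyclic nerve from maps to forests with small fibres -/
theorem star_small {X : Type} [MetricSpace X] [CompactSpace X] {V : Type} [Fintype V]
    (T : SimpleGraph V) (hT : T.IsAcyclic) (g : X → V → ℝ) (hg : Continuous g)
    (hgeo : ∀ x, g x ∈ geo T) (ε : ℝ) (hfib : ∀ x y, g x = g y → dist x y < ε) :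
    ∃ (W : Type) (_ : Fintype W) (H : SimpleGraph W) (q : X → W → ℝ), H.IsAcyclic ∧
      Continuous q ∧ (∀ x, q x ∈ geo H) ∧ ∀ x y w, q x w ≠ 0 → q y w ≠ 0 → dist x y < ε := by
  classical
  have hcont : Continuous fun z : X × X => ‖g z.1 - g z.2‖ :=
    ((hg.comp continuous_fst).sub (hg.comp continuous_snd)).norm
  have hC : IsCompact {z : X × X | ε ≤ dist z.1 z.2} :=
    (isClosed_le continuous_const (continuous_fst.dist continuous_snd)).isCompact
  obtain ⟨δ, hδpos, hδ⟩ : ∃ δ : ℝ, 0 < δ ∧ ∀ x y, ε ≤ dist x y → δ ≤ ‖g x - g y‖ := by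
    rcases Set.eq_empty_or_nonempty {z : X × X | ε ≤ dist z.1 z.2} with he | hne
    · refine ⟨1, one_pos, fun x y h => ?_⟩
      exfalso
      have : (x, y) ∈ {z : X × X | ε ≤ dist z.1 z.2} := h
      rw [he] at this
      exact this
    · obtain ⟨z0, hz0, hmin⟩ := hC.exists_isMinOn hne hcont.continuousOn
      refine ⟨‖g z0.1 - g z0.2‖, norm_pos_iff.2 (sub_ne_zero.2 ?_), ?_⟩
      · intro h
        have h1 := hfib _ _ h
        have h2 : ε ≤ dist z0.1 z0.2 := hz0
        linarith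
      · intro x y h
        exact hmin (show (x, y) ∈ {z : X × X | ε ≤ dist z.1 z.2} from h)
  obtain ⟨k, hk⟩ := exists_nat_gt (2 / δ)
  have hk0 : (0 : ℝ) < k := lt_trans (by positivity) hk
  have hkδ : 2 < k * δ := by
    rw [div_lt_iff₀ hδpos] at hk
    exact hk
  refine ⟨Grid k T, inferInstance, gridGraph k T, fun x => hat k T (g x), grid_acyclic k _ hT,
    (hat_continuous k T).comp hg,
    fun x => hat_geo k T (fun a b c => acyclic_tri hT a b c) _ (hgeo x), ?_⟩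
  intro x y γ hx hy
  by_contra hc
  push Not at hc
  have hlt : ∀ x, hat k T x γ ≠ 0 → ‖fun v => (k : ℝ) * x v - (γ.1 v : ℝ)‖ < 1 := by
    intro x hx
    by_contra h
    push Not at h
    apply hx
    unfold hat
    exact max_eq_left (by linarith)
  have h1 := hlt _ hx
  have h2 := hlt _ hy
  have h3 : (k : ℝ) * ‖g x - g y‖ < 2 := by
    have e : (k : ℝ) • (g x - g y) = (fun v => (k : ℝ) * g x v - (γ.1 v : ℝ)) -
        (fun v => (k : ℝ) * g y v - (γ.1 v : ℝ)) := by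
      funext v
      simp only [Pi.smul_apply, Pi.sub_apply, smul_eq_mul]
      ring
    have e2 : (k : ℝ) * ‖g x - g y‖ = ‖(k : ℝ) • (g x - g y)‖ := by
      rw [norm_smul, Real.norm_of_nonneg hk0.le]
    rw [e2, e]
    calc _ ≤ _ := norm_sub_le _ _
      _ < 2 := by linarith
  have h4 : δ ≤ ‖g x - g y‖ := hδ x y hc
  have h5 : k * δ ≤ k * ‖g x - g y‖ := mul_le_mul_of_nonneg_left h4 hk0.le
  linarith

/-- a plane compactum with exact tree refinements has fine covers with acyclic nerve -/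
theorem cover_of_refinable (M : Set (EuclideanSpace ℝ (Fin 2))) (hM : IsCompact M)
    (hX : ExactTreeRefinable M) :
    ∀ ε : ℝ, 0 < ε → ∃ n : ℕ, ∃ U : Fin n → Set (EuclideanSpace ℝ (Fin 2)),
          (∀ i, IsOpen (U i)) ∧ M ⊆ ⋃ i, U i ∧
          (∀ i, ∀ x ∈ U i ∩ M, ∀ y ∈ U i ∩ M, dist x y < ε) ∧
          (SimpleGraph.fromRel (fun i j => (U i ∩ U j ∩ M).Nonempty)).IsAcyclic := by
  classical
  intro ε hε
  have hcs : CompactSpace M := isCompact_iff_compactSpace.1 hM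
  obtain ⟨_, _, _, _, _, hfine⟩ := hX 1 one_pos
  obtain ⟨V, hV, T, _, g, hT, hg, hgeo, hfib, _⟩ := hfine ε hε
  obtain ⟨W, hW, H, q, hH, hq, hqgeo, hsmall⟩ := star_small T hT g hg hgeo ε hfib
  let e : Fin (Fintype.card W) ≃ W := (Fintype.equivFin W).symm
  have hop : ∀ i, ∃ O : Set (EuclideanSpace ℝ (Fin 2)), IsOpen O ∧
      (Subtype.val ⁻¹' O : Set M) = {x : M | q x (e i) ≠ 0} := by
    intro i
    have : IsOpen {x : M | q x (e i) ≠ 0} :=
      isOpen_ne_fun ((continuous_apply (e i)).comp hq) continuous_const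
    exact isOpen_induced_iff.1 this
  choose U hU hUe using hop
  have hmem : ∀ i (x : M), x.1 ∈ U i ↔ q x (e i) ≠ 0 := by
    intro i x
    have : x ∈ (Subtype.val ⁻¹' (U i) : Set M) ↔ x ∈ {x : M | q x (e i) ≠ 0} := by rw [hUe i]
    exact this
  refine ⟨Fintype.card W, U, hU, ?_, ?_, ?_⟩
  · intro x hx
    obtain ⟨w, hw⟩ := geo_exists H (q ⟨x, hx⟩) (hqgeo _)
    refine mem_iUnion.2 ⟨e.symm w, ?_⟩
    have := (hmem (e.symm w) ⟨x, hx⟩).2 (by rw [Equiv.apply_symm_apply]; exact hw)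
    exact this
  · rintro i x ⟨hx, hxM⟩ y ⟨hy, hyM⟩
    exact hsmall ⟨x, hxM⟩ ⟨y, hyM⟩ (e i) ((hmem i ⟨x, hxM⟩).1 hx) ((hmem i ⟨y, hyM⟩).1 hy)
  · have hadj : ∀ i j, (SimpleGraph.fromRel (fun i j => (U i ∩ U j ∩ M).Nonempty)).Adj i j →
        H.Adj (e i) (e j) := by
      intro i j hij
      rw [SimpleGraph.fromRel_adj] at hij
      obtain ⟨hne, h⟩ := hij
      have : ∃ x : M, q x (e i) ≠ 0 ∧ q x (e j) ≠ 0 := by
        rcases h with ⟨x, ⟨h1, h2⟩, h3⟩ | ⟨x, ⟨h1, h2⟩, h3⟩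
        · exact ⟨⟨x, h3⟩, (hmem i ⟨x, h3⟩).1 h1, (hmem j ⟨x, h3⟩).1 h2⟩
        · exact ⟨⟨x, h3⟩, (hmem i ⟨x, h3⟩).1 h2, (hmem j ⟨x, h3⟩).1 h1⟩
      obtain ⟨x, h1, h2⟩ := this
      exact ((hqgeo x).2.2 _ _ h1 h2).resolve_left (fun h => hne (e.injective h))
    exact SimpleGraph.IsAcyclic.comap ⟨e, fun {a b} h => hadj a b h⟩ e.injective hH

/-- helper648's splitting argument: a plane continuum with fine covers with acyclic nerve and with
uncountably many disjoint planar copies has property (D) -/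
theorem planar_D (M : Set (EuclideanSpace ℝ (Fin 2))) (hM : IsCompact M) (hconn : IsConnected M)
    (htree : ∀ ε : ℝ, 0 < ε → ∃ n : ℕ, ∃ U : Fin n → Set (EuclideanSpace ℝ (Fin 2)),
          (∀ i, IsOpen (U i)) ∧ M ⊆ ⋃ i, U i ∧
          (∀ i, ∀ x ∈ U i ∩ M, ∀ y ∈ U i ∩ M, dist x y < ε) ∧
          (SimpleGraph.fromRel (fun i j => (U i ∩ U j ∩ M).Nonempty)).IsAcyclic)
    (S : Set (Set (EuclideanSpace ℝ (Fin 2)))) (hS : ¬ S.Countable)
    (hdisj : S.PairwiseDisjoint id) (hhomeo : ∀ A ∈ S, Nonempty (A ≃ₜ M)) :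
    ∀ (A B : M) (K : Set (M × M)), IsCompact K → IsConnected K → (A, B) ∈ K →
      (B, A) ∈ K → ∃ x : M, (x, x) ∈ K := by
  classical
  have hcs : CompactSpace M := isCompact_iff_compactSpace.1 hM
  have hps : PreconnectedSpace M := isPreconnected_iff_preconnectedSpace.1 hconn.isPreconnected
  have hlog : Helper648.PC.HasLog M := by
    apply Helper648.PC.hasLog_of_treeLike hM hconn.isPreconnected
    exact htree
  -- the embeddings
  have hemb : ∀ A : Set (EuclideanSpace ℝ (Fin 2)), ∃ e : C(M, EuclideanSpace ℝ (Fin 2)),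
      A ∈ S → (Function.Injective e ∧ range e = A) := by
    intro A
    by_cases hA : A ∈ S
    · obtain ⟨φ⟩ := hhomeo A hA
      refine ⟨⟨fun m => (φ.symm m : EuclideanSpace ℝ (Fin 2)),
        continuous_subtype_val.comp φ.symm.continuous⟩, fun _ => ⟨?_, ?_⟩⟩
      · exact Subtype.val_injective.comp φ.symm.injective
      · ext z
        constructor
        · rintro ⟨m, rfl⟩
          exact (φ.symm m).2
        · intro hz
          exact ⟨φ ⟨z, hz⟩, by simp⟩
    · exact ⟨ContinuousMap.const _ 0, fun h => (hA h).elim⟩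
  choose e he using hemb
  have hW : ¬ (e '' S).Countable := by
    intro hc
    apply hS
    have h1 : (((fun f : C(M, EuclideanSpace ℝ (Fin 2)) => range f)) '' (e '' S)).Countable :=
      hc.image _
    refine h1.mono ?_
    intro A hA
    exact ⟨e A, ⟨A, hA, rfl⟩, (he A hA).2⟩
  obtain ⟨w, ⟨A₀, hA₀, rfl⟩, hacc⟩ := Helper648.PC.exists_accumulation (e '' S) hW
  -- pass to the complex plane
  let τ : EuclideanSpace ℝ (Fin 2) ≃ₗᵢ[ℝ] ℂ := Complex.orthonormalBasisOneI.repr.symm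
  have hτc : Continuous τ := τ.continuous
  let e₀ : M → ℂ := fun m => τ (e A₀ m)
  have he₀c : Continuous e₀ := hτc.comp (e A₀).continuous
  have he₀i : Function.Injective e₀ := τ.injective.comp (he A₀ hA₀).1
  have happ : ∀ δ : ℝ, 0 < δ → ∃ f : M → ℂ, Continuous f ∧ (∀ x y, f x ≠ e₀ y) ∧
      ∀ x, ‖f x - e₀ x‖ < δ := by
    intro δ hδ
    obtain ⟨v, ⟨A, hA, rfl⟩, hvne, hvN⟩ := hacc (Metric.ball (e A₀) δ) (Metric.ball_mem_nhds _ hδ)
    have hAne : A ≠ A₀ := by
      rintro rfl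
      exact hvne rfl
    refine ⟨fun m => τ (e A m), hτc.comp (e A).continuous, ?_, ?_⟩
    · intro x y hxy
      have h1 : e A x = e A₀ y := τ.injective hxy
      have h2 : e A x ∈ A := (he A hA).2.subset (mem_range_self x)
      have h3 : e A₀ y ∈ A₀ := (he A₀ hA₀).2.subset (mem_range_self y)
      rw [h1] at h2
      exact Set.disjoint_left.1 (hdisj hA hA₀ hAne) h2 h3
    · intro x
      have h1 : dist (e A) (e A₀) < δ := hvN
      have h2 : dist (e A x) (e A₀ x) ≤ dist (e A) (e A₀) := ContinuousMap.dist_apply_le_dist x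
      calc ‖τ (e A x) - e₀ x‖ = ‖τ (e A x - e A₀ x)‖ := by
            simp only [e₀, map_sub]
        _ = ‖e A x - e A₀ x‖ := τ.norm_map _
        _ = dist (e A x) (e A₀ x) := (dist_eq_norm _ _).symm
        _ < δ := lt_of_le_of_lt h2 h1
  -- the splitting function at level `ε`
  have hsplit : ∀ ε : ℝ, 0 < ε → ∃ D : M × M → ℝ, Continuous D ∧ (∀ p, D p.swap = - D p) ∧
      ∀ p : M × M, ε ≤ dist p.1 p.2 → D p ≠ 0 := by
    intro ε hε
    have hPc : IsCompact {p : M × M | ε ≤ dist p.1 p.2} :=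
      (isClosed_le continuous_const (by fun_prop)).isCompact
    obtain ⟨D, h1, h2, h3⟩ := Helper648.PC.splitting hlog e₀ he₀c happ
      {p : M × M | ε ≤ dist p.1 p.2} hPc (by
        rintro ⟨x, y⟩ hp heq
        have hxy : x = y := he₀i heq
        subst hxy
        have : ε ≤ dist x x := hp
        rw [dist_self] at this
        linarith)
    exact ⟨D, h1, h2, h3⟩
  intro a b K hKc hKconn hab hba
  by_contra hdiag
  have hcont : Continuous fun z : M × M => dist z.1 z.2 := continuous_fst.dist continuous_snd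
  obtain ⟨z0, hz0, hmin⟩ := hKc.exists_isMinOn hKconn.nonempty hcont.continuousOn
  have hpos : 0 < dist z0.1 z0.2 := by
    apply dist_pos.2
    intro h
    apply hdiag
    refine ⟨z0.1, ?_⟩
    have : z0 = (z0.1, z0.1) := Prod.ext rfl h.symm
    rw [← this]; exact hz0
  obtain ⟨D, hDc, hDs, hD0⟩ := hsplit _ hpos
  have hne : ∀ z ∈ K, D z ≠ 0 := fun z hz => hD0 z (hmin hz)
  have hswap : D (b, a) = - D (a, b) := hDs (a, b)
  have hpre := hKconn.isPreconnected.image D hDc.continuousOn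
  have h0 : (0 : ℝ) ∈ D '' K := by
    have hoc := hpre.ordConnected
    have h1 : D (a, b) ∈ D '' K := ⟨_, hab, rfl⟩
    have h2 : D (b, a) ∈ D '' K := ⟨_, hba, rfl⟩
    rcases le_total 0 (D (a, b)) with h | h
    · exact hoc.out h2 h1 ⟨by rw [hswap]; linarith, h⟩
    · exact hoc.out h1 h2 ⟨h, by rw [hswap]; linarith⟩
  obtain ⟨z, hz, hz0'⟩ := h0
  exact hne z hz hz0'

/-- the main combination -/
theorem planar_span (M : Set (EuclideanSpace ℝ (Fin 2))) (hM : IsCompact M)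
    (hconn : IsConnected M) (hX : ExactTreeRefinable M)
    (S : Set (Set (EuclideanSpace ℝ (Fin 2)))) (hS : ¬ S.Countable)
    (hdisj : S.PairwiseDisjoint id) (hhomeo : ∀ A ∈ S, Nonempty (A ≃ₜ M))
    (Z : Set (EuclideanSpace ℝ (Fin 2) × EuclideanSpace ℝ (Fin 2))) (hZM : Z ⊆ M ×ˢ M)
    (hZc : IsCompact Z) (hZ : IsConnected Z) (hpr : Prod.snd '' Z ⊆ Prod.fst '' Z) :
    ∃ x, (x, x) ∈ Z := by
  classical
  have hcs : CompactSpace M := isCompact_iff_compactSpace.1 hM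
  have hD := planar_D M hM hconn (cover_of_refinable M hM hX) S hS hdisj hhomeo
  let j : M × M → EuclideanSpace ℝ (Fin 2) × EuclideanSpace ℝ (Fin 2) :=
    Prod.map Subtype.val Subtype.val
  have hj : IsClosedEmbedding j :=
    (hM.isClosed.isClosedEmbedding_subtypeVal).prodMap (hM.isClosed.isClosedEmbedding_subtypeVal)
  have himg : j '' (j ⁻¹' Z) = Z := by
    apply Set.image_preimage_eq_of_subset
    intro z hz
    exact ⟨(⟨z.1, (hZM hz).1⟩, ⟨z.2, (hZM hz).2⟩), rfl⟩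
  have hZc' : IsCompact (j ⁻¹' Z) := hj.isCompact_preimage hZc
  have hZ' : IsConnected (j ⁻¹' Z) := by
    refine ⟨?_, ?_⟩
    · obtain ⟨z, hz⟩ := hZ.nonempty
      exact ⟨(⟨z.1, (hZM hz).1⟩, ⟨z.2, (hZM hz).2⟩), hz⟩
    · rw [← hj.isInducing.isPreconnected_image, himg]
      exact hZ.isPreconnected
  have hpr' : Prod.snd '' (j ⁻¹' Z) ⊆ Prod.fst '' (j ⁻¹' Z) := by
    rintro y ⟨z, hz, rfl⟩
    obtain ⟨w, hw, hw2⟩ := hpr ⟨j z, hz, rfl⟩
    refine ⟨(⟨w.1, (hZM hw).1⟩, ⟨w.2, (hZM hw).2⟩), hw, ?_⟩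
    apply Subtype.ext
    exact hw2
  obtain ⟨x, hx⟩ := refinable_span hX hD (j ⁻¹' Z) hZc' hZ' hpr'
  exact ⟨x.1, hx⟩

end Pool.Agent.Helper885.ExRef
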