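import Mathlib
import Pool.Agent.Helper648.PC.Main

set_option autoImplicit false

open Set Topology

namespace Pool.Agent.Helper885.Sym

/-- Let `M` be a plane continuum which is tree-like (fine open covers with tree nerves) and such
that the plane contains uncountably many pairwise disjoint sets homeomorphic to `M`.  Then:

(1) for every `ε > 0` the compact set of ordered pairs of points of `M` at distance at least `ε`
is the union of two closed sets `A` and `swap A` which are disjoint from each other;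

(2) every connected set `K` of pairs of points of `M` whose points keep a positive distance
(so in particular every subcontinuum of `M × M` missing the diagonal) is disjoint from its
transpose: it contains no two pairs `(a, b)` and `(b, a)`;

(3) every subcontinuum of `M × M` which is symmetric, or merely contains `(a, b)` and `(b, a)` for
some `a, b`, meets the diagonal.  In other words `M` has symmetric span zero. -/
theorem sym_result (M : Set (EuclideanSpace ℝ (Fin 2))) (hM : IsCompact M) (hconn : IsConnected M)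
    (htree : ∀ ε : ℝ, 0 < ε → ∃ n : ℕ, ∃ U : Fin n → Set (EuclideanSpace ℝ (Fin 2)),
          (∀ i, IsOpen (U i)) ∧ M ⊆ ⋃ i, U i ∧
          (∀ i, ∀ x ∈ U i ∩ M, ∀ y ∈ U i ∩ M, dist x y < ε) ∧
          (∀ i j k, i ≠ j → j ≠ k → i ≠ k → U i ∩ U j ∩ U k ∩ M = ∅) ∧
          (SimpleGraph.fromRel (fun i j => (U i ∩ U j ∩ M).Nonempty)).IsTree)
    (S : Set (Set (EuclideanSpace ℝ (Fin 2)))) (hS : ¬ S.Countable)
    (hdisj : S.PairwiseDisjoint id) (hhomeo : ∀ A ∈ S, Nonempty (A ≃ₜ M)) :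
    (∀ ε : ℝ, 0 < ε →
      ∃ A : Set (EuclideanSpace ℝ (Fin 2) × EuclideanSpace ℝ (Fin 2)),
        IsClosed A ∧ Disjoint A (Prod.swap ⁻¹' A) ∧
        {p | p ∈ M ×ˢ M ∧ ε ≤ dist p.1 p.2} = A ∪ Prod.swap ⁻¹' A) ∧
    (∀ K : Set (EuclideanSpace ℝ (Fin 2) × EuclideanSpace ℝ (Fin 2)),
        K ⊆ M ×ˢ M → IsPreconnected K → (∃ ε : ℝ, 0 < ε ∧ ∀ p ∈ K, ε ≤ dist p.1 p.2) →
        Disjoint K (Prod.swap ⁻¹' K)) ∧
    (∀ K : Set (EuclideanSpace ℝ (Fin 2) × EuclideanSpace ℝ (Fin 2)),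
        K ⊆ M ×ˢ M → IsCompact K → IsConnected K →
        (∃ a b, (a, b) ∈ K ∧ (b, a) ∈ K) → ∃ x, (x, x) ∈ K) := by
  classical
  have hcs : CompactSpace M := isCompact_iff_compactSpace.1 hM
  have hps : PreconnectedSpace M := isPreconnected_iff_preconnectedSpace.1 hconn.isPreconnected
  have hlog : Helper648.PC.HasLog M := by
    apply Helper648.PC.hasLog_of_treeLike hM hconn.isPreconnected
    intro ε hε
    obtain ⟨n, U, h1, h2, h3, _, h5⟩ := htree ε hε
    exact ⟨n, U, h1, h2, h3, h5.isAcyclic⟩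
  -- the embeddings
  have hemb : ∀ A : Set (EuclideanSpace ℝ (Fin 2)), ∃ e : C(M, EuclideanSpace ℝ (Fin 2)),
      A ∈ S → (Function.Injective e ∧ range e = A) := by
    intro A
    by_cases hA : A ∈ S
    · obtain ⟨φ⟩ := hhomeo A hA
      refine ⟨⟨fun m => (φ.symm m : EuclideanSpace ℝ (Fin 2)),
        continuous_subtype_val.comp φ.symm.continuous⟩, fun _ => ⟨?_, ?_⟩⟩
      · exact Subtype.val_injective.comp φ.symm.injective
      · ext z
        constructor
        · rintro ⟨m, rfl⟩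
          exact (φ.symm m).2
        · intro hz
          exact ⟨φ ⟨z, hz⟩, by simp⟩
    · exact ⟨ContinuousMap.const _ 0, fun h => (hA h).elim⟩
  choose e he using hemb
  have hW : ¬ (e '' S).Countable := by
    intro hc
    apply hS
    have h1 : (((fun f : C(M, EuclideanSpace ℝ (Fin 2)) => range f)) '' (e '' S)).Countable :=
      hc.image _
    refine h1.mono ?_
    intro A hA
    exact ⟨e A, ⟨A, hA, rfl⟩, (he A hA).2⟩
  obtain ⟨w, ⟨A₀, hA₀, rfl⟩, hacc⟩ := Helper648.PC.exists_accumulation (e '' S) hW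
  -- pass to the complex plane
  let τ : EuclideanSpace ℝ (Fin 2) ≃ₗᵢ[ℝ] ℂ := Complex.orthonormalBasisOneI.repr.symm
  have hτc : Continuous τ := τ.continuous
  let e₀ : M → ℂ := fun m => τ (e A₀ m)
  have he₀c : Continuous e₀ := hτc.comp (e A₀).continuous
  have he₀i : Function.Injective e₀ := τ.injective.comp (he A₀ hA₀).1
  have happ : ∀ δ : ℝ, 0 < δ → ∃ f : M → ℂ, Continuous f ∧ (∀ x y, f x ≠ e₀ y) ∧
      ∀ x, ‖f x - e₀ x‖ < δ := by
    intro δ hδ
    obtain ⟨v, ⟨A, hA, rfl⟩, hvne, hvN⟩ := hacc (Metric.ball (e A₀) δ) (Metric.ball_mem_nhds _ hδ)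
    have hAne : A ≠ A₀ := by
      rintro rfl
      exact hvne rfl
    refine ⟨fun m => τ (e A m), hτc.comp (e A).continuous, ?_, ?_⟩
    · intro x y hxy
      have h1 : e A x = e A₀ y := τ.injective hxy
      have h2 : e A x ∈ A := (he A hA).2.subset (mem_range_self x)
      have h3 : e A₀ y ∈ A₀ := (he A₀ hA₀).2.subset (mem_range_self y)
      rw [h1] at h2
      exact Set.disjoint_left.1 (hdisj hA hA₀ hAne) h2 h3
    · intro x
      have h1 : dist (e A) (e A₀) < δ := hvN
      have h2 : dist (e A x) (e A₀ x) ≤ dist (e A) (e A₀) := ContinuousMap.dist_apply_le_dist x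
      calc ‖τ (e A x) - e₀ x‖ = ‖τ (e A x - e A₀ x)‖ := by
            simp only [e₀, map_sub]
        _ = ‖e A x - e A₀ x‖ := τ.norm_map _
        _ = dist (e A x) (e A₀ x) := (dist_eq_norm _ _).symm
        _ < δ := lt_of_le_of_lt h2 h1
  -- the splitting function at level `ε`
  have hsplit : ∀ ε : ℝ, 0 < ε → ∃ D : M × M → ℝ, Continuous D ∧ (∀ p, D p.swap = - D p) ∧
      ∀ p : M × M, ε ≤ dist p.1 p.2 → D p ≠ 0 := by
    intro ε hε
    have hPc : IsCompact {p : M × M | ε ≤ dist p.1 p.2} :=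
      (isClosed_le continuous_const (by fun_prop)).isCompact
    obtain ⟨D, h1, h2, h3⟩ := Helper648.PC.splitting hlog e₀ he₀c happ
      {p : M × M | ε ≤ dist p.1 p.2} hPc (by
        rintro ⟨x, y⟩ hp heq
        have hxy : x = y := he₀i heq
        subst hxy
        have : ε ≤ dist x x := hp
        rw [dist_self] at this
        linarith)
    exact ⟨D, h1, h2, h3⟩
  have hpart1 : ∀ ε : ℝ, 0 < ε →
      ∃ A : Set (EuclideanSpace ℝ (Fin 2) × EuclideanSpace ℝ (Fin 2)),
        IsClosed A ∧ Disjoint A (Prod.swap ⁻¹' A) ∧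
        {p | p ∈ M ×ˢ M ∧ ε ≤ dist p.1 p.2} = A ∪ Prod.swap ⁻¹' A := by
    intro ε hε
    obtain ⟨D, hDc, hDs, hD0⟩ := hsplit ε hε
    let j : M × M → EuclideanSpace ℝ (Fin 2) × EuclideanSpace ℝ (Fin 2) :=
      Prod.map Subtype.val Subtype.val
    have hjc : Continuous j := by fun_prop
    have hPcl1 : IsClosed {p : M × M | ε ≤ dist p.1 p.2} :=
      isClosed_le continuous_const (by fun_prop)
    have hPcl2 : IsClosed {p : M × M | 0 ≤ D p} := isClosed_le continuous_const hDc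
    have hPc : IsCompact {p : M × M | ε ≤ dist p.1 p.2 ∧ 0 ≤ D p} :=
      (hPcl1.inter hPcl2).isCompact
    refine ⟨j '' {p : M × M | ε ≤ dist p.1 p.2 ∧ 0 ≤ D p}, (hPc.image hjc).isClosed, ?_, ?_⟩
    · rw [Set.disjoint_left]
      rintro _ ⟨⟨x, y⟩, ⟨hd, hD⟩, rfl⟩ ⟨⟨x', y'⟩, ⟨hd', hD'⟩, heq⟩
      simp only [j, Prod.map_apply, Prod.swap_prod_mk, Prod.mk.injEq] at heq
      have e1 : x' = y := Subtype.ext heq.1
      have e2 : y' = x := Subtype.ext heq.2
      subst e1 e2
      have h1 := hDs (y', x')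
      simp only [Prod.swap_prod_mk] at h1
      have h2 := hD0 (y', x') hd
      apply h2
      linarith
    · ext ⟨x, y⟩
      constructor
      · rintro ⟨⟨hx, hy⟩, hd⟩
        rcases le_total 0 (D (⟨x, hx⟩, ⟨y, hy⟩)) with h | h
        · left
          exact ⟨(⟨x, hx⟩, ⟨y, hy⟩), ⟨hd, h⟩, rfl⟩
        · right
          refine ⟨(⟨y, hy⟩, ⟨x, hx⟩), ⟨?_, ?_⟩, rfl⟩
          · show ε ≤ dist y x
            rw [dist_comm]; exact hd
          · have := hDs (⟨x, hx⟩, ⟨y, hy⟩)
            simp only [Prod.swap_prod_mk] at this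
            rw [this]
            linarith
      · rintro (⟨⟨x', y'⟩, ⟨hd, -⟩, heq⟩ | ⟨⟨x', y'⟩, ⟨hd, -⟩, heq⟩)
        · simp only [j, Prod.map_apply, Prod.mk.injEq] at heq
          obtain ⟨rfl, rfl⟩ := heq
          exact ⟨⟨x'.2, y'.2⟩, hd⟩
        · simp only [j, Prod.map_apply, Prod.swap_prod_mk, Prod.mk.injEq] at heq
          obtain ⟨rfl, rfl⟩ := heq
          refine ⟨⟨y'.2, x'.2⟩, ?_⟩
          show ε ≤ dist (y' : EuclideanSpace ℝ (Fin 2)) x'
          rw [dist_comm]; exact hd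
  have hpart2 : ∀ K : Set (EuclideanSpace ℝ (Fin 2) × EuclideanSpace ℝ (Fin 2)),
        K ⊆ M ×ˢ M → IsPreconnected K → (∃ ε : ℝ, 0 < ε ∧ ∀ p ∈ K, ε ≤ dist p.1 p.2) →
        Disjoint K (Prod.swap ⁻¹' K) := by
    rintro K hK hKc ⟨ε, hε, hKε⟩
    obtain ⟨A, hAc, hAd, hAu⟩ := hpart1 ε hε
    rw [Set.disjoint_left]
    intro p hp hp'
    have hsub : K ⊆ A ∪ Prod.swap ⁻¹' A := by
      rw [← hAu]
      exact fun q hq => ⟨hK hq, hKε q hq⟩
    have hAc' : IsClosed (Prod.swap ⁻¹' A) := hAc.preimage continuous_swap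
    have hempty : K ∩ (A ∩ Prod.swap ⁻¹' A) = ∅ := by
      rw [hAd.inter_eq, inter_empty]
    have hor := isPreconnected_iff_subset_of_disjoint_closed.1 hKc A (Prod.swap ⁻¹' A) hAc hAc'
      hsub hempty
    rcases hor with h | h
    · exact Set.disjoint_left.1 hAd (h hp) (h hp')
    · have h1 : p.swap ∈ A := h hp
      have h2 : p.swap.swap ∈ A := h hp'
      rw [Prod.swap_swap] at h2
      exact Set.disjoint_left.1 hAd h2 h1
  refine ⟨hpart1, hpart2, ?_⟩
  rintro K hK hKcomp hKc ⟨a, b, hab, hba⟩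
  by_contra hdiag
  have hne : K.Nonempty := ⟨_, hab⟩
  obtain ⟨q, hq, hqmin⟩ := hKcomp.exists_isMinOn hne
    (f := fun p : EuclideanSpace ℝ (Fin 2) × EuclideanSpace ℝ (Fin 2) => dist p.1 p.2)
    (by fun_prop)
  have hq0 : 0 < dist q.1 q.2 := by
    rw [dist_pos]
    intro h
    apply hdiag
    refine ⟨q.1, ?_⟩
    have : q = (q.1, q.1) := Prod.ext rfl h.symm
    rw [← this]
    exact hq
  have := hpart2 K hK hKc.isPreconnected ⟨_, hq0, fun p hp => hqmin hp⟩
  exact Set.disjoint_left.1 this hab hba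

end Pool.Agent.Helper885.Sym
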